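import Pool.Graph.R_seed8.H413R3.OddT.Alg
import Pool.Graph.R_seed8.H397R2.PP.TH

set_option autoImplicit false

/-!
# Odd values of `p_t` from odd coefficients: the case `3 ∣ t`; the exponents
-/

namespace Pool.Agent.H13.MO

open PowerSeries Pool.Agent.H397R2.PP
open Pool.Agent.H307R2.OP Pool.Agent.H307R2.OP.OC
open Pool.Agent.H413R3.Part
open Pool.Agent.H397R2.PP.TH
open Pool.Agent.H413R3.OddT (sp_two_mul_add sp_high digits ocT existsOddT)

/-- odd values of `p_{3 τ}` from an odd coefficient -/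
theorem existsOdd3 (τ e m N : ℕ) (hm : m + τ = 2 ^ e) (h : coeff N (Db ^ m) = 1) :
    ∃ n u : ℕ, Odd (mp (3 * τ) n) ∧ 8 * n + 2 ^ e * u ^ 2 = N + τ := by
  have h1 : Db ^ m = X ^ m * PowerSeries.expand 8 (by norm_num)
      (pentagonalSeries (ZMod 2) ^ (3 * m)) := by
    rw [← pow_eq_expand' 8 3 (by norm_num) (by norm_num), Db, mul_pow, ← pow_mul, ← pow_mul]
    congr 2
    ring
  have hN : ∃ n0 : ℕ, N = 8 * n0 + m := by
    rw [h1, coeff_X_pow_mul'] at h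
    split_ifs at h with hmN
    · rw [coeff_expand] at h
      split_ifs at h with hd
      · obtain ⟨c, hc⟩ := hd
        exact ⟨c, by omega⟩
      · exact absurd h (by decide)
    · exact absurd h (by decide)
  obtain ⟨n0, rfl⟩ := hN
  rw [h1, coeff_X_pow_mul, coeff_expand_mul] at h
  have hM : (2 ^ e : ℕ) ≠ 0 := by positivity
  set F : (ZMod 2)⟦X⟧ := PowerSeries.mk fun n => (Fintype.card (Nat.Partition n) : ZMod 2)
    with hF
  set f : (ZMod 2)⟦X⟧ := pentagonalSeries (ZMod 2) with hf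
  have hFf : F * f = 1 := mk_card_mul_pentagonalSeries (ZMod 2)
  have h2 : f ^ (3 * m) = F ^ (3 * τ) * PowerSeries.expand (2 ^ e) hM (ind isTri) := by
    have h3 : ind isTri = f ^ 3 := by rw [psi_eq, hf, pent_eq]
    rw [h3, ← pow_eq_expand' (2 ^ e) e hM rfl, ← pow_mul, ← hm]
    have h4 : f ^ (3 * (m + τ)) = f ^ (3 * m) * f ^ (3 * τ) := by
      rw [← pow_add]
      congr 1
      ring
    rw [h4]
    calc f ^ (3 * m) = f ^ (3 * m) * (F * f) ^ (3 * τ) := by rw [hFf, one_pow, mul_one]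
      _ = _ := by rw [mul_pow]; ring
  rw [h2, coeff_mul] at h
  have hne : (∑ p ∈ Finset.HasAntidiagonal.antidiagonal n0, coeff p.1 (F ^ (3 * τ)) *
      coeff p.2 (PowerSeries.expand (2 ^ e) hM (ind isTri))) ≠ 0 := by
    rw [h]
    decide
  obtain ⟨p, hp, hp2⟩ := Finset.exists_ne_zero_of_sum_ne_zero hne
  rw [Finset.HasAntidiagonal.mem_antidiagonal] at hp
  have hp3 := left_ne_zero_of_mul hp2
  have hp4 := right_ne_zero_of_mul hp2
  rw [hF, coeff_pow_eq] at hp3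
  rw [expand_ind] at hp4
  classical
  rw [coeff_ind] at hp4
  split_ifs at hp4 with hk
  · obtain ⟨k, hk1, i, hi⟩ := hk
    refine ⟨p.1, 2 * i + 1, ?_, ?_⟩
    · rw [← Nat.not_even_iff_odd]
      intro he
      exact hp3 ((ZMod.natCast_eq_zero_iff_even).2 he)
    · have h5 : (2 * i + 1) ^ 2 = 8 * k + 1 := by nlinarith
      rw [h5, ← hp, hk1]
      generalize hq : (2 : ℕ) ^ e = q at *
      have : q * (8 * k + 1) = 8 * (q * k) + q := by ring
      rw [this]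
      omega
  · exact absurd rfl hp4

theorem lt_of_sp (k : ℕ) : ∀ x : ℕ, sp x < 4 ^ k → x < 2 ^ k := by
  induction k with
  | zero =>
    intro x hx
    rcases Nat.eq_zero_or_pos x with h | h
    · rw [h]; norm_num
    · exfalso
      have h1 : sp x = 4 * sp (x / 2) + x % 2 := by
        conv_lhs => rw [← Nat.div_add_mod x 2]
        exact sp_two_mul_add _ _ (Nat.mod_lt _ (by norm_num))
      -- `sp x = 0` implies `x = 0`
      have h2 : ∀ z : ℕ, z ≤ sp z := by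
        intro z
        induction z using Nat.strong_induction_on with
        | _ z ih =>
          rcases Nat.eq_zero_or_pos z with h0 | h0
          · rw [h0]; exact Nat.zero_le _
          · have h3 : sp z = 4 * sp (z / 2) + z % 2 := by
              conv_lhs => rw [← Nat.div_add_mod z 2]
              exact sp_two_mul_add _ _ (Nat.mod_lt _ (by norm_num))
            have h4 := ih (z / 2) (by omega)
            omega
      have h3 := h2 x
      rw [pow_zero] at hx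
      omega
  | succ k ih =>
    intro x hx
    have h1 : sp x = 4 * sp (x / 2) + x % 2 := by
      conv_lhs => rw [← Nat.div_add_mod x 2]
      exact sp_two_mul_add _ _ (Nat.mod_lt _ (by norm_num))
    have h2 := ih (x / 2) (by rw [pow_succ] at hx; omega)
    rw [pow_succ]
    omega

/-- the code of an odd number -/
theorem code (k j : ℕ) (hk : 1 ≤ k) (hj : j < 4 ^ k) (hodd : j % 2 = 1) :
    ∃ a m : ℕ, j = 2 * sp a + 4 * sp m + 1 ∧ a < 2 ^ k ∧ m < 2 ^ (k - 1) := by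
  obtain ⟨e, o, h1, h2, h3⟩ := digits j
  have he2 : sp e = 4 * sp (e / 2) + e % 2 := by
    conv_lhs => rw [← Nat.div_add_mod e 2]
    exact sp_two_mul_add _ _ (Nat.mod_lt _ (by norm_num))
  have he1 : e % 2 = 1 := by omega
  refine ⟨o, e / 2, by omega, ?_, ?_⟩
  · apply lt_of_sp
    omega
  · have h4 := h2 k hj
    have hp : 2 ^ k = 2 * 2 ^ (k - 1) := by
      rw [← pow_succ']
      congr 1
      omega
    omega

theorem sp_fill (k r x : ℕ) (hkr : k ≤ r) (hx : x < 2 ^ k) :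
    sp (2 ^ r + x - 2 ^ k) = 4 ^ k * sp (2 ^ (r - k) - 1) + sp x := by
  have h1 : 2 ^ r = 2 ^ k * 2 ^ (r - k) := by
    rw [← pow_add]
    congr 1
    omega
  have h2 : 1 ≤ 2 ^ (r - k) := Nat.one_le_two_pow
  have h3 : 2 ^ r + x - 2 ^ k = 2 ^ k * (2 ^ (r - k) - 1) + x := by
    rw [Nat.mul_sub, mul_one, ← h1]
    have : 2 ^ k ≤ 2 ^ r := Nat.pow_le_pow_right (by norm_num) hkr
    omega
  rw [h3, sp_high k _ _ hx]

/-- case `t ≡ 1 (mod 3)` -/
theorem expA (t : ℕ) (ht : t % 2 = 1) (h3 : t % 3 = 1) : ∃ k a m : ℕ, 1 ≤ k ∧ m < 2 ^ (k - 1) ∧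
    ∀ r, k ≤ r → 3 * (2 * sp a + 4 * sp (2 ^ (r - 1) + m - 2 ^ (k - 1)) + 1) + t = 4 ^ r := by
  obtain ⟨k, hk1, hk⟩ : ∃ k, 1 ≤ k ∧ t < 4 ^ k := ⟨t, by omega, Nat.lt_pow_self (by norm_num)⟩
  have h43 : (4 : ℕ) ^ k % 3 = 1 := by
    rw [Nat.pow_mod]; norm_num
  have h4d : (4 : ℕ) ^ k % 2 = 0 := by
    obtain ⟨k', rfl⟩ : ∃ k', k = k' + 1 := ⟨k - 1, by omega⟩
    rw [pow_succ]; omega
  obtain ⟨j, hj⟩ : ∃ j, 3 * j + t = 4 ^ k := ⟨(4 ^ k - t) / 3, by omega⟩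
  obtain ⟨a, m, h1, h2, h3⟩ := code k j hk1 (by omega) (by omega)
  refine ⟨k, a, m, hk1, h3, fun r hr => ?_⟩
  rw [sp_fill (k - 1) (r - 1) m (by omega) h3, show r - 1 - (k - 1) = r - k by omega]
  have h5 := sp_pow (r - k)
  have h6 : 4 ^ r = 4 * (4 ^ (k - 1) * 4 ^ (r - k)) := by
    rw [← pow_add, ← pow_succ']
    congr 1
    omega
  have h7 : 4 ^ k = 4 * 4 ^ (k - 1) := by
    rw [← pow_succ']
    congr 1
    omega
  rw [h6, ← h5]
  rw [h7] at hj
  generalize 4 ^ (k - 1) = P at *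
  generalize sp (2 ^ (r - k) - 1) = X' at *
  have e8 : 4 * (P * (3 * X' + 1)) = 12 * (P * X') + 4 * P := by ring
  rw [e8]
  omega

/-- case `t ≡ 2 (mod 3)` -/
theorem expB (t : ℕ) (ht : t % 2 = 1) (h3 : t % 3 = 2) : ∃ k a m : ℕ, 1 ≤ k ∧ a < 2 ^ k ∧
    ∀ r, k ≤ r → 3 * (2 * sp (2 ^ r + a - 2 ^ k) + 4 * sp m + 1) + t = 2 * 4 ^ r := by
  obtain ⟨k, hk1, hk⟩ : ∃ k, 1 ≤ k ∧ t < 4 ^ k := ⟨t, by omega, Nat.lt_pow_self (by norm_num)⟩
  have h43 : (4 : ℕ) ^ k % 3 = 1 := by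
    rw [Nat.pow_mod]; norm_num
  obtain ⟨j, hj⟩ : ∃ j, 3 * j + t = 2 * 4 ^ k := ⟨(2 * 4 ^ k - t) / 3, by omega⟩
  obtain ⟨a, m, h1, h2, h3⟩ := code k j hk1 (by omega) (by omega)
  refine ⟨k, a, m, hk1, h2, fun r hr => ?_⟩
  rw [sp_fill k r a hr h2]
  have h5 := sp_pow (r - k)
  have h6 : 4 ^ r = 4 ^ k * 4 ^ (r - k) := by
    rw [← pow_add]
    congr 1
    omega
  rw [h6, ← h5]
  generalize 4 ^ k = P at *
  generalize sp (2 ^ (r - k) - 1) = X' at *
  have e8 : 2 * (P * (3 * X' + 1)) = 6 * (P * X') + 2 * P := by ring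
  rw [e8]
  omega

/-- case `3 ∣ t` -/
theorem expC (τ : ℕ) (ht : τ % 2 = 1) : ∃ k a m : ℕ, 1 ≤ k ∧ a < 2 ^ k ∧ m < 2 ^ (k - 1) ∧
    ∀ r, k ≤ r → (2 * sp (2 ^ r + a - 2 ^ k) + 4 * sp (2 ^ (r - 1) + m - 2 ^ (k - 1)) + 1) + τ =
      4 ^ r := by
  obtain ⟨k, hk1, hk⟩ : ∃ k, 1 ≤ k ∧ τ < 4 ^ k := ⟨τ, by omega, Nat.lt_pow_self (by norm_num)⟩
  have h4d : (4 : ℕ) ^ k % 2 = 0 := by
    obtain ⟨k', rfl⟩ : ∃ k', k = k' + 1 := ⟨k - 1, by omega⟩
    rw [pow_succ]; omega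
  obtain ⟨j, hj⟩ : ∃ j, j + τ = 4 ^ k := ⟨4 ^ k - τ, by omega⟩
  obtain ⟨a, m, h1, h2, h3⟩ := code k j hk1 (by omega) (by omega)
  refine ⟨k, a, m, hk1, h2, h3, fun r hr => ?_⟩
  rw [sp_fill k r a hr h2, sp_fill (k - 1) (r - 1) m (by omega) h3,
    show r - 1 - (k - 1) = r - k by omega]
  have h5 := sp_pow (r - k)
  have h6 : 4 ^ r = 4 * (4 ^ (k - 1) * 4 ^ (r - k)) := by
    rw [← pow_add, ← pow_succ']
    congr 1
    omega
  have h7 : 4 ^ k = 4 * 4 ^ (k - 1) := by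
    rw [← pow_succ']
    congr 1
    omega
  rw [h6, ← h5, h7]
  rw [h7] at hj
  generalize 4 ^ (k - 1) = P at *
  generalize sp (2 ^ (r - k) - 1) = X' at *
  have e8 : 4 * (P * (3 * X' + 1)) = 12 * (P * X') + 4 * P := by ring
  have e9 : 4 * P * X' = 4 * (P * X') := by ring
  rw [e8, e9]
  omega

/-- the complement -/
theorem sp_compl (k : ℕ) : ∀ x y : ℕ, x + y + 1 = 2 ^ k → sp x + sp y = sp (2 ^ k - 1) := by
  induction k with
  | zero =>
    intro x y h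
    have h1 : x = 0 := by simp at h; omega
    have h2 : y = 0 := by simp at h; omega
    rw [h1, h2]
    simp [sp_zero]
  | succ k ih =>
    intro x y h
    rw [pow_succ] at h
    have h1 : sp x = 4 * sp (x / 2) + x % 2 := by
      conv_lhs => rw [← Nat.div_add_mod x 2]
      exact sp_two_mul_add _ _ (Nat.mod_lt _ (by norm_num))
    have h2 : sp y = 4 * sp (y / 2) + y % 2 := by
      conv_lhs => rw [← Nat.div_add_mod y 2]
      exact sp_two_mul_add _ _ (Nat.mod_lt _ (by norm_num))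
    have h3 : sp (2 ^ (k + 1) - 1) = 4 * sp (2 ^ k - 1) + 1 := by
      have h4 : 2 ^ (k + 1) - 1 = 2 * (2 ^ k - 1) + 1 := by
        have : 1 ≤ 2 ^ k := Nat.one_le_two_pow
        rw [pow_succ]
        omega
      rw [h4]
      exact sp_two_mul_add _ _ (by norm_num)
    have h5 := ih (x / 2) (y / 2) (by omega)
    omega

theorem sp_digits (i : ℕ) : ∀ x : ℕ, sp x / 4 ^ i % 4 ≤ 1 := by
  induction i with
  | zero =>
    intro x
    have h1 : sp x = 4 * sp (x / 2) + x % 2 := by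
      conv_lhs => rw [← Nat.div_add_mod x 2]
      exact sp_two_mul_add _ _ (Nat.mod_lt _ (by norm_num))
    rw [pow_zero, Nat.div_one]
    omega
  | succ i ih =>
    intro x
    have h1 : sp x = 4 * sp (x / 2) + x % 2 := by
      conv_lhs => rw [← Nat.div_add_mod x 2]
      exact sp_two_mul_add _ _ (Nat.mod_lt _ (by norm_num))
    have h2 : sp x / 4 ^ (i + 1) = sp (x / 2) / 4 ^ i := by
      rw [pow_succ', ← Nat.div_div_eq_div_mul]
      congr 1
      omega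
    rw [h2]
    exact ih _

/-- in the case `t ≡ 2 (mod 3)` the digits of `(t + 1) / 6` show whether `m` vanishes -/
theorem expB_ne (t k a : ℕ) (ha : a < 2 ^ k)
    (h : 3 * (2 * sp (2 ^ k + a - 2 ^ k) + 4 * sp 0 + 1) + t = 2 * 4 ^ k) (i : ℕ) :
    (t + 1) / 6 / 4 ^ i % 4 ≤ 1 := by
  obtain ⟨b, hb⟩ : ∃ b, a + b + 1 = 2 ^ k := ⟨2 ^ k - 1 - a, by omega⟩
  have h1 := sp_compl k a b hb
  have h2 := sp_pow k
  rw [Nat.add_sub_cancel_left, sp_zero] at h
  have h3 : (t + 1) / 6 = sp b := by omega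
  rw [h3]
  exact sp_digits i b

end Pool.Agent.H13.MO
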