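import Pool.Agent.H13.MO.QR
import Pool.Graph.R_seed8.H307R2.OP.Final

set_option autoImplicit false

/-!
# Task B-BAD2: number of biased kernels on the dyadic blocks
-/

namespace Pool.Agent.H13.MO

open Pool.Agent.H307R2.OP

open Finset

variable [P : Prm]

/-- the sum over a block in terms of the Jacobi symbol modulo `δ` -/
theorem abs_sum_J (i c δ : ℕ) (hδ : δ % 2 = 1) (hc : c % 2 = 1) (hc8 : c < 8) :
    |∑ p ∈ PB i c, J p δ / p| = |∑ p ∈ PB i c, Pool.Agent.H307R2.OP.J p δ / p| := by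
  have h1 : ∑ p ∈ PB i c, J p δ / p =
      (eps c δ : ℝ) * ∑ p ∈ PB i c, Pool.Agent.H307R2.OP.J p δ / p := by
    rw [Finset.mul_sum]
    refine Finset.sum_congr rfl fun p hp => ?_
    unfold PB at hp
    rw [Finset.mem_filter] at hp
    rw [J_eq hδ hc (by rw [hp.2.2, Nat.mod_eq_of_lt hc8])]
    ring
  rw [h1, abs_mul]
  have h2 : |(eps c δ : ℝ)| = 1 := by
    rcases eps_sq (δ := δ) hc with h | h <;> rw [h] <;> norm_num
  rw [h2, one_mul]

/-- task B-BAD2 -/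
theorem badAtCount (h : BadCount) : BadAtCount := by
  classical
  intro I i Δ m hI hi hm hΔ
  have hI' : (1:ℝ) ≤ I := by exact_mod_cast hI
  have hτ : (0:ℝ) < 1 / (I:ℝ) ^ 2 := by positivity
  have hY : 2 ≤ 2 ^ i := by
    calc 2 = 2 ^ 1 := (pow_one 2).symm
      _ ≤ 2 ^ i := Nat.pow_le_pow_right (by norm_num) hi
  have h2Y : 2 * 2 ^ i = 2 ^ (i + 1) := by ring
  have hΔ' : Δ ^ 3 ≤ (2 * 2 ^ i) ^ m := by
    rw [h2Y, ← pow_mul]
    exact hΔ
  let Bc : ℕ → Finset ℕ := fun c => (Icc 1 Δ).filter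
    (fun δ => AdmL δ ∧ 1 / (I : ℝ) ^ 2 < |∑ p ∈ PB i c, Pool.Agent.H307R2.OP.J p δ / p|)
  have hc : ∀ c, ((Bc c).card : ℝ) ≤ 2 * (2 * m * (I:ℝ) ^ 4) ^ m := by
    intro c
    have h1 := h (2 ^ i) Δ m (1 / (I:ℝ) ^ 2) (PB i c) (Bc c) hY hm hΔ' hτ ?_ ?_
    · refine h1.trans (le_of_eq ?_)
      congr 2
      field_simp
    · intro p hp
      unfold PB at hp
      rw [Finset.mem_filter, Finset.mem_Ioc] at hp
      exact ⟨hp.2.1, hp.1.1, by rw [h2Y]; exact hp.1.2⟩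
    · intro δ hδ
      simp only [Bc, Finset.mem_filter, Finset.mem_Icc] at hδ
      obtain ⟨⟨_, h3⟩, ⟨h4, h5, _⟩, h6⟩ := hδ
      exact ⟨h5, h4, h3, h6⟩
  have hsub : (Icc 1 Δ).filter (fun δ => AdmL δ ∧ BadAt I i δ) ⊆
      ({1, 3, 5, 7} : Finset ℕ).biUnion Bc := by
    intro δ hδ
    rw [Finset.mem_filter] at hδ
    obtain ⟨h1, h2, c, hc, h3⟩ := hδ
    rw [Finset.mem_biUnion]
    refine ⟨c, hc, ?_⟩
    rw [abs_sum_J i c δ h2.1 (by simp only [mem_insert, mem_singleton] at hc; omega)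
      (by simp only [mem_insert, mem_singleton] at hc; omega)] at h3
    simp only [Bc, Finset.mem_filter]
    exact ⟨h1, h2, h3⟩
  have hcard : (((Icc 1 Δ).filter (fun δ => AdmL δ ∧ BadAt I i δ)).card : ℝ) ≤
      ∑ c ∈ ({1, 3, 5, 7} : Finset ℕ), ((Bc c).card : ℝ) := by
    exact_mod_cast (Finset.card_le_card hsub).trans Finset.card_biUnion_le
  have hnn : (0:ℝ) ≤ (2 * m * (I:ℝ) ^ 4) ^ m := by positivity
  calc (((Icc 1 Δ).filter (fun δ => AdmL δ ∧ BadAt I i δ)).card : ℝ)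
      ≤ ∑ c ∈ ({1, 3, 5, 7} : Finset ℕ), ((Bc c).card : ℝ) := hcard
    _ ≤ ∑ c ∈ ({1, 3, 5, 7} : Finset ℕ), 2 * (2 * m * (I:ℝ) ^ 4) ^ m :=
        Finset.sum_le_sum fun c _ => hc c
    _ = 8 * (2 * m * (I:ℝ) ^ 4) ^ m := by
        rw [Finset.sum_const]
        simp only [show (({1, 3, 5, 7} : Finset ℕ)).card = 4 from rfl, nsmul_eq_mul]
        push_cast
        ring
    _ ≤ 16 * (2 * m * (I:ℝ) ^ 4) ^ m := by linarith

end Pool.Agent.H13.MO
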