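import Pool.Agent.H13.MO.Defs

set_option autoImplicit false

/-!
# Task QR: quadratic residues and the forms `δ s² + 2^b 4^r u²`
-/

namespace Pool.Agent.H13.MO

open Pool.Agent.H307R2.OP

open Finset

variable [P : Prm]

namespace QRAux

theorem not_dvd_E {q : ℕ} (hq : q.Prime) (h5 : 5 ≤ q) (r : ℕ) : ¬ q ∣ E r := by
  intro h
  unfold E at h
  rcases hq.dvd_mul.1 h with h | h
  · have h1 : q ∣ 2 := hq.dvd_of_dvd_pow h
    have := Nat.le_of_dvd (by norm_num) h1
    omega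
  · have h1 : q ∣ 4 := hq.dvd_of_dvd_pow h
    have := Nat.le_of_dvd (by norm_num) h1
    omega

theorem om_zero (r δ s q : ℕ) (hq : q.Prime) (h5 : 5 ≤ q) (hs : q ∣ s) :
    Om r δ s q = {0} := by
  ext u
  simp only [Om, mem_filter, mem_range, mem_singleton]
  constructor
  · rintro ⟨hu, hd⟩
    have h1 : q ∣ δ * s ^ 2 := (dvd_pow hs two_ne_zero).mul_left δ
    have h2 : q ∣ E r * u ^ 2 := (Nat.dvd_add_right h1).mp hd
    rcases hq.dvd_mul.mp h2 with h | h
    · exact absurd h (not_dvd_E hq h5 r)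
    · have h3 : q ∣ u := hq.dvd_of_dvd_pow h
      by_contra hne
      have := Nat.le_of_dvd (Nat.pos_of_ne_zero hne) h3
      omega
  · rintro rfl
    refine ⟨hq.pos, ?_⟩
    simpa using (dvd_pow hs two_ne_zero).mul_left δ

theorem om_card (r δ s q : ℕ) (hq : q.Prime) (h5 : 5 ≤ q) (hs : ¬ q ∣ s) :
    (((Om r δ s q).card : ℤ)) = 1 + jacobiSym (-((2 ^ P.b * δ : ℕ) : ℤ)) q := by
  haveI := Fact.mk hq
  have h1 := legendreSym.card_sqrts q (by omega : q ≠ 2) (-((2 ^ P.b * δ : ℕ) : ℤ))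
  rw [jacobiSym.legendreSym.to_jacobiSym] at h1
  rw [add_comm, ← h1]
  have hs0 : (s : ZMod q) ≠ 0 := by
    rw [Ne, ZMod.natCast_eq_zero_iff]; exact hs
  have h20 : (2 : ZMod q) ≠ 0 := by
    intro h
    have : ((2 : ℕ) : ZMod q) = 0 := by exact_mod_cast h
    rw [ZMod.natCast_eq_zero_iff] at this
    have := Nat.le_of_dvd (by norm_num) this
    omega
  have h2r : (2 : ZMod q) ^ P.b * (2 : ZMod q) ^ r ≠ 0 :=
    mul_ne_zero (pow_ne_zero _ h20) (pow_ne_zero _ h20)
  have h4r : (4 : ZMod q) ^ r = ((2 : ZMod q) ^ r) ^ 2 := by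
    rw [← pow_mul, mul_comm, pow_mul]; norm_num
  have hmem : ∀ u : ℕ, (q ∣ δ * s ^ 2 + E r * u ^ 2) ↔
      ((δ : ZMod q) * s ^ 2 + 2 ^ P.b * 4 ^ r * u ^ 2 = 0) := by
    intro u
    rw [← ZMod.natCast_eq_zero_iff]
    unfold E
    push_cast
    rfl
  congr 1
  refine Finset.card_bij (fun u _ => ((2 : ZMod q) ^ P.b * (2 : ZMod q) ^ r) * u * (s : ZMod q)⁻¹) ?_ ?_ ?_
  · intro u hu
    simp only [Om, mem_filter, mem_range] at hu
    have h := (hmem u).mp hu.2
    simp only [Set.mem_toFinset, Set.mem_ofPred_eq]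
    have h' : 2 ^ P.b * 4 ^ r * (u : ZMod q) ^ 2 = -((δ : ZMod q) * s ^ 2) := by
      linear_combination h
    push_cast
    have h'' : ((2 : ZMod q) ^ P.b * (2 : ZMod q) ^ r * u * (s : ZMod q)⁻¹) ^ 2 =
        2 ^ P.b * (2 ^ P.b * 4 ^ r * (u : ZMod q) ^ 2) * ((s : ZMod q)⁻¹) ^ 2 := by
      rw [h4r]; ring
    rw [h'', h']
    field_simp
  · intro u hu v hv huv
    simp only [Om, mem_filter, mem_range] at hu hv
    have h : (u : ZMod q) = v := by
      have h2 := mul_right_cancel₀ (inv_ne_zero hs0) huv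
      exact mul_left_cancel₀ h2r h2
    rw [ZMod.natCast_eq_natCast_iff'] at h
    rwa [Nat.mod_eq_of_lt hu.1, Nat.mod_eq_of_lt hv.1] at h
  · intro x hx
    simp only [Set.mem_toFinset, Set.mem_ofPred_eq] at hx
    refine ⟨(x * s * ((2 : ZMod q) ^ P.b * (2 : ZMod q) ^ r)⁻¹).val, ?_, ?_⟩
    · simp only [Om, mem_filter, mem_range]
      refine ⟨ZMod.val_lt _, (hmem _).mpr ?_⟩
      rw [ZMod.natCast_val, ZMod.cast_id', id]
      rw [mul_pow, mul_pow, hx, h4r]
      push_cast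
      have h2b : (2 : ZMod q) ^ P.b ≠ 0 := pow_ne_zero _ h20
      have h2r' : (2 : ZMod q) ^ r ≠ 0 := pow_ne_zero _ h20
      field_simp
      ring
    · rw [ZMod.natCast_val, ZMod.cast_id', id]
      field_simp

end QRAux

theorem qr : QRStmt where
  val := by
    intro q δ
    unfold J
    rcases jacobiSym.trichotomy (-((2 ^ P.b * δ : ℕ) : ℤ)) q with h | h | h
    · right; left; rw [h]; norm_num
    · right; right; rw [h]; norm_num
    · left; rw [h]; norm_num
  kill := by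
    rintro r δ N q hq h5 hJ hN hN2 ⟨s, u, hsu⟩
    have hJ' : jacobiSym (-((2 ^ P.b * δ : ℕ) : ℤ)) q = -1 := by
      unfold J at hJ
      exact_mod_cast hJ
    by_cases hs : q ∣ s
    · have h1 : q ∣ δ * s ^ 2 := (dvd_pow hs two_ne_zero).mul_left δ
      have h0 : q ∣ δ * s ^ 2 + E r * u ^ 2 := hsu ▸ (hN.mul_left P.kp)
      have h2 : q ∣ E r * u ^ 2 := (Nat.dvd_add_right h1).mp h0
      have h3 : q ∣ u := by
        rcases hq.dvd_mul.mp h2 with h | h
        · exact absurd h (QRAux.not_dvd_E hq h5 r)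
        · exact hq.dvd_of_dvd_pow h
      have h4 : q ^ 2 ∣ P.kp * N := by
        rw [hsu]
        exact dvd_add ((pow_dvd_pow_of_dvd hs 2).mul_left δ)
          ((pow_dvd_pow_of_dvd h3 2).mul_left _)
      have hc : Nat.Coprime (q ^ 2) P.kp := by
        apply Nat.Coprime.pow_left
        rcases P.hk with h | h
        · rw [h]; exact Nat.coprime_one_right q
        · rw [h, Nat.coprime_primes hq Nat.prime_three]
          omega
      exact hN2 (hc.dvd_of_dvd_mul_left h4)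
    · have hc := QRAux.om_card r δ s q hq h5 hs
      rw [hJ'] at hc
      have hc0 : (Om r δ s q).card = 0 := by
        have : ((Om r δ s q).card : ℤ) = 0 := by rw [hc]; norm_num
        exact_mod_cast this
      have hmem : u % q ∈ Om r δ s q := by
        simp only [Om, mem_filter, mem_range]
        refine ⟨Nat.mod_lt _ hq.pos, ?_⟩
        have h0 : q ∣ δ * s ^ 2 + E r * u ^ 2 := hsu ▸ (hN.mul_left P.kp)
        have h1 : (δ * s ^ 2 + E r * (u % q) ^ 2) ≡ (δ * s ^ 2 + E r * u ^ 2) [MOD q] :=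
          Nat.ModEq.add_left _ (Nat.ModEq.mul_left _ ((Nat.mod_modEq u q).pow 2))
        exact (h1.dvd_iff dvd_rfl).mpr h0
      rw [Finset.card_eq_zero] at hc0
      rw [hc0] at hmem
      exact absurd hmem (Finset.notMem_empty _)
  om_card := by
    rintro r δ s q hq h5 hs
    have h := QRAux.om_card r δ s q hq h5 hs
    unfold J
    exact_mod_cast h
  om_zero := by
    rintro r δ s q hq h5 hs
    exact QRAux.om_zero r δ s q hq h5 hs

/-- the sign in the reciprocity law -/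
def eps (c δ : ℕ) : ℤ := jacobiSym (-(2 ^ P.b : ℤ)) c * (if c % 4 = 3 ∧ δ % 4 = 3 then -1 else 1)

omit P in
theorem jac_mod8 {q c : ℕ} (hq : q % 2 = 1) (hc : c % 2 = 1) (h : q % 8 = c % 8) (e : ℕ) :
    jacobiSym (-(2 ^ e : ℤ)) q = jacobiSym (-(2 ^ e : ℤ)) c := by
  have hqo : Odd q := Nat.odd_iff.mpr hq
  have hco : Odd c := Nat.odd_iff.mpr hc
  rw [jacobiSym.neg _ hqo, jacobiSym.neg _ hco, jacobiSym.pow_left, jacobiSym.pow_left,
    jacobiSym.at_two hqo, jacobiSym.at_two hco]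
  have h8 : (q : ZMod 8) = (c : ZMod 8) := (ZMod.natCast_eq_natCast_iff' _ _ _).2 h
  have h4 : (q : ZMod 4) = (c : ZMod 4) := (ZMod.natCast_eq_natCast_iff' _ _ _).2 (by omega)
  rw [h8, h4]

/-- the symbol as a Jacobi symbol modulo `δ` -/
theorem J_eq {q c δ : ℕ} (hδ : δ % 2 = 1) (hc : c % 2 = 1) (h : q % 8 = c % 8) :
    J q δ = (eps c δ : ℝ) * Pool.Agent.H307R2.OP.J q δ := by
  have hq : q % 2 = 1 := by omega
  have hqo : Odd q := Nat.odd_iff.mpr hq
  have hδo : Odd δ := Nat.odd_iff.mpr hδ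
  unfold J Pool.Agent.H307R2.OP.J
  rw [← Int.cast_mul]
  congr 1
  have e1 : (-((2 ^ P.b * δ : ℕ) : ℤ)) = (-(2 ^ P.b : ℤ)) * (δ : ℤ) := by push_cast; ring
  rw [e1, jacobiSym.mul_left, jac_mod8 hq hc h P.b]
  unfold eps
  rw [mul_assoc]
  congr 1
  have hc4 : q % 4 = c % 4 := by omega
  split_ifs with h3
  · rw [jacobiSym.quadratic_reciprocity_three_mod_four h3.2 (by omega)]
    ring
  · rw [one_mul]
    rw [not_and_or] at h3
    by_cases h1 : q % 4 = 3
    · have : δ % 4 = 1 := by omega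
      exact (jacobiSym.quadratic_reciprocity_one_mod_four this hqo)
    · have : q % 4 = 1 := by omega
      exact (jacobiSym.quadratic_reciprocity_one_mod_four this hδo).symm

theorem eps_sq {c δ : ℕ} (hc : c % 2 = 1) : eps c δ = 1 ∨ eps c δ = -1 := by
  unfold eps
  have h : jacobiSym (-(2 ^ P.b : ℤ)) c = 1 ∨ jacobiSym (-(2 ^ P.b : ℤ)) c = -1 := by
    apply jacobiSym.eq_one_or_neg_one
    rw [Int.neg_gcd]
    have : Nat.Coprime (2 ^ P.b) c := by
      apply Nat.Coprime.pow_left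
      rw [Nat.coprime_two_left, Nat.odd_iff]
      exact hc
    exact_mod_cast this
  rcases h with h | h <;> rw [h] <;> split_ifs <;> norm_num

theorem c0_cases : (P.b = 0 ∧ c0 = 5) ∨ (P.b = 1 ∧ c0 = 3) := by
  unfold c0
  rcases P.hb with h | h
  · left; exact ⟨h, if_pos h⟩
  · right; exact ⟨h, if_neg (by rw [h]; norm_num)⟩

theorem c1_cases : (P.b = 0 ∧ c1 = 3) ∨ (P.b = 1 ∧ c1 = 5) := by
  unfold c1
  rcases P.hb with h | h
  · left; exact ⟨h, if_pos h⟩
  · right; exact ⟨h, if_neg (by rw [h]; norm_num)⟩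

theorem c0_35 : c0 = 3 ∨ c0 = 5 := by
  rcases c0_cases with h | h
  · right; exact h.2
  · left; exact h.2

theorem c1_35 : c1 = 3 ∨ c1 = 5 := by
  rcases c1_cases with h | h
  · left; exact h.2
  · right; exact h.2

end Pool.Agent.H13.MO
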