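import Pool.Agent.H13.MO.PC
import Pool.Agent.H13.MO.QR
import Pool.Graph.R_seed8.H413R3.OddT.Par

set_option autoImplicit false

/-! Numerical facts on the configuration (adapted from `Pool.Agent.H413R3.OddT.Par`):
`M` blocks of primes in the main class and one more block of primes in the other class -/

namespace Pool.Agent.H13.MO

open Finset Pool.Agent.H307R2.OP
open Pool.Agent.H413R3.OddT (kkT parT_kk_sum parT_k)

variable [P : Prm]

omit P in
/-- the numbers of primes -/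
def kM (M y p n t a j : ℕ) : ℕ := if j < M then kkT M y p n t j else a

/-- the configuration -/
def cfgM (M y p n a I : ℕ) (R : Finset ℕ) : Cfg (M + 1) where
  I := I
  r := rr M y - P.b
  κ := fun j => kap M y j
  k := fun j => kM M y p n R.card a j
  cl := fun j => if (j : ℕ) < M then c0 else c1
  R := R
  c := c0

section

variable {M y : ℕ}

omit P in
lemma parM_kap (j : ℕ) (hj : j ≤ M) (hy : 1 ≤ y) : y ^ 2 ≤ kap M y j ∧
    kap M y j ≤ y ^ (2 * M + 2) ∧ kap M y j * y ^ (2 * j + 1) = y ^ (2 * M + 3) := by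
  refine ⟨Nat.pow_le_pow_right hy (by omega), Nat.pow_le_pow_right hy (by omega), ?_⟩
  rw [kap, ← pow_add]
  congr 1
  omega

omit P in
lemma parM_kk (hM : 2 ≤ M) (p n K : ℕ) (hy : 64 ≤ y) (hyK : 64 * (p + n + K + 1) ≤ y)
    (hMy : 16 * M ≤ y ^ 2) (t : ℕ) (ht : t ≤ K) (a : ℕ) (ha : a ≤ 4 * y ^ (2 * M - 1)) (j : ℕ)
    (hj : j ≤ M) : kap M y j * kM M y p n t a j ≤ y ^ (2 * M + 3) := by
  unfold kM
  split_ifs with h
  · rw [← (parM_kap j hj (by omega : 1 ≤ y)).2.2]
    exact Nat.mul_le_mul_left _ (parT_k hM p n K hy hyK hMy t ht j h).2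
  · have hjM : j = M := by omega
    subst hjM
    have e1 : kap j y j = y ^ 2 := by
      unfold kap
      congr 1
      omega
    rw [e1]
    calc y ^ 2 * a ≤ y ^ 2 * (4 * y ^ (2 * j - 1)) := Nat.mul_le_mul_left _ ha
      _ ≤ y ^ 2 * (y ^ 2 * y ^ (2 * j - 1)) := by
          apply Nat.mul_le_mul_left
          apply Nat.mul_le_mul_right
          nlinarith
      _ = y ^ (2 * j + 3) := by
          rw [← pow_add, ← pow_add]
          congr 1
          omega

lemma parM_Q (hM : 2 ≤ M) (p n K : ℕ) (hy : 64 ≤ y) (hyK : 64 * (p + n + K + 1) ≤ y)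
    (hMy : 32 * (M + 1) ≤ y) {I : ℕ} (hI : y ^ (2 * M + 4) ≤ I) (a : ℕ)
    (ha : a ≤ 4 * y ^ (2 * M - 1))
    (R : Finset ℕ) (hR : R.card ≤ K) (A : Fin (M + 1) → Finset ℕ)
    (hA : A ∈ (cfgM M y p n a I R).Fam) : (cfgM M y p n a I R).Q A ≤ 2 ^ (I / 16) := by
  have h16 : 16 * M ≤ y ^ 2 := by nlinarith
  have hA' : ∀ j, A j ⊆ (cfgM M y p n a I R).Blk j ∧ (A j).card = kM M y p n R.card a j := by
    intro j
    have := (Fintype.mem_piFinset.1 hA) j
    rw [Finset.mem_powersetCard] at this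
    exact this
  have h1 : ∀ j : Fin (M + 1), ∏ q ∈ A j, q ≤ 2 ^ (2 * y ^ (2 * M + 3)) := by
    intro j
    have hj : (j : ℕ) ≤ M := Nat.lt_succ_iff.1 j.2
    obtain ⟨k1, k2, k3⟩ := @parM_kap M y j hj (by omega)
    have k4 := parM_kk hM p n K hy hyK h16 R.card hR a ha j hj
    have h2 : ∏ q ∈ A j, q ≤ (2 ^ (kap M y j + 1)) ^ (A j).card := by
      rw [← Finset.prod_const]
      apply Finset.prod_le_prod (fun _ _ => Nat.zero_le _)
      intro q hq
      have h3 := (hA' j).1 hq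
      rw [Cfg.Blk, Finset.mem_sdiff, PB, Finset.mem_filter, Finset.mem_Ioc] at h3
      exact h3.1.1.2
    refine h2.trans ?_
    rw [(hA' j).2, ← pow_mul]
    apply Nat.pow_le_pow_right (by norm_num)
    have h5 : 1 ≤ kap M y j := le_trans (Nat.one_le_pow _ _ (by omega)) k1
    calc (kap M y j + 1) * kM M y p n R.card a j ≤ (2 * kap M y j) * kM M y p n R.card a j :=
          Nat.mul_le_mul (by omega) le_rfl
      _ = 2 * (kap M y j * kM M y p n R.card a j) := by ring
      _ ≤ _ := Nat.mul_le_mul_left _ k4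
  calc (cfgM M y p n a I R).Q A = ∏ j, ∏ q ∈ A j, q := rfl
    _ ≤ ∏ j : Fin (M + 1), 2 ^ (2 * y ^ (2 * M + 3)) :=
        Finset.prod_le_prod (fun _ _ => Nat.zero_le _) (fun j _ => h1 j)
    _ = 2 ^ (2 * y ^ (2 * M + 3) * (M + 1)) := by
        rw [Finset.prod_const, Finset.card_univ, Fintype.card_fin, ← pow_mul]
    _ ≤ 2 ^ (I / 16) := by
        apply Nat.pow_le_pow_right (by norm_num)
        rw [Nat.le_div_iff_mul_le (by norm_num)]
        calc 2 * y ^ (2 * M + 3) * (M + 1) * 16 = (32 * (M + 1)) * y ^ (2 * M + 3) := by ring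
          _ ≤ y * y ^ (2 * M + 3) := Nat.mul_le_mul_right _ hMy
          _ = y ^ (2 * M + 4) := by rw [← pow_succ']
          _ ≤ I := hI

omit P in
/-- lower bound for the mass of a block without the killing primes -/
lemma parM_S {c i0 : ℕ}
    (hm : ∀ i : ℕ, i0 ≤ i → 1 / (6 * (i : ℝ)) ≤ ∑ p ∈ PB i c, (1 : ℝ) / p)
    (K i : ℕ) (hi : i0 ≤ i) (hi2 : 1 ≤ i) (he : 24 * K * i ≤ 2 ^ i) (R : Finset ℕ)
    (hR : R.card ≤ K) :
    1 / (8 * (i : ℝ)) ≤ ∑ p ∈ PB i c \ R, (1 : ℝ) / p := by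
  have h1 := hm i hi
  have h2 : ∑ p ∈ PB i c, (1 : ℝ) / p = ∑ p ∈ PB i c \ R, (1 : ℝ) / p +
      ∑ p ∈ PB i c ∩ R, (1 : ℝ) / p := by
    rw [add_comm, Finset.sum_inter_add_sum_sdiff]
  have h3 : ∑ p ∈ PB i c ∩ R, (1 : ℝ) / p ≤ K / 2 ^ i := by
    calc ∑ p ∈ PB i c ∩ R, (1 : ℝ) / p ≤ ∑ p ∈ PB i c ∩ R, 1 / 2 ^ i := by
          apply Finset.sum_le_sum
          intro p hp
          rw [Finset.mem_inter, PB, Finset.mem_filter, Finset.mem_Ioc] at hp
          have : (2 ^ i : ℝ) ≤ p := by exact_mod_cast hp.1.1.1.le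
          exact one_div_le_one_div_of_le (by positivity) this
      _ = ((PB i c ∩ R).card : ℝ) * (1 / 2 ^ i) := by rw [Finset.sum_const, nsmul_eq_mul]
      _ ≤ K * (1 / 2 ^ i) := by
          apply mul_le_mul_of_nonneg_right _ (by positivity)
          have : (PB i c ∩ R).card ≤ K := (Finset.card_le_card Finset.inter_subset_right).trans hR
          exact_mod_cast this
      _ = K / 2 ^ i := by ring
  have h4 : (24 * (K : ℝ) * (i : ℝ)) ≤ 2 ^ i := by exact_mod_cast he
  have hi0 : (0 : ℝ) < i := by exact_mod_cast hi2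
  have h5 : (K : ℝ) / 2 ^ i ≤ 1 / (24 * i) := by
    rw [div_le_div_iff₀ (by positivity) (by positivity)]
    linarith
  have h6 : 1 / (6 * (i : ℝ)) - 1 / (24 * i) = 1 / (8 * (i : ℝ)) := by
    field_simp; norm_num
  linarith

end

theorem parM (h : PC2) : ∀ M p n K : ℕ, 2 ≤ M → ∃ y0 : ℕ, ∀ y : ℕ, y0 ≤ y → ∀ I : ℕ,
  y ^ (2 * M + 4) ≤ I → I ≤ 2 * y ^ (2 * M + 4) → ∀ (R : Finset ℕ) (a : ℕ), R.card ≤ K →
  (∀ q ∈ R, q.Prime ∧ 5 ≤ q ∧ q % 8 = c0) → ∏ q ∈ R, q ≤ 2 ^ (I / 16) →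
  a ≤ 4 * y ^ (2 * M - 1) →
  (cfgM M y p n a I R).Ok ∧
  ∑ j : Fin M, kkT M y p n R.card j + R.card + 1 + n = 2 ^ (rr M y - 1) + p ∧
  2 ^ (rr M y - 1) ≤ y ^ (2 * M - 1) ∧ y ^ (2 * M - 1) < 2 ^ (rr M y) ∧
  (∀ j : Fin M, (y : ℝ) ^ (2 * (j : ℕ) + 1) / 4 ≤ kkT M y p n R.card j ∧
    ((kkT M y p n R.card j : ℕ) : ℝ) ≤ (y : ℝ) ^ (2 * (j : ℕ) + 1)) ∧
  (∀ j : Fin (M + 1), 1 / (8 * (kap M y j : ℝ)) ≤ (cfgM M y p n a I R).S j) ∧
  (∀ j : Fin (M + 1), y ≤ kap M y j ∧ kap M y j ≤ I) ∧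
  (∀ j : Fin (M + 1), 2 * ((cfgM M y p n a I R).k j : ℝ) ^ 2 ≤
    2 ^ (kap M y j) * (cfgM M y p n a I R).S j) ∧
  (∏ j, (((cfgM M y p n a I R).S j + 1 / (I : ℝ) ^ 2 + R.card / 2 ^ (kap M y j)) ^
      (cfgM M y p n a I R).k j / (((cfgM M y p n a I R).k j).factorial : ℝ)) ≤
    Real.exp (M + 1) * (cfgM M y p n a I R).W) ∧
  1 / (2 : ℝ) ^ (I / 100) ≤ (cfgM M y p n a I R).W := by
  intro M p n K hM
  obtain ⟨i0, hm⟩ := h.mass
  obtain ⟨y1, hy1⟩ := par_ev M
  refine ⟨max y1 (max i0 (max 1000 (32 * (M + 1)))) + 64 * (p + n + K + 1), ?_⟩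
  intro y hy' I hI1 hI2 R a hR hRp hRle ha
  have hy : max y1 (max i0 (max 1000 (32 * (M + 1)))) ≤ y := by omega
  have hyK : 64 * (p + n + K + 1) ≤ y := by omega
  have a1 : y1 ≤ y := (le_max_left _ _).trans hy
  have a2 : i0 ≤ y := ((le_max_left _ _).trans (le_max_right _ _)).trans hy
  have a3 : 1000 ≤ y :=
    ((le_max_left _ _).trans ((le_max_right _ _).trans (le_max_right _ _))).trans hy
  have a4 : 32 * (M + 1) ≤ y :=
    ((le_max_right _ _).trans ((le_max_right _ _).trans (le_max_right _ _))).trans hy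
  have h16 : 16 * M ≤ y ^ 2 := by nlinarith
  have E := hy1 y a1
  have hy0 : 1 ≤ y := by omega
  have hyR : (1000 : ℝ) ≤ y := by exact_mod_cast a3
  have T1 := @par_T1 M y hy0
  have T2 := @par_T2 M y
  have Ksum := parT_kk_sum hM p n K (by omega) hyK h16 R.card hR
  have Kk := parT_k hM p n K (by omega : 64 ≤ y) hyK h16 R.card hR
  -- powers
  have p1 : ∀ a b : ℕ, a ≤ b → y ^ a ≤ y ^ b := fun a b hab => Nat.pow_le_pow_right hy0 hab
  have p2 : ∀ a : ℕ, a ≤ 8 * M + 20 → 2 ^ 20 * y ^ a ≤ 2 ^ y := by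
    intro a ha
    calc 2 ^ 20 * y ^ a ≤ 2 ^ 20 * (M + 1) ^ 2 * y ^ (8 * M + 20) := by
          apply Nat.mul_le_mul _ (p1 _ _ ha)
          exact Nat.le_mul_of_pos_right _ (by positivity)
      _ ≤ 2 ^ y := E
  have hjM : ∀ j : Fin (M + 1), (j : ℕ) ≤ M := fun j => Nat.lt_succ_iff.1 j.2
  have kap1 := fun j : Fin (M + 1) => @parM_kap M y j (hjM j) hy0
  have kapy : ∀ j : Fin (M + 1), y ≤ kap M y j := fun j => by
    have := p1 1 2 (by norm_num)
    rw [pow_one] at this
    exact this.trans (kap1 j).1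
  have k2y : ∀ j : Fin (M + 1), 2 ^ y ≤ 2 ^ (kap M y j) := fun j =>
    Nat.pow_le_pow_right (by norm_num) (kapy j)
  have kkap : ∀ j : Fin (M + 1), kap M y j * kM M y p n R.card a j ≤ y ^ (2 * M + 3) := fun j =>
    parM_kk hM p n K (by omega) hyK h16 R.card hR a ha j (hjM j)
  have kapI : ∀ j : Fin (M + 1), kap M y j ≤ I := fun j =>
    ((kap1 j).2.1.trans (p1 _ _ (by omega))).trans hI1
  set g := cfgM M y p n a I R with hg
  have hcl : ∀ j : Fin (M + 1), g.cl j = 3 ∨ g.cl j = 5 := by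
    intro j
    show (if (j : ℕ) < M then c0 else c1) = 3 ∨ (if (j : ℕ) < M then c0 else c1) = 5
    split_ifs
    · exact c0_35
    · exact c1_35
  have hS : ∀ j : Fin (M + 1), 1 / (8 * (kap M y j : ℝ)) ≤ g.S j := by
    intro j
    apply parM_S (fun i hi => hm i hi (g.cl j) (hcl j)) K (kap M y j) (a2.trans (kapy j))
      (hy0.trans (kapy j)) _ R hR
    calc 24 * K * kap M y j ≤ y * y ^ (2 * M + 2) := Nat.mul_le_mul (by omega) (kap1 j).2.1
      _ = y ^ (2 * M + 3) := by rw [← pow_succ']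
      _ ≤ 2 ^ 20 * y ^ (2 * M + 3) := Nat.le_mul_of_pos_left _ (by norm_num)
      _ ≤ 2 ^ y := p2 _ (by omega)
      _ ≤ _ := k2y j
  have kap0 : ∀ j : Fin (M + 1), (0 : ℝ) < kap M y j := fun j => by
    exact_mod_cast (hy0.trans (kapy j))
  have S0 : ∀ j : Fin (M + 1), 0 < g.S j := fun j =>
    lt_of_lt_of_le (by have := kap0 j; positivity) (hS j)
  -- Ok
  have ok : g.Ok := by
    refine ⟨?_, ?_, ?_, ?_, ?_, ?_, hcl, ?_, c0_35⟩
    · intro i j hij
      have h1 : y ^ (2 * M + 2 - 2 * (i : ℕ)) = y ^ (2 * M + 2 - 2 * (j : ℕ)) := hij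
      have h2 := Nat.pow_right_injective (by omega : 2 ≤ y) h1
      have := hjM i
      have := hjM j
      apply Fin.ext
      omega
    · show 3 ≤ rr M y - P.b
      rw [rr]
      have h1 : 8 ≤ y ^ (2 * M - 1) := by
        have := p1 1 (2 * M - 1) (by omega)
        rw [pow_one] at this
        omega
      have : 3 ≤ Nat.log 2 (y ^ (2 * M - 1)) := by
        rw [Nat.le_log_iff_pow_le (by norm_num) (by positivity)]
        omega
      rcases P.hb with hb | hb <;> omega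
    · show 100 * (rr M y - P.b) ≤ I
      rw [rr]
      have h1 : Nat.log 2 (y ^ (2 * M - 1)) ≤ y ^ (2 * M - 1) := Nat.log_le_self _ _
      have h2 : 200 * y ^ (2 * M - 1) ≤ y ^ (2 * M + 4) := by
        calc 200 * y ^ (2 * M - 1) ≤ y ^ 5 * y ^ (2 * M - 1) := by
              apply Nat.mul_le_mul_right
              calc 200 ≤ y := by omega
                _ = y ^ 1 := (pow_one y).symm
                _ ≤ y ^ 5 := p1 _ _ (by norm_num)
          _ = y ^ (2 * M + 4) := by rw [← pow_add]; congr 1; omega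
      have h3 : 1 ≤ y ^ (2 * M - 1) := Nat.one_le_pow _ _ (by omega)
      omega
    · show 800 ≤ I
      have := p1 1 (2 * M + 4) (by omega)
      rw [pow_one] at this
      omega
    · intro q hq
      obtain ⟨h1, h2, h3⟩ := hRp q hq
      refine ⟨h1, h2, ?_⟩
      rw [h3]
      exact c0_35
    · intro j
      show 3 ≤ kap M y j
      have := kapy j
      omega
    · intro A hA
      have h1 := parM_Q hM p n K (by omega) hyK a4 hI1 a ha R hR A hA
      have h2 : g.Rp ≤ 2 ^ (I / 16) := hRle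
      calc g.Rp * g.Q A ≤ 2 ^ (I / 16) * 2 ^ (I / 16) := Nat.mul_le_mul h2 h1
        _ = 2 ^ (I / 16 + I / 16) := by rw [← pow_add]
        _ ≤ 2 ^ (I / 8) := Nat.pow_le_pow_right (by norm_num) (by omega)
  -- real versions
  have kkR : ∀ j : Fin (M + 1), (kap M y j : ℝ) * (kM M y p n R.card a j : ℝ) ≤ (y : ℝ) ^ (2 * M + 3) :=
    fun j => by exact_mod_cast kkap j
  have hIR : (y : ℝ) ^ (2 * M + 4) ≤ I := by exact_mod_cast hI1
  have p2R : ∀ a : ℕ, a ≤ 8 * M + 20 → (2 : ℝ) ^ 20 * (y : ℝ) ^ a ≤ 2 ^ y := fun a ha => by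
    exact_mod_cast p2 a ha
  have k2yR : ∀ j : Fin (M + 1), (2 : ℝ) ^ y ≤ 2 ^ (kap M y j) := fun j => by exact_mod_cast k2y j
  refine ⟨ok, Ksum.1, T1, T2, ?_, hS, fun j => ⟨kapy j, kapI j⟩, ?_, ?_, ?_⟩
  · intro j
    have h1 := Kk j j.2
    have h2 : (y : ℝ) ^ (2 * (j : ℕ) + 1) ≤ 4 * (kkT M y p n R.card j : ℝ) := by exact_mod_cast h1.1
    have h3 : (kkT M y p n R.card j : ℝ) ≤ (y : ℝ) ^ (2 * (j : ℕ) + 1) := by exact_mod_cast h1.2
    refine ⟨?_, h3⟩
    linarith
  · intro j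
    show 2 * (kM M y p n R.card a j : ℝ) ^ 2 ≤ 2 ^ (kap M y j) * g.S j
    have h1 : 2 * (kM M y p n R.card a j : ℝ) ^ 2 * (8 * (kap M y j : ℝ)) ≤ 2 ^ (kap M y j) := by
      have h2 : (kM M y p n R.card a j : ℝ) ≤ (y : ℝ) ^ (2 * M + 3) := by
        have h3 : kM M y p n R.card a j ≤ y ^ (2 * M + 3) :=
          (Nat.le_mul_of_pos_left _ (hy0.trans (kapy j))).trans (kkap j)
        exact_mod_cast h3
      have h0 : (0 : ℝ) ≤ kM M y p n R.card a j := Nat.cast_nonneg _
      calc 2 * (kM M y p n R.card a j : ℝ) ^ 2 * (8 * (kap M y j : ℝ))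
          = 16 * (kM M y p n R.card a j : ℝ) * ((kap M y j : ℝ) * (kM M y p n R.card a j : ℝ)) := by ring
        _ ≤ 16 * (y : ℝ) ^ (2 * M + 3) * (y : ℝ) ^ (2 * M + 3) := by
            apply mul_le_mul (by linarith) (kkR j)
            · have := (kap0 j).le; positivity
            · positivity
        _ = 16 * (y : ℝ) ^ (4 * M + 6) := by ring
        _ ≤ 2 ^ 20 * (y : ℝ) ^ (4 * M + 6) := by
            apply mul_le_mul_of_nonneg_right (by norm_num) (by positivity)
        _ ≤ 2 ^ y := p2R _ (by omega)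
        _ ≤ _ := k2yR j
    have hk := kap0 j
    calc 2 * (kM M y p n R.card a j : ℝ) ^ 2
        = (2 * (kM M y p n R.card a j : ℝ) ^ 2 * (8 * (kap M y j : ℝ))) * (1 / (8 * (kap M y j : ℝ))) := by
          field_simp
      _ ≤ 2 ^ (kap M y j) * g.S j := mul_le_mul h1 (hS j) (by positivity) (by positivity)
  · show ∏ j, ((g.S j + 1 / (I : ℝ) ^ 2 + R.card / 2 ^ (kap M y j)) ^
      g.k j / ((g.k j).factorial : ℝ)) ≤ Real.exp (M + 1) * g.W
    have h1 : ∀ j : Fin (M + 1), (g.S j + 1 / (I : ℝ) ^ 2 + R.card / 2 ^ (kap M y j)) ^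
      g.k j / ((g.k j).factorial : ℝ) ≤ Real.exp 1 * (g.S j ^ g.k j / ((g.k j).factorial : ℝ)) := by
      intro j
      have hk := kap0 j
      have hkk0 : (0 : ℝ) ≤ kM M y p n R.card a j := Nat.cast_nonneg _
      have hI0 : (0 : ℝ) < I := by
        have : (0 : ℝ) < (y : ℝ) ^ (2 * M + 4) := by positivity
        linarith
      have hR2 : (R.card : ℝ) ≤ K := by exact_mod_cast hR
      have hKy : (64 : ℝ) * K ≤ y := by
        have : 64 * K ≤ y := by omega
        exact_mod_cast this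
      have hK0 : (0 : ℝ) ≤ K := Nat.cast_nonneg _
      have e1 : (kM M y p n R.card a j : ℝ) * (1 / (I : ℝ) ^ 2) ≤ 1 / 2 * (1 / (8 * (kap M y j : ℝ))) := by
        rw [mul_one_div, one_div_mul_one_div, div_le_div_iff₀ (by positivity) (by positivity)]
        have e2 : (y : ℝ) ^ (2 * M + 3) * 16 ≤ I ^ 2 := by
          calc (y : ℝ) ^ (2 * M + 3) * 16 ≤ (y : ℝ) ^ (2 * M + 3) * y := by
                apply mul_le_mul_of_nonneg_left (by linarith) (by positivity)
            _ = (y : ℝ) ^ (2 * M + 4) := by ring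
            _ ≤ I := hIR
            _ ≤ I ^ 2 := by
                have : (1 : ℝ) ≤ I := le_trans (one_le_pow₀ (by linarith)) hIR
                nlinarith
        have := kkR j
        nlinarith
      have e3 : (kM M y p n R.card a j : ℝ) * (R.card / 2 ^ (kap M y j)) ≤
          1 / 2 * (1 / (8 * (kap M y j : ℝ))) := by
        rw [one_div_mul_one_div, ← mul_div_assoc, div_le_div_iff₀ (by positivity) (by positivity)]
        have e4 : (y : ℝ) ^ (2 * M + 3) * (16 * K) ≤ 2 ^ (kap M y j) := by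
          calc (y : ℝ) ^ (2 * M + 3) * (16 * K) ≤ (y : ℝ) ^ (2 * M + 3) * y := by
                apply mul_le_mul_of_nonneg_left _ (by positivity)
                linarith
            _ = (y : ℝ) ^ (2 * M + 4) := by ring
            _ ≤ 2 ^ 20 * (y : ℝ) ^ (2 * M + 4) := by
                have : (0 : ℝ) ≤ (y : ℝ) ^ (2 * M + 4) := by positivity
                nlinarith
            _ ≤ 2 ^ y := p2R _ (by omega)
            _ ≤ _ := k2yR j
        have := kkR j
        calc (kM M y p n R.card a j : ℝ) * R.card * (2 * (8 * (kap M y j : ℝ)))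
            ≤ (kM M y p n R.card a j : ℝ) * K * (2 * (8 * (kap M y j : ℝ))) := by gcongr
          _ = ((kap M y j : ℝ) * (kM M y p n R.card a j : ℝ)) * (16 * K) := by ring
          _ ≤ (y : ℝ) ^ (2 * M + 3) * (16 * K) := by gcongr
          _ ≤ 2 ^ (kap M y j) := e4
          _ = 1 * 2 ^ (kap M y j) := by ring
      have e5 : ((g.k j : ℕ) : ℝ) * (1 / (I : ℝ) ^ 2 + R.card / 2 ^ (kap M y j)) ≤ g.S j := by
        show (kM M y p n R.card a j : ℝ) * (1 / (I : ℝ) ^ 2 + R.card / 2 ^ (kap M y j)) ≤ g.S j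
        have := hS j
        rw [mul_add]
        linarith
      have e6 := par_factor (S0 j) (by positivity) e5
      rw [add_assoc, ← mul_div_assoc]
      exact div_le_div_of_nonneg_right e6 (by positivity)
    calc _ ≤ ∏ j : Fin (M + 1), Real.exp 1 * (g.S j ^ g.k j / ((g.k j).factorial : ℝ)) := by
          apply Finset.prod_le_prod _ (fun j _ => h1 j)
          intro j _
          have := S0 j
          positivity
      _ = Real.exp (M + 1) * g.W := by
          rw [Finset.prod_mul_distrib, Finset.prod_const, Finset.card_univ, Fintype.card_fin,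
            ← Real.exp_nat_mul, mul_one, Cfg.W]
          push_cast
          rfl
  · have h1 : ∀ j : Fin (M + 1), ((2 : ℝ) ^ y)⁻¹ ^ (kM M y p n R.card a j) ≤
        g.S j ^ g.k j / ((g.k j).factorial : ℝ) := by
      intro j
      show ((2 : ℝ) ^ y)⁻¹ ^ (kM M y p n R.card a j) ≤
        g.S j ^ (kM M y p n R.card a j) / ((kM M y p n R.card a j).factorial : ℝ)
      have hk := kap0 j
      have hkR := kkR j
      generalize kM M y p n R.card a j = kk at *
      rcases Nat.eq_zero_or_pos kk with h0 | hpos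
      · subst h0
        norm_num
      have hkk : (0 : ℝ) < kk := by exact_mod_cast hpos
      have e1 : ((2 : ℝ) ^ y)⁻¹ ≤ g.S j / kk := by
        rw [le_div_iff₀ hkk]
        refine le_trans ?_ (hS j)
        rw [inv_mul_le_iff₀ (by positivity), mul_one_div, le_div_iff₀ (by positivity)]
        calc (kk : ℝ) * (8 * (kap M y j : ℝ))
            = 8 * ((kap M y j : ℝ) * (kk : ℝ)) := by ring
          _ ≤ 8 * (y : ℝ) ^ (2 * M + 3) := by linarith
          _ ≤ 2 ^ 20 * (y : ℝ) ^ (2 * M + 3) := by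
              apply mul_le_mul_of_nonneg_right (by norm_num) (by positivity)
          _ ≤ 2 ^ y := p2R _ (by omega)
      have e2 : (kk.factorial : ℝ) ≤ (kk : ℝ) ^ kk := by
        exact_mod_cast Nat.factorial_le_pow _
      calc ((2 : ℝ) ^ y)⁻¹ ^ kk ≤ (g.S j / kk) ^ kk :=
            pow_le_pow_left₀ (by positivity) e1 _
        _ = g.S j ^ kk / (kk : ℝ) ^ kk := div_pow _ _ _
        _ ≤ _ := by
            apply div_le_div_of_nonneg_left _ (by positivity) e2
            have := (S0 j).le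
            positivity
    have h2 : ∏ j : Fin (M + 1), ((2 : ℝ) ^ y)⁻¹ ^ (kM M y p n R.card a j) ≤ g.W := by
      rw [Cfg.W]
      exact Finset.prod_le_prod (fun j _ => by positivity) (fun j _ => h1 j)
    refine le_trans ?_ h2
    rw [Finset.prod_pow_eq_pow_sum, inv_pow, ← one_div, ← pow_mul]
    apply one_div_le_one_div_of_le (by positivity)
    apply pow_le_pow_right₀ (by norm_num)
    have e1 : ∑ j : Fin (M + 1), kM M y p n R.card a j ≤ 6 * y ^ (2 * M - 1) := by
      have := Ksum.1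
      have h9 := p1 1 (2 * M - 1) (by omega)
      rw [pow_one] at h9
      rw [Fin.sum_univ_castSucc]
      have e2 : ∑ j : Fin M, kM M y p n R.card a (Fin.castSucc j : Fin (M + 1)) =
          ∑ j : Fin M, kkT M y p n R.card j := by
        refine Finset.sum_congr rfl fun j _ => ?_
        unfold kM
        rw [if_pos (by simp)]
        simp
      have e3 : kM M y p n R.card a (Fin.last M : Fin (M + 1)) = a := by
        unfold kM
        rw [if_neg (by simp)]
      rw [e2, e3]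
      omega
    rw [Nat.le_div_iff_mul_le (by norm_num)]
    calc y * (∑ j : Fin (M + 1), kM M y p n R.card a j) * 100
        ≤ y * (6 * y ^ (2 * M - 1)) * 100 := by gcongr
      _ = y ^ (2 * M) * 600 := by
          have : y * y ^ (2 * M - 1) = y ^ (2 * M) := by rw [← pow_succ']; congr 1; omega
          rw [← this]; ring
      _ ≤ y ^ (2 * M) * y ^ 4 := by
          apply Nat.mul_le_mul_left
          calc 600 ≤ y := by omega
            _ = y ^ 1 := (pow_one y).symm
            _ ≤ y ^ 4 := p1 _ _ (by norm_num)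
      _ = y ^ (2 * M + 4) := by rw [← pow_add]
      _ ≤ I := hI1

end Pool.Agent.H13.MO
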