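import Pool.Graph.R_seed8.H413R3.Odd.BTU
import Pool.Agent.H13.MO.Par
import Pool.Agent.H13.MO.T0

set_option autoImplicit false

/-! The tuples that are lost (adapted from `Pool.Agent.H413R3.OddL.Btu`) -/

namespace Pool.Agent.H13.MO

open Finset Filter Topology
open Pool.Agent.H307R2.OP
open Pool.Agent.H307R2.OP.BT (ev_pow prod_odd small_num zero_num large_num last_level)
open Pool.Agent.H413R3.Odd (ev_exp2)
open Pool.Agent.H413R3.OddT (kkT)

variable [P : Prm]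

theorem theta_condM {M : ℕ} (g : Cfg M) (K : ℕ) (j : Fin M) (δ : ℕ) (hclj : g.cl j = c0)
    (hR : g.R.card ≤ K)
    (hκ : 15 ≤ g.κ j) (hpw : 640 * K * g.κ j ≤ 2 ^ (g.κ j)) (hS : 1 / (8 * (g.κ j : ℝ)) ≤ g.S j) (hst : ¬ StrongAt (g.κ j) δ) :
    ∑ q ∈ (g.Blk j).filter (fun q => J q δ ≠ -1), (1 : ℝ) / q ≤ (1 - 1 / 80) * g.S j := by
  classical
  have hκ0 : (0 : ℝ) < g.κ j := by exact_mod_cast (by omega : 0 < g.κ j)
  have hsub : g.Blk j ⊆ PB (g.κ j) c0 := by
    rw [← hclj]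
    exact Finset.sdiff_subset
  have hSPB : g.S j ≤ ∑ p ∈ PB (g.κ j) c0, (1 : ℝ) / p := by
    unfold Cfg.S
    exact Finset.sum_le_sum_of_subset_of_nonneg hsub (fun _ _ _ => by positivity)
  unfold StrongAt at hst
  push Not at hst
  -- the split primes lost with `R`
  have hlost : ∑ p ∈ (PB (g.κ j) c0).filter (fun p => J p δ = -1), (1 : ℝ) / p ≤
      ∑ p ∈ (g.Blk j).filter (fun p => J p δ = -1), (1 : ℝ) / p + K / 2 ^ (g.κ j) := by
    have h1 : (PB (g.κ j) c0).filter (fun p => J p δ = -1) ⊆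
        (g.Blk j).filter (fun p => J p δ = -1) ∪ (PB (g.κ j) c0 ∩ g.R) := by
      intro p hp
      rw [Finset.mem_filter] at hp
      rw [Finset.mem_union, Finset.mem_filter, Finset.mem_inter]
      by_cases hpR : p ∈ g.R
      · exact Or.inr ⟨hp.1, hpR⟩
      · exact Or.inl ⟨Finset.mem_sdiff.2 ⟨by rw [hclj]; exact hp.1, hpR⟩, hp.2⟩
    have h2 : ∑ p ∈ PB (g.κ j) c0 ∩ g.R, (1 : ℝ) / p ≤ K / 2 ^ (g.κ j) := by
      calc ∑ p ∈ PB (g.κ j) c0 ∩ g.R, (1 : ℝ) / p
          ≤ ∑ p ∈ PB (g.κ j) c0 ∩ g.R, (1 : ℝ) / 2 ^ (g.κ j) := by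
            refine Finset.sum_le_sum fun p hp => ?_
            have h3 := (Finset.mem_inter.1 hp).1
            unfold PB at h3
            have h4 := (Finset.mem_Ioc.1 (Finset.mem_filter.1 h3).1).1
            have h5 : (2 : ℝ) ^ (g.κ j) ≤ p := by exact_mod_cast h4.le
            exact one_div_le_one_div_of_le (by positivity) h5
        _ = ((PB (g.κ j) c0 ∩ g.R).card : ℝ) * (1 / 2 ^ (g.κ j)) := by
            rw [Finset.sum_const, nsmul_eq_mul]
        _ ≤ K * (1 / 2 ^ (g.κ j)) := by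
            have : ((PB (g.κ j) c0 ∩ g.R).card : ℝ) ≤ K := by
              exact_mod_cast (Finset.card_le_card Finset.inter_subset_right).trans hR
            gcongr
        _ = K / 2 ^ (g.κ j) := by ring
    calc ∑ p ∈ (PB (g.κ j) c0).filter (fun p => J p δ = -1), (1 : ℝ) / p
        ≤ ∑ p ∈ (g.Blk j).filter (fun p => J p δ = -1) ∪ (PB (g.κ j) c0 ∩ g.R), (1 : ℝ) / p :=
          Finset.sum_le_sum_of_subset_of_nonneg h1 (fun _ _ _ => by positivity)
      _ ≤ ∑ p ∈ (g.Blk j).filter (fun p => J p δ = -1), (1 : ℝ) / p +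
            ∑ p ∈ PB (g.κ j) c0 ∩ g.R, (1 : ℝ) / p := by
          have := Finset.sum_union_inter (s₁ := (g.Blk j).filter (fun p => J p δ = -1))
            (s₂ := PB (g.κ j) c0 ∩ g.R) (f := fun p : ℕ => (1 : ℝ) / p)
          have h0 : 0 ≤ ∑ p ∈ (g.Blk j).filter (fun p => J p δ = -1) ∩ (PB (g.κ j) c0 ∩ g.R),
              (1 : ℝ) / p := Finset.sum_nonneg (fun _ _ => by positivity)
          linarith
      _ ≤ _ := by linarith
  have hsplit : ∑ q ∈ (g.Blk j).filter (fun q => J q δ = -1), (1 : ℝ) / q +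
      ∑ q ∈ (g.Blk j).filter (fun q => J q δ ≠ -1), (1 : ℝ) / q = g.S j := by
    unfold Cfg.S
    exact Finset.sum_filter_add_sum_filter_not _ _ _
  have hpow : (640 : ℝ) * K * g.κ j ≤ 2 ^ (g.κ j) := by exact_mod_cast hpw
  have h6 : (K : ℝ) / 2 ^ (g.κ j) ≤ 1 / 80 * (1 / (8 * (g.κ j : ℝ))) := by
    rw [div_mul_div_comm, div_le_div_iff₀ (by positivity) (by positivity)]
    nlinarith
  nlinarith

theorem rep_le {r δ N : ℕ} (hr : 1 ≤ r) (hδ : AdmL δ) (hN : N % 2 = 1) (I : ℕ) (hNI : N ≤ 2 ^ I)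
    (h : Rep r δ N) : δ ∈ Icc 1 (3 * 2 ^ I) := by
  obtain ⟨s, u, hsu⟩ := h
  have h1 : 1 ≤ δ := by
    have := hδ.1
    omega
  rw [Finset.mem_Icc]
  refine ⟨h1, ?_⟩
  have hs : s ≠ 0 := by
    rintro rfl
    have h5 : (E r * u ^ 2) % 2 = 0 := Nat.mod_eq_zero_of_dvd ((E_even hr).mul_right _)
    have h6 : (Prm.kp * N) % 2 = 1 := by
      rw [Nat.mul_mod, kp_odd, hN]
    have : δ * 0 ^ 2 = 0 := by simp
    rw [this] at hsu
    omega
  have hs2 : 1 ≤ s ^ 2 := Nat.one_le_pow _ _ (Nat.pos_of_ne_zero hs)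
  calc δ ≤ δ * s ^ 2 := Nat.le_mul_of_pos_right _ hs2
    _ ≤ Prm.kp * N := by rw [hsu]; exact Nat.le_add_right _ _
    _ ≤ 3 * 2 ^ I := Nat.mul_le_mul kp_le hNI

open Classical in
/-- the tuples that are lost, with a factor `y ^ (4 M - 3)` to spare -/
theorem badTotalM (h1 : QRStmt) (h2 : TupStmt) (h4 : TupLarge) (h5 : TupSmall)
    (h7 : BadSum) (h8 : BadNum) (h9 : StrongBad) (h11 : PC2) (tt p n K : ℕ) :
    ∀ M : ℕ, 2 ≤ M → ∀ d1 : ℝ, 0 < d1 → ∃ y0 : ℕ, ∀ y : ℕ, y0 ≤ y → ∀ I : ℕ,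
  y ^ (2 * M + 4) ≤ I → I ≤ 2 * y ^ (2 * M + 4) → ∀ (R : Finset ℕ) (a : ℕ), a ≤ 3 * y ^ (2 * M - 1) →
  RCT M y I K R →
  (((cfgM M y p n a I R).Tup.filter (fun t => (∃ δ : ℕ, AdmL δ ∧ Bad I y δ ∧
      Rep (rr M y - P.b) δ ((cfgM M y p n a I R).N t)) ∨
      ∃ e : ℕ, e ≤ tt ∧ ∃ u : ℕ, Prm.kp * (cfgM M y p n a I R).N t + e =
        E (rr M y - P.b) * u ^ 2)).card : ℝ) ≤
    d1 / (y : ℝ) ^ (4 * M - 3) * (2 ^ I / ((cfgM M y p n a I R).Rp * I)) *
      ((cfgM M y p n a I R).W / 2 ^ (M + 1)) * (3 / 8) := by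
  intro M hM2 d1 hc1
  have hM : 1 ≤ M := by omega
  obtain ⟨C5, hC5, hsmall⟩ := h5
  obtain ⟨C9, hC9⟩ := h9
  obtain ⟨y7, hy7⟩ := h7 M hM
  obtain ⟨y8, hy8⟩ := h8 M hM 0.001 (by norm_num)
  obtain ⟨y10, hy10⟩ := parM h11 M p n K hM2
  obtain ⟨ya, hya'⟩ := ev_pow (2 * M + 4 + (4 * M - 3)) 2 (by norm_num)
    (48 * 2 ^ M * 2 ^ p) (d1 / 2) (by positivity)
  obtain ⟨ye, hye⟩ := ev_pow (2 * M + 2) 2 (by norm_num) (640 * K) 1 one_pos
  obtain ⟨yb, hyb'⟩ := ev_pow (1 + (4 * M - 3)) ((2 : ℝ) ^ (0.3 : ℝ))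
    (Real.one_lt_rpow (by norm_num) (by norm_num)) (32 * 2 ^ M * ((tt : ℝ) + 2) ^ 2) (d1 / 2)
    (by positivity)
  obtain ⟨yc, hyc⟩ := ev_pow (2 * M + 4) 2 (by norm_num) 2 1 one_pos
  obtain ⟨yd, hyd'⟩ := ev_exp2 (4 * M - 3) (8 * M * C5 * 2 ^ M) (d1 / 2) (by positivity)
  refine ⟨C9 + y7 + y8 + y10 + ya + yb + yc + yd + ye + 16,
    fun y hy I hI1 hI2 R a ha3 hRC => ?_⟩
  have hyR : (0 : ℝ) < y := by exact_mod_cast (by omega : 0 < y)
  set cc : ℝ := d1 / 2 / (y : ℝ) ^ (4 * M - 3) with hccdef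
  have hyp : (0 : ℝ) < (y : ℝ) ^ (4 * M - 3) := by positivity
  have hcc : 0 < cc := by positivity
  have hyI0 : y ≤ I := (Nat.le_self_pow (by omega) y).trans hI1
  have hya : 48 * (2 : ℝ) ^ M * (y : ℝ) ^ (2 * M + 4) ≤ cc / 2 ^ p * 2 ^ y := by
    have := hya' y (by omega)
    rw [pow_add] at this
    have h2p : (0 : ℝ) < 2 ^ p := by positivity
    rw [hccdef, div_div, div_mul_eq_mul_div, le_div_iff₀ (by positivity)]
    linarith
  have ht2 : (0 : ℝ) < ((tt : ℝ) + 2) ^ 2 := by positivity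
  have hyb : 32 * (2 : ℝ) ^ M * (I : ℝ) ^ 1 ≤
      cc / ((tt : ℝ) + 2) ^ 2 * ((2 : ℝ) ^ (0.3 : ℝ)) ^ I := by
    have := hyb' I (by omega)
    rw [pow_add] at this
    rw [hccdef, div_div, div_mul_eq_mul_div, le_div_iff₀ (by positivity)]
    refine le_trans ?_ this
    have h3 : (y : ℝ) ^ (4 * M - 3) ≤ (I : ℝ) ^ (4 * M - 3) :=
      pow_le_pow_left₀ hyR.le (by exact_mod_cast hyI0) _
    calc 32 * (2 : ℝ) ^ M * (I : ℝ) ^ 1 * ((y : ℝ) ^ (4 * M - 3) * ((tt : ℝ) + 2) ^ 2)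
        ≤ 32 * (2 : ℝ) ^ M * (I : ℝ) ^ 1 * ((I : ℝ) ^ (4 * M - 3) * ((tt : ℝ) + 2) ^ 2) := by
          gcongr
      _ = 32 * (2 : ℝ) ^ M * ((tt : ℝ) + 2) ^ 2 * ((I : ℝ) ^ 1 * (I : ℝ) ^ (4 * M - 3)) := by
          ring
  have hyd : 8 * M * C5 * 2 ^ M * Real.exp (-(0.002 * (y : ℝ))) ≤ cc := by
    have := hyd' y (by omega)
    rw [hccdef, le_div_iff₀ hyp]
    linarith
  obtain ⟨hOk, hcard, hYr1, hYr2, hk, hS, hκ, hk2, -, hW⟩ :=
    hy10 y (by omega) I hI1 hI2 R a hRC.card hRC.pr hRC.le (ha3.trans (by omega))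
  have h7' := hy7 y (by omega) I hI1 hI2
  obtain ⟨h8a, h8b⟩ := hy8 y (by omega) I hI1 hI2
  set g := cfgM M y p n a I R with hg
  have hgI : g.I = I := rfl
  have hgr : g.r = rr M y - P.b := rfl
  have hgR : g.R = R := rfl
  have hgκ : ∀ j, g.κ j = kap M y j := fun _ => rfl
  have hgRp : g.Rp = ∏ q ∈ R, q := rfl
  set Y := y ^ (2 * M - 1) with hY
  have hy1 : 1 ≤ y := by omega
  have hyY : y ≤ Y := by
    calc y = y ^ 1 := (pow_one y).symm
      _ ≤ y ^ (2 * M - 1) := Nat.pow_le_pow_right hy1 (by omega)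
  have hyI : y ≤ I := by
    calc y = y ^ 1 := (pow_one y).symm
      _ ≤ y ^ (2 * M + 4) := Nat.pow_le_pow_right hy1 (by omega)
      _ ≤ I := hI1
  have hI : 1 ≤ I := by omega
  have hIr : (1 : ℝ) ≤ I := by exact_mod_cast hI
  have hRp1 : 1 ≤ g.Rp := by
    rw [hgRp]
    exact Finset.prod_pos fun q hq => (hRC.pr q hq).1.pos
  have hRpr : (1 : ℝ) ≤ g.Rp := by exact_mod_cast hRp1
  have hW0 : 0 < g.W := lt_of_lt_of_le (by positivity) hW
  set A : ℝ := 2 ^ I / (g.Rp * I) * g.W with hA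
  have hA0 : 0 < A := by positivity
  -- numbers of the tuples
  have hNodd : ∀ t ∈ g.Tup, g.N t % 2 = 1 ∧ g.N t ≤ 2 ^ I := by
    intro t ht
    obtain ⟨s, hs1, hs2, -, -, -, -, -, hs8⟩ := h2 (M + 1) g hOk t ht
    rw [← hs2]
    refine ⟨prod_odd s fun q hq => ⟨(hs1 q hq).1, (hs1 q hq).2.1⟩, ?_⟩
    rw [hs2]
    exact hs8
  -- the three parts
  set La := g.Tup.filter (fun t => ∃ e : ℕ, e ≤ tt ∧ ∃ u : ℕ, Prm.kp * g.N t + e =
    E g.r * u ^ 2) with hLa
  set D := (Icc 1 (3 * 2 ^ I)).filter (fun δ => AdmL δ ∧ Bad I y δ) with hD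
  let PP : ℕ → Finset (Σ _ : Fin (M + 1) → Finset ℕ, ℕ) :=
    fun δ => g.Tup.filter (fun t => Rep g.r δ (g.N t))
  have hsub : g.Tup.filter (fun t => (∃ δ : ℕ, AdmL δ ∧ Bad I y δ ∧ Rep (rr M y - P.b) δ (g.N t)) ∨
      ∃ e : ℕ, e ≤ tt ∧ ∃ u : ℕ, Prm.kp * g.N t + e = E (rr M y - P.b) * u ^ 2) ⊆ La ∪ D.biUnion PP := by
    intro t ht
    rw [Finset.mem_filter] at ht
    rw [Finset.mem_union]
    rcases ht.2 with ⟨δ, hδ1, hδ2, hδ3⟩ | hu
    · right
      rw [Finset.mem_biUnion]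
      obtain ⟨hN1, hN2⟩ := hNodd t ht.1
      refine ⟨δ, ?_, Finset.mem_filter.2 ⟨ht.1, hδ3⟩⟩
      rw [hD, Finset.mem_filter]
      refine ⟨rep_le ?_ hδ1 hN1 I hN2 hδ3, hδ1, hδ2⟩
      have := hOk.hr
      rw [hgr] at this
      omega
    · left
      exact Finset.mem_filter.2 ⟨ht.1, hu⟩
  -- (a)
  have hLa1 : (La.card : ℝ) ≤ A * (cc / (8 * 2 ^ M)) := by
    have hUnn : 0 ≤ g.U := by unfold Cfg.U; positivity
    have hsubL : La ⊆ (range (tt + 1)).biUnion (fun e =>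
        g.Tup.filter (fun t => ∃ u : ℕ, Prm.kp * g.N t + e = E g.r * u ^ 2)) := by
      intro t ht
      obtain ⟨ht1, e, he, hu⟩ := Finset.mem_filter.1 ht
      rw [Finset.mem_biUnion]
      exact ⟨e, Finset.mem_range.2 (by omega), Finset.mem_filter.2 ⟨ht1, hu⟩⟩
    have hcardL : (La.card : ℝ) ≤ ((tt : ℝ) + 2) ^ 2 * (2 ^ (g.I / 8) * (g.U + 2)) := by
      have e1 : (La.card : ℝ) ≤ ∑ e ∈ range (tt + 1),
          ((g.Tup.filter (fun t => ∃ u : ℕ, Prm.kp * g.N t + e = E g.r * u ^ 2)).card : ℝ) := by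
        have := (Finset.card_le_card hsubL).trans Finset.card_biUnion_le
        exact_mod_cast this
      refine e1.trans ?_
      calc ∑ e ∈ range (tt + 1),
          ((g.Tup.filter (fun t => ∃ u : ℕ, Prm.kp * g.N t + e = E g.r * u ^ 2)).card : ℝ)
          ≤ ∑ e ∈ range (tt + 1), 2 ^ (g.I / 8) * (((tt : ℝ) + 2) * (g.U + 2)) := by
            refine Finset.sum_le_sum fun e he => ?_
            refine le_trans (le_trans (le_of_eq ?_) (tupZeroT h2 e (M + 1) g hOk)) ?_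
            · congr
            apply mul_le_mul_of_nonneg_left _ (by positivity)
            have he1 : (e : ℝ) ≤ tt := by
              have := Finset.mem_range.1 he
              exact_mod_cast (by omega : e ≤ tt)
            have htt0 : (0 : ℝ) ≤ tt := Nat.cast_nonneg _
            nlinarith
        _ = ((tt : ℝ) + 1) * (2 ^ (g.I / 8) * (((tt : ℝ) + 2) * (g.U + 2))) := by
            rw [Finset.sum_const, Finset.card_range, nsmul_eq_mul]
            push_cast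
            ring
        _ ≤ ((tt : ℝ) + 2) * (2 ^ (g.I / 8) * (((tt : ℝ) + 2) * (g.U + 2))) := by
            apply mul_le_mul_of_nonneg_right (by linarith) (by positivity)
        _ = ((tt : ℝ) + 2) ^ 2 * (2 ^ (g.I / 8) * (g.U + 2)) := by ring
    have h := zero_num M I g.r g.Rp (cc / ((tt : ℝ) + 2) ^ 2) g.W
      (2 ^ (g.I / 8) * (g.U + 2)) (by positivity) hI hRp1 (by rw [hgRp]; exact hRC.le) hW
      hyb (le_of_eq rfl)
    rw [hA]
    calc (La.card : ℝ) ≤ ((tt : ℝ) + 2) ^ 2 * (2 ^ (g.I / 8) * (g.U + 2)) := hcardL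
      _ ≤ ((tt : ℝ) + 2) ^ 2 * (2 ^ I / (g.Rp * I) * g.W *
          (cc / ((tt : ℝ) + 2) ^ 2 / (8 * 2 ^ M))) := by gcongr
      _ = 2 ^ I / (g.Rp * I) * g.W * (cc / (8 * 2 ^ M)) := by field_simp
  -- (b1)
  have hb1 : ∑ δ ∈ D.filter (fun δ => 2 ^ (16 * Y) < δ), ((PP δ).card : ℝ) ≤
      A * (cc / (8 * 2 ^ M)) := by
    set H := ∑ j, g.k j + g.R.card + 1 with hH
    have hH1 : H ≤ p + 4 * Y := by
      have e1 : ∑ j, g.k j = ∑ j : Fin M, kkT M y p n R.card j + a := by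
        rw [Fin.sum_univ_castSucc]
        have e2 : ∀ j : Fin M, g.k (Fin.castSucc j) = kkT M y p n R.card j := by
          intro j
          show kM M y p n R.card a (Fin.castSucc j : Fin (M + 1)) = _
          unfold kM
          rw [if_pos (by simp)]
          simp
        have e3 : g.k (Fin.last M) = a := by
          show kM M y p n R.card a (Fin.last M : Fin (M + 1)) = _
          unfold kM
          rw [if_neg (by simp)]
        rw [e3, Finset.sum_congr rfl fun j _ => e2 j]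
      have e4 : g.R.card = R.card := rfl
      rw [hH, e1, e4]
      omega
    have h7'' : (2 : ℝ) ^ (3 * Y) * (∑ δ ∈ D.filter (fun δ => 2 ^ (16 * Y) < δ), 1 / Real.sqrt δ) ≤
        1 / (2 : ℝ) ^ (2 * Y) := by
      have e1 : (∑ δ ∈ D.filter (fun δ => 2 ^ (16 * Y) < δ), 1 / Real.sqrt (δ : ℝ)) ≤
          1 / (2 : ℝ) ^ (5 * Y) := by
        refine le_trans (le_of_eq ?_) h7'
        apply Finset.sum_congr _ (fun _ _ => rfl)
        rw [hD, Finset.filter_filter]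
        ext δ
        simp only [Finset.mem_filter]
        tauto
      calc (2 : ℝ) ^ (3 * Y) * (∑ δ ∈ D.filter (fun δ => 2 ^ (16 * Y) < δ), 1 / Real.sqrt δ)
          ≤ (2 : ℝ) ^ (3 * Y) * (1 / (2 : ℝ) ^ (5 * Y)) :=
            mul_le_mul_of_nonneg_left e1 (by positivity)
        _ = 1 / (2 : ℝ) ^ (2 * Y) := by
            rw [show 5 * Y = 3 * Y + 2 * Y by ring, pow_add]
            field_simp
    have h := large_num M I g.r g.Rp Y Y y (cc / 2 ^ p) g.W
      ((2 : ℝ) ^ (3 * Y) * ∑ δ ∈ D.filter (fun δ => 2 ^ (16 * Y) < δ), 1 / Real.sqrt δ)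
      (by positivity) hI hI2 hRp1 hW0.le le_rfl hyY hya h7''
    have hp2 : (0 : ℝ) < 2 ^ p := by positivity
    have h' := mul_le_mul_of_nonneg_left h hp2.le
    have hre : (2 : ℝ) ^ p * (2 ^ I / (g.Rp * I) * g.W * (cc / 2 ^ p / (8 * 2 ^ M))) =
        A * (cc / (8 * 2 ^ M)) := by
      rw [hA]
      field_simp
    rw [hre] at h'
    refine le_trans ?_ h'
    have hpH : (2 : ℝ) ^ H ≤ 2 ^ p * (2 ^ Y * 2 ^ (3 * Y)) := by
      rw [← pow_add, ← pow_add]
      exact pow_le_pow_right₀ (by norm_num) (by omega)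
    rw [← mul_assoc, ← mul_assoc, Finset.mul_sum]
    refine Finset.sum_le_sum fun δ hδ => ?_
    have hδ2 := (Finset.mem_filter.1 (Finset.mem_filter.1 hδ).1)
    have h9 := h4 (M + 1) g hOk δ hδ2.2.1
    have hδ0 : (0 : ℝ) < δ := by
      have := (Finset.mem_Icc.1 hδ2.1).1
      exact_mod_cast this
    refine h9.trans ?_
    have hUR : 0 ≤ g.U / g.Rp * g.W := by
      unfold Cfg.U
      positivity
    calc Real.sqrt (3 * 2 ^ g.I / δ) * 2 ^ H * (g.U / g.Rp) * g.W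
        = Real.sqrt (3 * 2 ^ g.I / δ) * (2 ^ H) * (g.U / g.Rp * g.W) := by ring
      _ ≤ Real.sqrt (3 * 2 ^ g.I / δ) * (2 ^ p * (2 ^ Y * 2 ^ (3 * Y))) * (g.U / g.Rp * g.W) := by
          gcongr
      _ = _ := by
          rw [Real.sqrt_div (by positivity)]
          unfold Cfg.U
          rw [hgI]
          ring
  -- (b2), (b3)
  have hb3 : ∑ δ ∈ D.filter (fun δ => ¬ 2 ^ (16 * Y) < δ), ((PP δ).card : ℝ) ≤
      A * (cc / (8 * 2 ^ M)) := by
    set D' := D.filter (fun δ => ¬ 2 ^ (16 * Y) < δ) with hD'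
    let Dj : Fin M → Finset ℕ := fun j => D'.filter (fun δ => ¬ StrongAt (kap M y j) δ ∧
      ((j : ℕ) + 1 < M → StrongAt (kap M y ((j : ℕ) + 1)) δ))
    have hmemD : ∀ δ ∈ D', 1 ≤ δ ∧ δ ≤ 2 ^ (16 * Y) ∧ AdmL δ ∧ Bad I y δ := by
      intro δ hδ
      obtain ⟨ha, hb⟩ := Finset.mem_filter.1 hδ
      obtain ⟨hc, hd⟩ := Finset.mem_filter.1 ha
      exact ⟨(Finset.mem_Icc.1 hc).1, not_lt.1 hb, hd.1, hd.2⟩
    have hpt : ∀ δ ∈ D', ((PP δ).card : ℝ) ≤
        ∑ j : Fin M, if δ ∈ Dj j then ((PP δ).card : ℝ) else 0 := by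
      intro δ hδ
      obtain ⟨hδ1, hδ2, hδ3, hδ4⟩ := hmemD δ hδ
      by_cases hst : StrongAt (kap M y 0) δ
      · -- killed
        obtain ⟨q, hqR, hqJ⟩ := hRC.kills δ hδ3 hδ2 hst
        have hempty : PP δ = ∅ := by
          apply Finset.filter_eq_empty_iff.2
          intro t ht
          obtain ⟨s, -, -, -, -, hs5, -, hs7, -⟩ := h2 (M + 1) g hOk t ht
          have hqs : q ∈ s := hs5 hqR
          exact h1.kill g.r δ (g.N t) q (hRC.pr q hqR).1 (hRC.pr q hqR).2.1 hqJ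
            (hs7 q hqs).1 (hs7 q hqs).2
        rw [hempty]
        simp
      · obtain ⟨j, hj1, hj2⟩ := last_level hM (fun i => StrongAt (kap M y i) δ) hst
        have hmem : δ ∈ Dj j := Finset.mem_filter.2 ⟨hδ, hj1, hj2⟩
        calc ((PP δ).card : ℝ) = (if δ ∈ Dj j then ((PP δ).card : ℝ) else 0) := by
              rw [if_pos hmem]
          _ ≤ ∑ j : Fin M, if δ ∈ Dj j then ((PP δ).card : ℝ) else 0 :=
              Finset.single_le_sum
                (f := fun j : Fin M => if δ ∈ Dj j then ((PP δ).card : ℝ) else 0)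
                (fun i _ => by positivity) (Finset.mem_univ j)
    have hjb : ∀ j : Fin M, ∑ δ ∈ D', (if δ ∈ Dj j then ((PP δ).card : ℝ) else 0) ≤
        C5 * A * Real.exp (-(0.002 * (y : ℝ))) := by
      intro j
      have hsum : ∑ δ ∈ D', (if δ ∈ Dj j then ((PP δ).card : ℝ) else 0) =
          ∑ δ ∈ Dj j, ((PP δ).card : ℝ) := by
        rw [← Finset.sum_filter]
        apply Finset.sum_congr _ (fun _ _ => rfl)
        ext δ
        simp only [Finset.mem_filter, Dj]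
        tauto
      rw [hsum]
      have hPδ : ∀ δ ∈ Dj j, ((PP δ).card : ℝ) ≤ C5 * A * (1 - 1 / 80) ^ (g.k (Fin.castSucc j)) := by
        intro δ hδ
        obtain ⟨ha, hb⟩ := Finset.mem_filter.1 hδ
        obtain ⟨hδ1, hδ2, hδ3, hδ4⟩ := hmemD δ ha
        have h15 : 15 ≤ g.κ (Fin.castSucc j) := by
          have := (hκ (Fin.castSucc j)).1
          rw [hgκ]
          omega
        have hpw : 640 * K * g.κ (Fin.castSucc j) ≤ 2 ^ (g.κ (Fin.castSucc j)) := by
          have hκ1 := (hκ (Fin.castSucc j)).1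
          have hκle : g.κ (Fin.castSucc j) ≤ y ^ (2 * M + 2) := by
            rw [hgκ]
            exact Nat.pow_le_pow_right hy1 (by omega)
          have h12 := hye y (by omega)
          rw [one_mul] at h12
          have h13 : 640 * K * y ^ (2 * M + 2) ≤ 2 ^ y := by exact_mod_cast h12
          calc 640 * K * g.κ (Fin.castSucc j) ≤ 640 * K * y ^ (2 * M + 2) := Nat.mul_le_mul_left _ hκle
            _ ≤ 2 ^ y := h13
            _ ≤ 2 ^ (g.κ (Fin.castSucc j)) := Nat.pow_le_pow_right (by norm_num) (by rw [hgκ]; exact hκ1)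
        have hth := theta_condM g K (Fin.castSucc j) δ (by
            show (if ((Fin.castSucc j : Fin (M + 1)) : ℕ) < M then c0 else c1) = c0
            rw [if_pos (by simp)]) (by rw [hgR]; exact hRC.card) h15 hpw
          (by rw [hgκ]; exact hS (Fin.castSucc j)) (by rw [hgκ]; exact hb.1)
        refine (hsmall (M + 1) g hOk δ hδ3 (Fin.castSucc j) (1 / 80) (by norm_num) (by norm_num)
          hth).trans
          (le_of_eq ?_)
        rw [hA, hgI]
        ring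
      have hnum : ((Dj j).card : ℝ) ≤ (2 : ℝ) ^ (0.001 * (y : ℝ) ^ (2 * (j : ℕ) + 1)) := by
        by_cases hjM : (j : ℕ) + 1 < M
        · refine le_trans ?_ (h8b j hjM)
          have : Dj j ⊆ (Icc 1 (2 ^ (16 * Y))).filter
              (fun δ => AdmL δ ∧ BadAt I (kap M y ((j : ℕ) + 1)) δ) := by
            intro δ hδ
            obtain ⟨ha, hb⟩ := Finset.mem_filter.1 hδ
            obtain ⟨hδ1, hδ2, hδ3, hδ4⟩ := hmemD δ ha
            rw [Finset.mem_filter]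
            refine ⟨Finset.mem_Icc.2 ⟨hδ1, hδ2⟩, hδ3, ?_⟩
            have hκ1 := hκ ⟨(j : ℕ) + 1, by omega⟩
            simp only at hκ1
            -- the exponent is at least `y ^ 4`
            have hy4 : y ^ 2 ≤ kap M y ((j : ℕ) + 1) := by
              unfold kap
              exact Nat.pow_le_pow_right hy1 (by omega)
            have hy5 : y ≤ kap M y ((j : ℕ) + 1) / 4 := by
              rw [Nat.le_div_iff_mul_le (by norm_num)]
              refine le_trans ?_ hy4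
              rw [sq]
              exact Nat.mul_le_mul_left _ (by omega)
            apply hC9 I (kap M y ((j : ℕ) + 1)) δ (by omega) hκ1.2 _ hδ3.1 _ (hb.2 hjM)
            · have hc1 := hyc y (by omega)
              rw [one_mul] at hc1
              have hc2 : 2 * y ^ (2 * M + 4) ≤ 2 ^ y := by exact_mod_cast hc1
              calc I ≤ 2 * y ^ (2 * M + 4) := hI2
                _ ≤ 2 ^ y := hc2
                _ ≤ 2 ^ (kap M y ((j : ℕ) + 1) / 4) := Nat.pow_le_pow_right (by norm_num) hy5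
            · refine hδ2.trans (Nat.pow_le_pow_right (by norm_num) ?_)
              refine le_trans ?_ hI1
              rw [hY]
              have e1 : y ^ (2 * M + 4) = y ^ 5 * y ^ (2 * M - 1) := by
                rw [← pow_add]
                congr 1
                omega
              rw [e1]
              apply Nat.mul_le_mul_right
              calc 16 ≤ y := by omega
                _ = y ^ 1 := (pow_one y).symm
                _ ≤ y ^ 5 := Nat.pow_le_pow_right hy1 (by norm_num)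
          exact Nat.cast_le.2 (Finset.card_le_card this)
        · have hj : (j : ℕ) + 1 = M := by
            have := j.2
            omega
          have e1 : 2 * (j : ℕ) + 1 = 2 * M - 1 := by omega
          rw [e1]
          refine le_trans ?_ h8a
          have : Dj j ⊆ (Icc 1 (2 ^ (16 * Y))).filter (fun δ => AdmL δ ∧ Bad I y δ) := by
            intro δ hδ
            obtain ⟨ha, hb⟩ := Finset.mem_filter.1 hδ
            obtain ⟨hδ1, hδ2, hδ3, hδ4⟩ := hmemD δ ha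
            rw [Finset.mem_filter]
            exact ⟨Finset.mem_Icc.2 ⟨hδ1, hδ2⟩, hδ3, hδ4⟩
          exact Nat.cast_le.2 (Finset.card_le_card this)
      have hyx : (y : ℝ) ≤ (y : ℝ) ^ (2 * (j : ℕ) + 1) := by
        have h : y ^ 1 ≤ y ^ (2 * (j : ℕ) + 1) := Nat.pow_le_pow_right hy1 (by omega)
        rw [pow_one] at h
        exact_mod_cast h
      have hkj : g.k (Fin.castSucc j) = kkT M y p n R.card j := by
        show kM M y p n R.card a (Fin.castSucc j : Fin (M + 1)) = _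
        unfold kM
        rw [if_pos (by simp)]
        simp
      have hfin := small_num ((Dj j).card : ℝ) ((y : ℝ) ^ (2 * (j : ℕ) + 1)) y
        (g.k (Fin.castSucc j)) hyx (Nat.cast_nonneg _) hnum (by rw [hkj]; exact (hk j).1)
      calc ∑ δ ∈ Dj j, ((PP δ).card : ℝ)
          ≤ ∑ δ ∈ Dj j, C5 * A * (1 - 1 / 80) ^ (g.k (Fin.castSucc j)) := Finset.sum_le_sum hPδ
        _ = C5 * A * (((Dj j).card : ℝ) * (1 - 1 / 80) ^ (g.k (Fin.castSucc j))) := by
            rw [Finset.sum_const, nsmul_eq_mul]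
            ring
        _ ≤ C5 * A * Real.exp (-(0.002 * (y : ℝ))) := by gcongr
    calc ∑ δ ∈ D', ((PP δ).card : ℝ)
        ≤ ∑ δ ∈ D', ∑ j : Fin M, (if δ ∈ Dj j then ((PP δ).card : ℝ) else 0) :=
          Finset.sum_le_sum hpt
      _ = ∑ j : Fin M, ∑ δ ∈ D', (if δ ∈ Dj j then ((PP δ).card : ℝ) else 0) :=
          Finset.sum_comm
      _ ≤ ∑ j : Fin M, C5 * A * Real.exp (-(0.002 * (y : ℝ))) :=
          Finset.sum_le_sum fun j _ => hjb j
      _ = M * (C5 * A * Real.exp (-(0.002 * (y : ℝ)))) := by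
          rw [Finset.sum_const, Finset.card_univ, Fintype.card_fin, nsmul_eq_mul]
      _ ≤ A * (cc / (8 * 2 ^ M)) := by
          have hd := hyd
          rw [mul_div_assoc', le_div_iff₀ (by positivity)]
          calc (M : ℝ) * (C5 * A * Real.exp (-(0.002 * (y : ℝ)))) * (8 * 2 ^ M)
              = A * (8 * M * C5 * 2 ^ M * Real.exp (-(0.002 * (y : ℝ)))) := by ring
            _ ≤ A * cc := by gcongr
  -- conclusion
  have hcardle : ((g.Tup.filter (fun t => (∃ δ : ℕ, AdmL δ ∧ Bad I y δ ∧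
      Rep (rr M y - P.b) δ (g.N t)) ∨ ∃ e : ℕ, e ≤ tt ∧ ∃ u : ℕ, Prm.kp * g.N t + e = E (rr M y - P.b) * u ^ 2)).card : ℝ) ≤
      (La.card : ℝ) + ∑ δ ∈ D, ((PP δ).card : ℝ) := by
    have e1 := (Finset.card_le_card hsub).trans (Finset.card_union_le _ _)
    have e2 : (D.biUnion PP).card ≤ ∑ δ ∈ D, (PP δ).card := Finset.card_biUnion_le
    have e3 := e1.trans (Nat.add_le_add_left e2 _)
    exact_mod_cast e3
  have hsplit := Finset.sum_filter_add_sum_filter_not D (fun δ => 2 ^ (16 * Y) < δ)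
    (fun δ => ((PP δ).card : ℝ))
  have hfin : A * (cc / (8 * 2 ^ M)) = cc * A / 2 ^ M / 8 := by
    field_simp
  have hA2 : 0 ≤ cc * A / 2 ^ M := by positivity
  refine hcardle.trans ?_
  have hgoal : d1 / (y : ℝ) ^ (4 * M - 3) * (2 ^ I / ((g.Rp : ℝ) * I)) *
      (g.W / 2 ^ (M + 1)) * (3 / 8) = A * (cc / (8 * 2 ^ M)) * 3 := by
    rw [hA, hccdef, pow_succ]
    field_simp
  rw [hgoal]
  linarith

end Pool.Agent.H13.MO
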