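import Pool.Graph.R_seed8.H307R2.OP.DefsC

set_option autoImplicit false

/-!
# Odd values of the number of `t`-multipartitions, all classes of `t`: definitions
(generalisation of `Pool.Agent.H307R2.OP.DefsB`, `Pool.Agent.H413R3.OddL.Defs`)

The parameters: `b` is the parity of the exponent of the power of two, `kp` is the factor of `N`
(`kp = 3` if `3 ∤ t` and `kp = 1` if `3 ∣ t`). The representations are
`kp N = δ s ^ 2 + 2 ^ b 4 ^ r u ^ 2`.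
-/

namespace Pool.Agent.H13.MO

open Finset Pool.Agent.H307R2.OP

/-- the parameters -/
class Prm where
  b : ℕ
  kp : ℕ
  hb : b = 0 ∨ b = 1
  hk : kp = 1 ∨ kp = 3

variable [P : Prm]

/-- the class modulo 8 of the main primes -/
def c0 : ℕ := if P.b = 0 then 5 else 3

/-- the other class modulo 8 -/
def c1 : ℕ := if P.b = 0 then 3 else 5

/-- the power of two -/
def E (r : ℕ) : ℕ := 2 ^ P.b * 4 ^ r

/-- the splitting of `q` in the field of `√(-2^b δ)` -/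
noncomputable def J (q δ : ℕ) : ℝ := ((jacobiSym (-((2 ^ P.b * δ : ℕ) : ℤ)) q : ℤ) : ℝ)

/-- the odd squarefree numbers different from `1` -/
def AdmL (δ : ℕ) : Prop := δ % 2 = 1 ∧ Squarefree δ ∧ δ ≠ 1

/-- the character of `δ` is biased on one of the classes of primes in `(2^i, 2^(i+1)]` -/
def BadAt (I i δ : ℕ) : Prop :=
  ∃ c ∈ ({1, 3, 5, 7} : Finset ℕ), 1 / (I : ℝ) ^ 2 < |∑ p ∈ PB i c, J p δ / p|

/-- bad kernels -/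
def Bad (I i0 δ : ℕ) : Prop := ∃ i : ℕ, i0 ≤ i ∧ i ≤ I ∧ BadAt I i δ

/-- almost all primes of the main class of the block are split -/
def StrongAt (i δ : ℕ) : Prop :=
  ∑ p ∈ (PB i c0).filter (fun p => J p δ = -1), (1 : ℝ) / p < 1 / 40 * ∑ p ∈ PB i c0, (1 : ℝ) / p

/-- `kp N = δ s² + 2^b 4^r u²` -/
def Rep (r δ N : ℕ) : Prop := ∃ s u : ℕ, P.kp * N = δ * s ^ 2 + E r * u ^ 2

/-- the roots modulo `p` -/
def Om (r δ s p : ℕ) : Finset ℕ := (range p).filter (fun u => p ∣ δ * s ^ 2 + E r * u ^ 2)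

omit P in
/-- a configuration: `M` blocks of primes, `k j` primes from the block `κ j` in the class `cl j`,
killing primes `R`, the class `c` modulo 8 of the large prime -/
structure Cfg (M : ℕ) where
  I : ℕ
  r : ℕ
  κ : Fin M → ℕ
  k : Fin M → ℕ
  cl : Fin M → ℕ
  R : Finset ℕ
  c : ℕ

namespace Cfg

variable {M : ℕ} (g : Cfg M)

omit P

/-- the primes of a block, without the killing primes -/
def Blk (j : Fin M) : Finset ℕ := PB (g.κ j) (g.cl j) \ g.R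

/-- the mass of a block -/
noncomputable def S (j : Fin M) : ℝ := ∑ q ∈ g.Blk j, (1 : ℝ) / q

/-- the mass of the family -/
noncomputable def W : ℝ := ∏ j, (g.S j ^ g.k j / ((g.k j).factorial : ℝ))

/-- the family of the choices of small primes -/
def Fam : Finset (Fin M → Finset ℕ) :=
  Fintype.piFinset (fun j => powersetCard (g.k j) (g.Blk j))

/-- the product of the killing primes -/
def Rp : ℕ := ∏ q ∈ g.R, q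

/-- the product of the chosen small primes -/
def Q (_ : Cfg M) (A : Fin M → Finset ℕ) : ℕ := ∏ j, ∏ q ∈ A j, q

/-- the large primes -/
def Pr (A : Fin M → Finset ℕ) : Finset ℕ :=
  (Ioc (2 ^ (g.I / 2)) (2 ^ g.I / (g.Rp * g.Q A))).filter (fun p => p.Prime ∧ p % 8 = g.c)

/-- the tuples `(A, p)` -/
def Tup : Finset (Σ _ : Fin M → Finset ℕ, ℕ) := g.Fam.sigma g.Pr

/-- the number of a tuple -/
def N (t : Σ _ : Fin M → Finset ℕ, ℕ) : ℕ := g.Rp * g.Q t.1 * t.2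

/-- the bound for `u` -/
noncomputable def U : ℝ := Real.sqrt (3 * 2 ^ g.I) / 2 ^ g.r

/-- admissible configurations -/
structure Ok : Prop where
  inj : Function.Injective g.κ
  hr : 3 ≤ g.r
  hrI : 100 * g.r ≤ g.I
  hI : 800 ≤ g.I
  hR : ∀ q ∈ g.R, q.Prime ∧ 5 ≤ q ∧ (q % 8 = 3 ∨ q % 8 = 5)
  hκ : ∀ j, 3 ≤ g.κ j
  hcl : ∀ j, g.cl j = 3 ∨ g.cl j = 5
  hRQ : ∀ A ∈ g.Fam, g.Rp * g.Q A ≤ 2 ^ (g.I / 8)
  hc : g.c = 3 ∨ g.c = 5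

end Cfg

/-- task QR -/
structure QRStmt : Prop where
  val : ∀ q δ : ℕ, J q δ = -1 ∨ J q δ = 0 ∨ J q δ = 1
  kill : ∀ r δ N q : ℕ, q.Prime → 5 ≤ q → J q δ = -1 → q ∣ N → ¬ q ^ 2 ∣ N → ¬ Rep r δ N
  om_card : ∀ r δ s q : ℕ, q.Prime → 5 ≤ q → ¬ q ∣ s → ((Om r δ s q).card : ℝ) = 1 + J q δ
  om_zero : ∀ r δ s q : ℕ, q.Prime → 5 ≤ q → q ∣ s → Om r δ s q = {0}

open Classical in
/-- task BAD, the form that is used -/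
def BadAtCount : Prop := ∀ I i Δ m : ℕ, 1 ≤ I → 1 ≤ i → 1 ≤ m → Δ ^ 3 ≤ 2 ^ ((i + 1) * m) →
  (((Icc 1 Δ).filter (fun δ => AdmL δ ∧ BadAt I i δ)).card : ℝ) ≤ 16 * (2 * m * (I : ℝ) ^ 4) ^ m

omit P in
/-- primes in the classes `3` and `5` modulo `8` -/
structure PC2 : Prop where
  block : ∃ i0 : ℕ, ∀ i : ℕ, i0 ≤ i → ∀ c : ℕ, c = 3 ∨ c = 5 →
    0.99 * (2 : ℝ) ^ i / (4 * i * Real.log 2) ≤ ((PB i c).card : ℝ)
  mass : ∃ i0 : ℕ, ∀ i : ℕ, i0 ≤ i → ∀ c : ℕ, c = 3 ∨ c = 5 →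
    1 / (6 * (i : ℝ)) ≤ ∑ p ∈ PB i c, (1 : ℝ) / p

/-- task STR: three strongly biased kernels have a square product -/
def StrongStmt : Prop := ∃ C : ℕ, ∀ i Δ δ1 δ2 δ3 : ℕ, C ≤ i → Δ ^ C ≤ 2 ^ i →
  AdmL δ1 → AdmL δ2 → AdmL δ3 → δ1 ≤ Δ → δ2 ≤ Δ → δ3 ≤ Δ → δ1 ≠ δ2 → δ1 ≠ δ3 → δ2 ≠ δ3 →
  StrongAt i δ1 → StrongAt i δ2 → StrongAt i δ3 → IsSquare (δ1 * δ2 * δ3)

/-- task KP: a small killing prime in the main class -/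
def KillPrime : Prop := ∃ C : ℕ, ∀ δ : ℕ, AdmL δ → ∃ q : ℕ, q.Prime ∧ 5 ≤ q ∧
  q % 8 = c0 ∧ J q δ = -1 ∧ q ≤ C * δ ^ C

open Classical in
/-- task FIX: the number of `u` for a fixed choice of the small primes -/
def FixStmt : Prop := ∀ (r δ s U D z K : ℕ) (A P : Finset ℕ), AdmL δ → 1 ≤ D →
  (∀ q ∈ A, q.Prime ∧ 5 ≤ q) → (∀ p ∈ P, p.Prime ∧ 64 ≤ p ∧ p ≤ z ∧ p ∉ A) → z ^ K ≤ D →
  8 * (∑ p ∈ P, ((Om r δ s p).card : ℝ) / p) + 8 ≤ K → (∑ p ∈ P, (4 : ℝ) / p ^ 2) ≤ 1 →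
  (((range (U + 1)).filter (fun u => ∃ p : ℕ, p.Prime ∧ z < p ∧ p ∉ A ∧
      Prm.kp * ((∏ q ∈ A, q) * p) = δ * s ^ 2 + E r * u ^ 2)).card : ℝ) ≤
    (∏ q ∈ A, (1 + J q δ)) * (16 * ((U : ℝ) / (∏ q ∈ A, (q : ℝ)) + 1) *
      Real.exp (-∑ p ∈ P, ((Om r δ s p).card : ℝ) / p) + (D : ℝ) ^ 6)

/-- task SIG: the sieving mass for a good kernel -/
def SigStmt : Prop := ∃ C : ℝ, 0 < C ∧ ∀ (I i0 i1 r δ s : ℕ) (A : Finset ℕ), 3 ≤ i0 → i0 ≤ i1 →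
  i1 ≤ I → I ≤ 2 ^ i0 → AdmL δ → ¬ Bad I i0 δ → 1 ≤ s → s ≤ 2 ^ I → A.card ≤ I →
  (Real.log i1 - Real.log i0 - C ≤ ∑ p ∈ Pr2 i0 i1 \ A, ((Om r δ s p).card : ℝ) / p) ∧
  (∑ p ∈ Pr2 i0 i1 \ A, ((Om r δ s p).card : ℝ) / p ≤ 2 * Real.log I + C)

omit P in
/-- task TUP: the prime factors of the number of a tuple -/
def TupStmt : Prop := ∀ (M : ℕ) (g : Cfg M), g.Ok → ∀ t ∈ g.Tup, ∃ s : Finset ℕ,
  (∀ q ∈ s, q.Prime ∧ 5 ≤ q ∧ (q % 8 = 3 ∨ q % 8 = 5)) ∧ ∏ q ∈ s, q = g.N t ∧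
  s.card = ∑ j, g.k j + g.R.card + 1 ∧
  (s.filter (fun q => q % 8 = 3)).card =
    (g.R.filter (fun q => q % 8 = 3)).card + (if g.c = 3 then 1 else 0) +
      ∑ j, (if g.cl j = 3 then g.k j else 0) ∧
  g.R ⊆ s ∧ (∀ j, t.1 j ⊆ s) ∧ (∀ q ∈ s, q ∣ g.N t ∧ ¬ q ^ 2 ∣ g.N t) ∧ g.N t ≤ 2 ^ g.I

open Classical in
/-- task T2: tuples represented by a large kernel -/
def TupLarge : Prop := ∀ (M : ℕ) (g : Cfg M), g.Ok → ∀ δ : ℕ, AdmL δ →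
  ((g.Tup.filter (fun t => Rep g.r δ (g.N t))).card : ℝ) ≤
    Real.sqrt (3 * 2 ^ g.I / δ) * 2 ^ (∑ j, g.k j + g.R.card + 1) * (g.U / g.Rp) * g.W

open Classical in
/-- task T3: tuples represented by a small kernel that is not strongly biased -/
def TupSmall : Prop := ∃ C : ℝ, 0 < C ∧ ∀ (M : ℕ) (g : Cfg M), g.Ok → ∀ δ : ℕ, AdmL δ →
  ∀ (j : Fin M) (θ : ℝ), 0 ≤ θ → θ ≤ 1 →
  ∑ q ∈ (g.Blk j).filter (fun q => J q δ ≠ -1), (1 : ℝ) / q ≤ (1 - θ) * g.S j →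
  ((g.Tup.filter (fun t => Rep g.r δ (g.N t))).card : ℝ) ≤
    C * (2 ^ g.I / (g.Rp * g.I)) * g.W * (1 - θ) ^ (g.k j)

open Classical in
/-- task T5: multiplicity of a good value -/
def GoodCount : Prop := ∃ C : ℝ, 0 < C ∧ ∃ I0 : ℕ, ∀ (M : ℕ) (g : Cfg M), g.Ok → I0 ≤ g.I →
  ∀ i0 : ℕ, 6 ≤ i0 → g.I ≤ 2 ^ i0 → 4000 * i0 * (Nat.log 2 g.I + 1) ≤ g.I →
  (∀ j, i0 ≤ g.κ j ∧ g.κ j ≤ g.I) → ∑ j, g.k j + g.R.card ≤ g.I →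
  ∀ δ s : ℕ, AdmL δ → ¬ Bad g.I i0 δ → 1 ≤ s → δ * s ^ 2 ≤ 3 * 2 ^ g.I →
  (((g.Tup ×ˢ range (2 ^ g.I + 1)).filter
      (fun x => Prm.kp * g.N x.1 = δ * s ^ 2 + E g.r * x.2 ^ 2)).card : ℝ) ≤
    C * 2 ^ g.R.card * (g.U / g.Rp) *
      (∏ j, ((g.S j + 1 / (g.I : ℝ) ^ 2 + g.R.card / 2 ^ (g.κ j)) ^ g.k j /
        ((g.k j).factorial : ℝ))) * (i0 * (Nat.log 2 g.I + 1) / g.I)

open Classical in
/-- task F1: the large bad kernels -/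
def BadSum : Prop := ∀ M : ℕ, 1 ≤ M → ∃ y0 : ℕ, ∀ y : ℕ, y0 ≤ y → ∀ I : ℕ,
  y ^ (2 * M + 4) ≤ I → I ≤ 2 * y ^ (2 * M + 4) →
  ∑ δ ∈ (Icc 1 (3 * 2 ^ I)).filter
      (fun δ => AdmL δ ∧ Bad I y δ ∧ 2 ^ (16 * y ^ (2 * M - 1)) < δ), 1 / Real.sqrt δ ≤
    1 / (2 : ℝ) ^ (5 * y ^ (2 * M - 1))

open Classical in
/-- task F2: the number of the small bad kernels -/
def BadNum : Prop := ∀ M : ℕ, 1 ≤ M → ∀ η : ℝ, 0 < η → ∃ y0 : ℕ, ∀ y : ℕ, y0 ≤ y → ∀ I : ℕ,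
  y ^ (2 * M + 4) ≤ I → I ≤ 2 * y ^ (2 * M + 4) →
  (((Icc 1 (2 ^ (16 * y ^ (2 * M - 1)))).filter (fun δ => AdmL δ ∧ Bad I y δ)).card : ℝ) ≤
    (2 : ℝ) ^ (η * (y : ℝ) ^ (2 * M - 1)) ∧
  ∀ j : ℕ, j + 1 < M →
    (((Icc 1 (2 ^ (16 * y ^ (2 * M - 1)))).filter
      (fun δ => AdmL δ ∧ BadAt I (kap M y (j + 1)) δ)).card : ℝ) ≤
    (2 : ℝ) ^ (η * (y : ℝ) ^ (2 * j + 1))

/-- task SB: a strongly biased kernel is bad -/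
def StrongBad : Prop := ∃ C : ℕ, ∀ I i δ : ℕ, C ≤ i → i ≤ I → I ≤ 2 ^ (i / 4) → δ % 2 = 1 →
  δ ≤ 2 ^ I → StrongAt i δ → BadAt I i δ

/-- the properties of the fixed primes `R` -/
structure RCT (M y I K : ℕ) (R : Finset ℕ) : Prop where
  card : R.card ≤ K
  pr : ∀ q ∈ R, q.Prime ∧ 5 ≤ q ∧ q % 8 = c0
  le : ∏ q ∈ R, q ≤ 2 ^ (I / 16)
  kills : ∀ δ : ℕ, AdmL δ → δ ≤ 2 ^ (16 * y ^ (2 * M - 1)) → StrongAt (kap M y 0) δ →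
    ∃ q ∈ R, J q δ = -1

end Pool.Agent.H13.MO
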