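import Pool.Agent.H13.MO.KP1
import Pool.Agent.H13.MO.Defs
import Pool.Graph.R_seed8.H413R3.OddL.STR

set_option autoImplicit false

/-!
# A small killing prime in the main class

The convolution of the characters of `2`, `-2 ^ (b + 1)`, `δ` and `-2 ^ b δ` is nonnegative up to
the first killing prime, and it is at least `1` at the squares coprime to `6 δ`.
-/

namespace Pool.Agent.H13.MO.KP

open Finset ArithmeticFunction
open Pool.Agent.H307R2.OP.KP (abel_bound period_bound)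

/-- `(D | n) 1_{(n, 6 δ) = 1}` -/
noncomputable def cv (D : ℤ) (δ n : ℕ) : ℤ := if Nat.Coprime n (6 * δ) then jacobiSym D n else 0

lemma cv_zero (D : ℤ) (δ : ℕ) : cv D δ 0 = 0 := by
  unfold cv
  rw [if_neg]
  intro h
  rw [Nat.coprime_zero_left] at h
  omega

lemma cv_one (D : ℤ) (δ : ℕ) : cv D δ 1 = 1 := by simp [cv]

lemma ne_zero_of_cop {δ n : ℕ} (h : Nat.Coprime n (6 * δ)) : n ≠ 0 := by
  rintro rfl
  rw [Nat.coprime_zero_left] at h
  omega

lemma cv_mul (D : ℤ) (δ m n : ℕ) : cv D δ (m * n) = cv D δ m * cv D δ n := by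
  unfold cv
  by_cases h1 : Nat.Coprime m (6 * δ)
  · by_cases h2 : Nat.Coprime n (6 * δ)
    · have : NeZero m := ⟨ne_zero_of_cop h1⟩
      have : NeZero n := ⟨ne_zero_of_cop h2⟩
      rw [if_pos h1, if_pos h2, if_pos (Nat.coprime_mul_iff_left.2 ⟨h1, h2⟩), jacobiSym.mul_right]
    · rw [if_neg h2, if_neg (fun h => h2 (Nat.coprime_mul_iff_left.1 h).2), mul_zero]
  · rw [if_neg h1, if_neg (fun h => h1 (Nat.coprime_mul_iff_left.1 h).1), zero_mul]

lemma cv_pow (D : ℤ) (δ n i : ℕ) : cv D δ (n ^ i) = cv D δ n ^ i := by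
  induction i with
  | zero => simp [cv_one]
  | succ i ih => rw [pow_succ, cv_mul, ih, pow_succ]

lemma cv_abs (D : ℤ) (δ n : ℕ) : |(cv D δ n : ℝ)| ≤ 1 := by
  unfold cv
  split_ifs
  · rcases jacobiSym.trichotomy D n with h | h | h <;> simp [h]
  · simp

lemma odd_of_cop {δ n : ℕ} (h : Nat.Coprime n (6 * δ)) : Odd n := by
  have h1 : Nat.Coprime n 2 := Nat.Coprime.coprime_dvd_right ⟨3 * δ, by ring⟩ h
  exact Nat.Coprime.odd_of_right h1

lemma cv_per {D : ℤ} {δ : ℕ} (h4 : 4 * D.natAbs ∣ 48 * δ) (n : ℕ) :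
    cv D δ (n + 48 * δ) = cv D δ n := by
  unfold cv
  have h1 : Nat.Coprime (n + 48 * δ) (6 * δ) ↔ Nat.Coprime n (6 * δ) := by
    rw [show n + 48 * δ = n + 8 * (6 * δ) by ring, Nat.coprime_add_mul_right_left]
  by_cases h : n.Coprime (6 * δ)
  · rw [if_pos h, if_pos (h1.2 h), jacobiSym.mod_right D (odd_of_cop (h1.2 h)),
      jacobiSym.mod_right D (odd_of_cop h)]
    congr 1
    obtain ⟨k, hk⟩ := h4
    rw [hk, Nat.add_mul_mod_self_left]
  · rw [if_neg h, if_neg (fun h' => h (h1.1 h'))]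

lemma cv_bound {D : ℤ} {δ : ℕ} (h0 : 0 < δ) (h4 : 4 * D.natAbs ∣ 48 * δ)
    (hc : ∃ c : ℕ, c.Coprime (48 * δ) ∧ jacobiSym D c = -1) (n : ℕ) :
    |∑ i ∈ range n, (cv D δ i : ℝ)| ≤ (48 * δ : ℕ) := by
  obtain ⟨c, hc, hJ⟩ := hc
  refine period_bound (fun i => (cv D δ i : ℝ)) (48 * δ) (by omega)
    (fun m => by simp only [cv_per h4]) ?_ (fun m => cv_abs D δ m) n
  have hcc : c.Coprime (6 * δ) := Nat.Coprime.coprime_dvd_right ⟨8, by ring⟩ hc
  have hcv : cv D δ c = -1 := by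
    unfold cv
    rw [if_pos hcc, hJ]
  have hinj : Set.InjOn (fun i => (c * i) % (48 * δ)) (range (48 * δ) : Set ℕ) := by
    intro i hi j hj hij
    have hi' : i < 48 * δ := by simpa using hi
    have hj' : j < 48 * δ := by simpa using hj
    have h1 : c * i ≡ c * j [MOD (48 * δ)] := hij
    have h2 : i ≡ j [MOD (48 * δ)] := Nat.ModEq.cancel_left_of_coprime (by
      rw [Nat.gcd_comm]; exact hc) h1
    exact Nat.ModEq.eq_of_lt_of_lt h2 hi' hj'
  have himg : (range (48 * δ)).image (fun i => (c * i) % (48 * δ)) = range (48 * δ) := by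
    apply Finset.eq_of_subset_of_card_le
    · intro x hx
      obtain ⟨i, -, rfl⟩ := mem_image.1 hx
      exact mem_range.2 (Nat.mod_lt _ (by omega))
    · rw [card_image_of_injOn hinj]
  have hper : Function.Periodic (fun i => cv D δ i) (48 * δ) := fun i => cv_per h4 i
  have h1 : ∑ i ∈ range (48 * δ), (cv D δ i : ℝ) = -∑ i ∈ range (48 * δ), (cv D δ i : ℝ) := by
    conv_lhs => rw [← himg]
    rw [sum_image (fun i hi j hj hij => hinj hi hj hij), ← sum_neg_distrib]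
    refine sum_congr rfl fun i _ => ?_
    have h2 : cv D δ ((c * i) % (48 * δ)) = cv D δ (c * i) := hper.map_mod_nat _
    rw [h2, cv_mul, hcv]
    push_cast
    ring
  linarith

/-- `cv` as an arithmetic function -/
noncomputable def cf (D : ℤ) (δ : ℕ) : ArithmeticFunction ℤ := ⟨cv D δ, cv_zero D δ⟩

lemma cf_apply (D : ℤ) (δ n : ℕ) : cf D δ n = cv D δ n := rfl

lemma cf_mult (D : ℤ) (δ : ℕ) : (cf D δ).IsMultiplicative :=
  ⟨cv_one D δ, fun {m n} _ => cv_mul D δ m n⟩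

lemma cf_pp (D : ℤ) (δ p i : ℕ) : cf D δ (p ^ i) = cv D δ p ^ i := cv_pow D δ p i

lemma conv_pp (f g : ArithmeticFunction ℤ) {p : ℕ} (hp : p.Prime) (e : ℕ) :
    (f * g) (p ^ e) = ∑ i ∈ range (e + 1), f (p ^ i) * g (p ^ (e - i)) := by
  rw [ArithmeticFunction.mul_apply, Nat.sum_divisorsAntidiagonal (fun a b => f a * g b),
    Nat.divisors_prime_pow hp, Finset.sum_map]
  refine sum_congr rfl fun i hi => ?_
  have hi' : i ≤ e := by simpa [Nat.lt_succ_iff] using hi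
  simp only [Function.Embedding.coeFn_mk]
  rw [Nat.pow_div hi' hp.pos]

/-- nonnegative on the powers of `p`, and at least `1` on the even powers -/
def Gd (f : ArithmeticFunction ℤ) (p : ℕ) : Prop := ∀ e, 0 ≤ f (p ^ e) ∧ (Even e → 1 ≤ f (p ^ e))

lemma Gd.mul {f g : ArithmeticFunction ℤ} {p : ℕ} (hp : p.Prime) (hf : Gd f p) (hg : Gd g p) :
    Gd (f * g) p := by
  intro e
  rw [conv_pp f g hp]
  have hnn : ∀ i ∈ range (e + 1), 0 ≤ f (p ^ i) * g (p ^ (e - i)) := fun i _ =>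
    mul_nonneg (hf i).1 (hg _).1
  refine ⟨sum_nonneg hnn, fun he => ?_⟩
  refine le_trans ?_ (single_le_sum hnn (mem_range.2 (Nat.succ_pos e)))
  rw [Nat.sub_zero]
  have h1 := (hf 0).2 Even.zero
  have h2 := (hg e).2 he
  nlinarith

lemma pair_opp {f g : ArithmeticFunction ℤ} {p : ℕ} (hp : p.Prime) {s t : ℤ}
    (hf : ∀ i, f (p ^ i) = s ^ i) (hg : ∀ i, g (p ^ i) = t ^ i)
    (hst : (s = 1 ∧ t = -1) ∨ (s = -1 ∧ t = 1)) : Gd (f * g) p := by
  intro e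
  rw [conv_pp f g hp]
  have h1 : ∑ i ∈ range (e + 1), f (p ^ i) * g (p ^ (e - i)) = if Even (e + 1) then 0 else 1 := by
    rcases hst with ⟨rfl, rfl⟩ | ⟨rfl, rfl⟩
    · have : ∀ i ∈ range (e + 1), f (p ^ i) * g (p ^ (e - i)) = (-1) ^ (e - i) := fun i _ => by
        rw [hf, hg, one_pow, one_mul]
      rw [sum_congr rfl this, Finset.sum_flip (fun i => (-1 : ℤ) ^ i), neg_one_geom_sum]
    · have : ∀ i ∈ range (e + 1), f (p ^ i) * g (p ^ (e - i)) = (-1) ^ i := fun i _ => by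
        rw [hf, hg, one_pow, mul_one]
      rw [sum_congr rfl this, neg_one_geom_sum]
  rw [h1]
  constructor
  · split_ifs <;> norm_num
  · intro he
    rw [if_neg (by rw [Nat.even_add_one]; exact fun h => h he)]

lemma pair_same {f g : ArithmeticFunction ℤ} {p : ℕ} (hp : p.Prime) {s : ℤ}
    (hf : ∀ i, f (p ^ i) = s ^ i) (hg : ∀ i, g (p ^ i) = s ^ i) (e : ℕ) :
    (f * g) (p ^ e) = (e + 1) * s ^ e := by
  rw [conv_pp f g hp]
  have : ∀ i ∈ range (e + 1), f (p ^ i) * g (p ^ (e - i)) = s ^ e := fun i hi => by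
    have hi' : i ≤ e := by simpa [Nat.lt_succ_iff] using hi
    rw [hf, hg, ← pow_add, Nat.add_sub_cancel' hi']
  rw [sum_congr rfl this]
  simp

variable [P : Prm]

/-- the convolution -/
noncomputable def F (δ : ℕ) : ArithmeticFunction ℤ :=
  cf 2 δ * (cf (-((2 ^ (P.b + 1) : ℕ) : ℤ)) δ * (cf (δ : ℤ) δ * cf (-((2 ^ P.b * δ : ℕ) : ℤ)) δ))

lemma F_mult (δ : ℕ) : (F δ).IsMultiplicative :=
  (cf_mult _ _).mul ((cf_mult _ _).mul ((cf_mult _ _).mul (cf_mult _ _)))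

lemma F_eq1 (δ : ℕ) : F δ = (cf 2 δ * cf (-((2 ^ (P.b + 1) : ℕ) : ℤ)) δ) *
    (cf (δ : ℤ) δ * cf (-((2 ^ P.b * δ : ℕ) : ℤ)) δ) := by
  unfold F
  ring

lemma F_eq2 (δ : ℕ) : F δ = (cf 2 δ * cf (δ : ℤ) δ) *
    (cf (-((2 ^ (P.b + 1) : ℕ) : ℤ)) δ * cf (-((2 ^ P.b * δ : ℕ) : ℤ)) δ) := by
  unfold F
  ring

/-- the killing primes -/
def Kl (δ p : ℕ) : Prop := 5 ≤ p ∧ p % 8 = c0 ∧ J p δ = -1

omit P in
lemma cop_cases {δ p : ℕ} (hp : p.Prime) (hc : p.Coprime (6 * δ)) :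
    5 ≤ p ∧ p.Coprime 2 ∧ p.Coprime δ ∧ Odd p := by
  have h2 : p.Coprime 2 := Nat.Coprime.coprime_dvd_right ⟨3 * δ, by ring⟩ hc
  have h3 : p.Coprime 3 := Nat.Coprime.coprime_dvd_right ⟨2 * δ, by ring⟩ hc
  have hd : p.Coprime δ := Nat.Coprime.coprime_dvd_right ⟨6, by ring⟩ hc
  refine ⟨?_, h2, hd, odd_of_cop hc⟩
  by_contra hlt
  have h1 := hp.two_le
  interval_cases p
  · norm_num at h2
  · norm_num at h3
  · exact absurd hp (by norm_num)

lemma vals {δ p : ℕ} (hp : p.Prime) (hc : p.Coprime (6 * δ)) :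
    ∃ a s1 s3 : ℤ, (a = 1 ∨ a = -1) ∧ (s1 = 1 ∨ s1 = -1) ∧ (s3 = 1 ∨ s3 = -1) ∧
      cv 2 δ p = s1 ∧ cv (-((2 ^ (P.b + 1) : ℕ) : ℤ)) δ p = a * s1 ∧ cv (δ : ℤ) δ p = s3 ∧
      cv (-((2 ^ P.b * δ : ℕ) : ℤ)) δ p = a * s3 ∧ (a = 1 → s1 = -1 → s3 = -1 → Kl δ p) := by
  obtain ⟨h5, h2, hd, ho⟩ := cop_cases hp hc
  refine ⟨jacobiSym (-((2 ^ P.b : ℕ) : ℤ)) p, jacobiSym 2 p, jacobiSym (δ : ℤ) p, ?_, ?_, ?_, ?_,
    ?_, ?_, ?_, ?_⟩
  · apply jacobiSym.eq_one_or_neg_one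
    rw [Int.neg_gcd, Int.gcd_natCast_natCast]
    exact (Nat.Coprime.pow_right P.b h2).symm
  · apply jacobiSym.eq_one_or_neg_one
    exact_mod_cast h2.symm
  · apply jacobiSym.eq_one_or_neg_one
    rw [Int.gcd_natCast_natCast]
    exact hd.symm
  · unfold cv; rw [if_pos hc]
  · unfold cv
    rw [if_pos hc, ← jacobiSym.mul_left]
    congr 1
    push_cast
    ring
  · unfold cv; rw [if_pos hc]
  · unfold cv
    rw [if_pos hc, ← jacobiSym.mul_left]
    congr 1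
    push_cast
    ring
  · intro ha h1 h3
    refine ⟨h5, ?_, ?_⟩
    · rw [jacobiSym.at_two ho, ZMod.χ₈_nat_eq_if_mod_eight] at h1
      have h8 : p % 8 = 3 ∨ p % 8 = 5 := by
        have := Nat.odd_iff.1 ho
        split_ifs at h1 with h4 h6
        omega
      have ho' := Nat.odd_iff.1 ho
      unfold c0
      rcases P.hb with hb | hb
      · rw [if_pos hb]
        rw [hb] at ha
        simp only [pow_zero, Nat.cast_one] at ha
        rw [jacobiSym.at_neg_one ho, ZMod.χ₄_nat_eq_if_mod_four] at ha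
        split_ifs at ha with h4 h6
        all_goals omega
      · rw [if_neg (by omega)]
        rw [hb] at ha
        simp only [pow_one, Nat.cast_ofNat] at ha
        rw [jacobiSym.at_neg_two ho, ZMod.χ₈'_nat_eq_if_mod_eight] at ha
        split_ifs at ha with h4 h6
        all_goals omega
    · unfold J
      have e : jacobiSym (-((2 ^ P.b * δ : ℕ) : ℤ)) p =
          jacobiSym (-((2 ^ P.b : ℕ) : ℤ)) p * jacobiSym (δ : ℤ) p := by
        rw [← jacobiSym.mul_left]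
        congr 1
        push_cast
        ring
      rw [e, ha, h3]
      norm_num

lemma F_gd {δ p : ℕ} (hp : p.Prime) (hc : p.Coprime (6 * δ)) (hk : ¬ Kl δ p) : Gd (F δ) p := by
  obtain ⟨a, s1, s3, ha, h1, h3, e1, e2, e3, e4, hkill⟩ := vals hp hc
  have p1 : ∀ i, cf 2 δ (p ^ i) = s1 ^ i := fun i => by rw [cf_pp, e1]
  have p2 : ∀ i, cf (-((2 ^ (P.b + 1) : ℕ) : ℤ)) δ (p ^ i) = (a * s1) ^ i := fun i => by
    rw [cf_pp, e2]
  have p3 : ∀ i, cf (δ : ℤ) δ (p ^ i) = s3 ^ i := fun i => by rw [cf_pp, e3]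
  have p4 : ∀ i, cf (-((2 ^ P.b * δ : ℕ) : ℤ)) δ (p ^ i) = (a * s3) ^ i := fun i => by
    rw [cf_pp, e4]
  rcases ha with rfl | rfl
  · rcases h1 with rfl | rfl <;> rcases h3 with rfl | rfl
    · rw [F_eq1]
      refine Gd.mul hp ?_ ?_
      · intro e
        rw [pair_same hp p1 (by simpa using p2) e]
        simp only [one_pow, mul_one]
        constructor
        · positivity
        · intro _
          have : (0 : ℤ) ≤ e := by positivity
          omega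
      · intro e
        rw [pair_same hp p3 (by simpa using p4) e]
        simp only [one_pow, mul_one]
        constructor
        · positivity
        · intro _
          have : (0 : ℤ) ≤ e := by positivity
          omega
    · rw [F_eq2]
      exact Gd.mul hp (pair_opp hp p1 p3 (Or.inl ⟨rfl, rfl⟩))
        (pair_opp hp p2 p4 (Or.inl ⟨by norm_num, by norm_num⟩))
    · rw [F_eq2]
      exact Gd.mul hp (pair_opp hp p1 p3 (Or.inr ⟨rfl, rfl⟩))
        (pair_opp hp p2 p4 (Or.inr ⟨by norm_num, by norm_num⟩))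
    · exact absurd (hkill rfl rfl rfl) hk
  · rw [F_eq1]
    refine Gd.mul hp (pair_opp hp p1 p2 ?_) (pair_opp hp p3 p4 ?_)
    · rcases h1 with rfl | rfl
      · exact Or.inl ⟨rfl, by norm_num⟩
      · exact Or.inr ⟨rfl, by norm_num⟩
    · rcases h3 with rfl | rfl
      · exact Or.inl ⟨rfl, by norm_num⟩
      · exact Or.inr ⟨rfl, by norm_num⟩

lemma F_even {δ p : ℕ} (hp : p.Prime) (hc : p.Coprime (6 * δ)) (e : ℕ) : 1 ≤ F δ (p ^ (2 * e)) := by
  by_cases hk : Kl δ p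
  · obtain ⟨a, s1, s3, ha, h1, h3, e1, e2, e3, e4, -⟩ := vals hp hc
    have p1 : ∀ i, cf 2 δ (p ^ i) = s1 ^ i := fun i => by rw [cf_pp, e1]
    have p2 : ∀ i, cf (-((2 ^ (P.b + 1) : ℕ) : ℤ)) δ (p ^ i) = (a * s1) ^ i := fun i => by
      rw [cf_pp, e2]
    have p3 : ∀ i, cf (δ : ℤ) δ (p ^ i) = s3 ^ i := fun i => by rw [cf_pp, e3]
    have p4 : ∀ i, cf (-((2 ^ P.b * δ : ℕ) : ℤ)) δ (p ^ i) = (a * s3) ^ i := fun i => by
      rw [cf_pp, e4]
    rcases ha with rfl | rfl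
    · rcases h1 with rfl | rfl <;> rcases h3 with rfl | rfl
      · rw [F_eq1, conv_pp _ _ hp]
        have : ∀ i ∈ range (2 * e + 1), (1 : ℤ) ≤
            (cf 2 δ * cf (-((2 ^ (P.b + 1) : ℕ) : ℤ)) δ) (p ^ i) *
              (cf (δ : ℤ) δ * cf (-((2 ^ P.b * δ : ℕ) : ℤ)) δ) (p ^ (2 * e - i)) := fun i hi => by
          rw [pair_same hp p1 (by simpa using p2), pair_same hp p3 (by simpa using p4)]
          simp only [one_pow, mul_one]
          have h1 : (1 : ℤ) ≤ (i : ℤ) + 1 := by omega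
          have h2 : (1 : ℤ) ≤ ((2 * e - i : ℕ) : ℤ) + 1 := by omega
          nlinarith
        refine le_trans (this 0 (by simp)) (single_le_sum (f := fun i =>
          (cf 2 δ * cf (-((2 ^ (P.b + 1) : ℕ) : ℤ)) δ) (p ^ i) *
              (cf (δ : ℤ) δ * cf (-((2 ^ P.b * δ : ℕ) : ℤ)) δ) (p ^ (2 * e - i)))
          (fun i hi => le_trans zero_le_one (this i hi)) (by simp))
      · rw [F_eq2]
        exact (Gd.mul hp (pair_opp hp p1 p3 (Or.inl ⟨rfl, rfl⟩))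
          (pair_opp hp p2 p4 (Or.inl ⟨by norm_num, by norm_num⟩)) (2 * e)).2 (even_two_mul e)
      · rw [F_eq2]
        exact (Gd.mul hp (pair_opp hp p1 p3 (Or.inr ⟨rfl, rfl⟩))
          (pair_opp hp p2 p4 (Or.inr ⟨by norm_num, by norm_num⟩)) (2 * e)).2 (even_two_mul e)
      · rw [F_eq1, conv_pp _ _ hp]
        have : ∀ i ∈ range (2 * e + 1), (1 : ℤ) ≤
            (cf 2 δ * cf (-((2 ^ (P.b + 1) : ℕ) : ℤ)) δ) (p ^ i) *
              (cf (δ : ℤ) δ * cf (-((2 ^ P.b * δ : ℕ) : ℤ)) δ) (p ^ (2 * e - i)) := fun i hi => by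
          rw [pair_same hp p1 (by simpa using p2), pair_same hp p3 (by simpa using p4)]
          have hi' : i ≤ 2 * e := by simpa [Nat.lt_succ_iff] using hi
          have h4 : (-1 : ℤ) ^ i * (-1) ^ (2 * e - i) = 1 := by
            rw [← pow_add, show i + (2 * e - i) = 2 * e by omega, pow_mul]; norm_num
          have h1 : (1 : ℤ) ≤ (i : ℤ) + 1 := by omega
          have h2 : (1 : ℤ) ≤ ((2 * e - i : ℕ) : ℤ) + 1 := by omega
          calc (1 : ℤ) ≤ ((i : ℤ) + 1) * (((2 * e - i : ℕ) : ℤ) + 1) := by nlinarith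
            _ = ((i : ℤ) + 1) * (((2 * e - i : ℕ) : ℤ) + 1) * ((-1 : ℤ) ^ i * (-1) ^ (2 * e - i)) := by
                rw [h4, mul_one]
            _ = _ := by ring
        refine le_trans (this 0 (by simp)) (single_le_sum (f := fun i =>
          (cf 2 δ * cf (-((2 ^ (P.b + 1) : ℕ) : ℤ)) δ) (p ^ i) *
              (cf (δ : ℤ) δ * cf (-((2 ^ P.b * δ : ℕ) : ℤ)) δ) (p ^ (2 * e - i)))
          (fun i hi => le_trans zero_le_one (this i hi)) (by simp))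
    · rw [F_eq1]
      refine (Gd.mul hp (pair_opp hp p1 p2 ?_) (pair_opp hp p3 p4 ?_) (2 * e)).2 (even_two_mul e)
      · rcases h1 with rfl | rfl
        · exact Or.inl ⟨rfl, by norm_num⟩
        · exact Or.inr ⟨rfl, by norm_num⟩
      · rcases h3 with rfl | rfl
        · exact Or.inl ⟨rfl, by norm_num⟩
        · exact Or.inr ⟨rfl, by norm_num⟩
  · exact (F_gd hp hc hk (2 * e)).2 (even_two_mul e)

lemma F_bad {δ p : ℕ} (hp : p.Prime) (hc : ¬ p.Coprime (6 * δ)) (e : ℕ) : 0 ≤ F δ (p ^ e) := by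
  have h0 : ∀ D : ℤ, ∀ i, 0 ≤ cf D δ (p ^ i) := fun D i => by
    rw [cf_pp]
    unfold cv
    rw [if_neg hc]
    exact pow_nonneg le_rfl _
  have hm : ∀ f g : ArithmeticFunction ℤ, (∀ i, 0 ≤ f (p ^ i)) → (∀ i, 0 ≤ g (p ^ i)) →
      ∀ i, 0 ≤ (f * g) (p ^ i) := fun f g hf hg i => by
    rw [conv_pp f g hp]
    exact sum_nonneg fun j _ => mul_nonneg (hf j) (hg _)
  exact hm _ _ (h0 _) (hm _ _ (h0 _) (hm _ _ (h0 _) (h0 _))) e

lemma F_nonneg {δ : ℕ} (y : ℕ) (hy : ∀ p : ℕ, p.Prime → p ≤ y → ¬ Kl δ p) (n : ℕ) (hn : n ≤ y) :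
    0 ≤ F δ n := by
  rcases Nat.eq_zero_or_pos n with rfl | hpos
  · simp
  · rw [(F_mult δ).multiplicative_factorization _ hpos.ne']
    refine prod_nonneg fun p hp => ?_
    have hp' : p.Prime := Nat.prime_of_mem_primeFactors (by simpa using hp)
    have hple : p ≤ n := Nat.le_of_mem_primeFactors (by simpa using hp)
    by_cases hc : p.Coprime (6 * δ)
    · exact (F_gd hp' hc (hy p hp' (hple.trans hn)) _).1
    · exact F_bad hp' hc _

lemma F_sq {δ : ℕ} (m : ℕ) (hm : 0 < m) (hc : m.Coprime (6 * δ)) : 1 ≤ F δ (m ^ 2) := by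
  rw [(F_mult δ).multiplicative_factorization _ (by positivity)]
  refine Finset.prod_induction _ (fun x : ℤ => 1 ≤ x) (fun a b ha hb => by nlinarith) le_rfl ?_
  intro p hp
  have hp0 : p ∈ (m ^ 2).primeFactors := by rwa [Nat.support_factorization] at hp
  have hp' : p.Prime := Nat.prime_of_mem_primeFactors hp0
  have hpm : p ∣ m := hp'.dvd_of_dvd_pow (Nat.dvd_of_mem_primeFactors hp0)
  have he : (m ^ 2).factorization p = 2 * m.factorization p := by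
    rw [Nat.factorization_pow]; simp
  rw [he]
  exact F_even hp' (Nat.Coprime.coprime_dvd_left hpm hc) _

/-! ### The two estimates -/

lemma bounds (δ : ℕ) (h1 : δ % 2 = 1) (hsf : Squarefree δ) (hne : δ ≠ 1) (n : ℕ) :
    |∑ i ∈ range n, (cf 2 δ i : ℝ)| ≤ (48 * δ : ℕ) ∧
    |∑ i ∈ range n, (cf (-((2 ^ (P.b + 1) : ℕ) : ℤ)) δ i : ℝ)| ≤ (48 * δ : ℕ) ∧
    |∑ i ∈ range n, (cf (δ : ℤ) δ i : ℝ)| ≤ (48 * δ : ℕ) ∧
    |∑ i ∈ range n, (cf (-((2 ^ P.b * δ : ℕ) : ℤ)) δ i : ℝ)| ≤ (48 * δ : ℕ) := by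
  have h0 : 0 < δ := by omega
  have hm0 : NeZero (48 * δ) := ⟨by omega⟩
  have hnsq : ¬ IsSquare δ := by
    rintro ⟨x, hx⟩
    have := hsf x ⟨1, by rw [hx, mul_one]⟩
    rw [Nat.isUnit_iff] at this
    apply hne
    rw [hx, this]
  obtain ⟨c, hc8, hcJ⟩ := Pool.Agent.H413R3.OddL.STRL.exists_c (m := 48 * δ) (D := δ)
    ⟨6 * δ, by ring⟩ ⟨48, by ring⟩ h1 hnsq
  set w := (c : ZMod (48 * δ)).val with hw
  have hwc : w.Coprime (48 * δ) := ZMod.val_coe_unit_coprime c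
  have hwo : Odd w := Nat.odd_iff.2 (by omega)
  have hJd : jacobiSym (δ : ℤ) w = -1 := by
    have h2 : jacobiSym (w : ℤ) δ = -1 := hcJ
    rw [← h2]
    exact (jacobiSym.quadratic_reciprocity_one_mod_four (by omega) (Nat.odd_iff.2 h1)).symm
  have hco : ∀ j : ℕ, Nat.Coprime (1 + 12 * δ) (48 * δ) := fun _ => by
    have e : 48 * δ = 16 * (3 * δ) := by ring
    rw [e]
    refine Nat.Coprime.mul_right ?_ ?_
    · rw [show (16 : ℕ) = 2 ^ 4 by norm_num]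
      apply Nat.Coprime.pow_right
      rw [Nat.coprime_two_right]
      exact ⟨6 * δ, by ring⟩
    · rw [show 1 + 12 * δ = 1 + 4 * (3 * δ) by ring, Nat.coprime_add_mul_right_left]
      simp
  have hco2 : Nat.Coprime (1 + 6 * δ) (48 * δ) := by
    have e : 48 * δ = 16 * (3 * δ) := by ring
    rw [e]
    refine Nat.Coprime.mul_right ?_ ?_
    · rw [show (16 : ℕ) = 2 ^ 4 by norm_num]
      apply Nat.Coprime.pow_right
      rw [Nat.coprime_two_right]
      exact ⟨3 * δ, by ring⟩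
    · rw [show 1 + 6 * δ = 1 + 2 * (3 * δ) by ring, Nat.coprime_add_mul_right_left]
      simp
  have ho1 : Odd (1 + 12 * δ) := ⟨6 * δ, by ring⟩
  have ho2 : Odd (1 + 6 * δ) := ⟨3 * δ, by ring⟩
  have h2' : jacobiSym 2 (1 + 12 * δ) = -1 := by
    rw [jacobiSym.at_two ho1, ZMod.χ₈_nat_eq_if_mod_eight, if_neg (by omega), if_neg (by omega)]
  refine ⟨cv_bound h0 ⟨6 * δ, by simp; ring⟩ ⟨_, hco 0, h2'⟩ n, ?_, ?_, ?_⟩
  · rcases P.hb with hb | hb
    · rw [hb]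
      refine cv_bound h0 ⟨6 * δ, by simp; ring⟩ ⟨_, hco 0, ?_⟩ n
      simp only [zero_add, pow_one, Nat.cast_ofNat]
      rw [jacobiSym.at_neg_two ho1, ZMod.χ₈'_nat_eq_if_mod_eight, if_neg (by omega),
        if_neg (by omega)]
    · rw [hb]
      refine cv_bound h0 ⟨3 * δ, by simp; ring⟩ ⟨_, hco2, ?_⟩ n
      have e : (-((2 ^ (1 + 1) : ℕ) : ℤ)) = -1 * (2 * 2) := by norm_num
      rw [e, jacobiSym.mul_left, jacobiSym.mul_left, jacobiSym.at_neg_one ho2, jacobiSym.at_two ho2,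
        ZMod.χ₄_nat_three_mod_four (by omega), ZMod.χ₈_nat_eq_if_mod_eight]
      split_ifs
      all_goals first | omega | norm_num
  · refine cv_bound h0 ⟨12, by simp; ring⟩ ⟨w, hwc, hJd⟩ n
  · have e : (-((2 ^ P.b * δ : ℕ) : ℤ)) = -1 * (2 ^ P.b * (δ : ℤ)) := by push_cast; ring
    refine cv_bound h0 ?_ ⟨w, hwc, ?_⟩ n
    · rw [Int.natAbs_neg, Int.natAbs_natCast]
      rcases P.hb with hb | hb
      · rw [hb]; exact ⟨12, by ring⟩
      · rw [hb]; exact ⟨6, by ring⟩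
    · rw [e, jacobiSym.mul_left, jacobiSym.mul_left, jacobiSym.pow_left, hJd,
        jacobiSym.at_neg_one hwo, jacobiSym.at_two hwo, ZMod.χ₄_nat_one_mod_four (by omega),
        ZMod.χ₈_nat_eq_if_mod_eight, if_neg (by omega), if_pos (by omega)]
      norm_num

lemma upper (δ : ℕ) (h1 : δ % 2 = 1) (hsf : Squarefree δ) (hne : δ ≠ 1) (y : ℕ) (hy : 1 ≤ y) :
    ∑ n ∈ range (y + 1), (F δ n : ℝ) * Lw y 5 n ≤
      (2 * (48 * δ : ℕ) * (1 + Real.log (y + 1))) ^ 4 * (120 * Real.log y) :=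
  four_bound hy _ _ _ _ (fun n => (bounds δ h1 hsf hne n).1) (fun n => (bounds δ h1 hsf hne n).2.1)
    (fun n => (bounds δ h1 hsf hne n).2.2.1) (fun n => (bounds δ h1 hsf hne n).2.2.2)

omit P in
lemma Lw_nonneg (y k : ℕ) (x : ℝ) : 0 ≤ Lw y k x := pow_nonneg (le_max_right _ _) _

lemma lower (δ : ℕ) (h1 : δ % 2 = 1) (T : ℕ)
    (hy : ∀ p : ℕ, p.Prime → p ≤ 108 * δ ^ 2 * T ^ 2 → ¬ Kl δ p) :
    (T : ℝ) ≤ ∑ n ∈ range (108 * δ ^ 2 * T ^ 2 + 1), (F δ n : ℝ) * Lw (108 * δ ^ 2 * T ^ 2) 5 n := by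
  set y := 108 * δ ^ 2 * T ^ 2 with hyd
  have h0 : 0 < δ := by omega
  have hm : ∀ j, j < T → 3 * (6 * δ * j + 1) ^ 2 ≤ y := fun j hj => by
    have h3 : 6 * δ * j + 1 ≤ 6 * δ * T := by nlinarith
    calc 3 * (6 * δ * j + 1) ^ 2 ≤ 3 * (6 * δ * T) ^ 2 :=
          Nat.mul_le_mul_left _ (Nat.pow_le_pow_left h3 2)
      _ = y := by rw [hyd]; ring
  have hinj : Set.InjOn (fun j => (6 * δ * j + 1) ^ 2) (range T : Set ℕ) := by
    intro i _ j _ hij
    have h3 : 6 * δ * i + 1 = 6 * δ * j + 1 := Nat.pow_left_injective (n := 2) (by norm_num) hij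
    have h4 : 6 * δ * i = 6 * δ * j := by omega
    exact Nat.eq_of_mul_eq_mul_left (by omega) h4
  have hsub : (range T).image (fun j => (6 * δ * j + 1) ^ 2) ⊆ range (y + 1) := by
    intro n hn
    obtain ⟨j, hj, rfl⟩ := mem_image.1 hn
    have := hm j (by simpa using hj)
    simp only [mem_range]
    omega
  have hnn : ∀ n ∈ range (y + 1), 0 ≤ (F δ n : ℝ) * Lw y 5 n := fun n hn => by
    have : 0 ≤ F δ n := F_nonneg y hy n (by simpa [Nat.lt_succ_iff] using hn)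
    have h' : (0 : ℝ) ≤ F δ n := by exact_mod_cast this
    exact mul_nonneg h' (Lw_nonneg _ _ _)
  refine le_trans ?_ (sum_le_sum_of_subset_of_nonneg hsub (fun n hn _ => hnn n hn))
  rw [sum_image (fun i hi j hj hij => hinj hi hj hij)]
  have hterm : ∀ j ∈ range T, (1 : ℝ) ≤
      (F δ ((6 * δ * j + 1) ^ 2) : ℝ) * Lw y 5 (((6 * δ * j + 1) ^ 2 : ℕ) : ℝ) := by
    intro j hj
    have h3 := hm j (by simpa using hj)
    have h5 : 1 ≤ F δ ((6 * δ * j + 1) ^ 2) := F_sq _ (by omega) (by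
      rw [show 6 * δ * j + 1 = 1 + j * (6 * δ) by ring, Nat.coprime_add_mul_right_left]
      simp)
    have h6 : (1 : ℝ) ≤ F δ ((6 * δ * j + 1) ^ 2) := by exact_mod_cast h5
    have h7 : (1 : ℝ) ≤ Lw y 5 (((6 * δ * j + 1) ^ 2 : ℕ) : ℝ) := by
      unfold Lw
      apply one_le_pow₀
      apply le_trans _ (le_max_left _ _)
      have h8 : (0 : ℝ) < (((6 * δ * j + 1) ^ 2 : ℕ) : ℝ) := by positivity
      rw [Real.le_log_iff_exp_le (by
        apply div_pos _ h8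
        have h12 : 0 < (6 * δ * j + 1) ^ 2 := by positivity
        have : 0 < y := by omega
        exact_mod_cast this)]
      rw [le_div_iff₀ h8]
      have h9 : (3 : ℝ) * (((6 * δ * j + 1) ^ 2 : ℕ) : ℝ) ≤ y := by exact_mod_cast h3
      have h10 : Real.exp 1 ≤ 3 := by
        have := Real.exp_one_lt_d9
        linarith
      nlinarith
    nlinarith
  calc (T : ℝ) = ∑ j ∈ range T, (1 : ℝ) := by simp
    _ ≤ _ := sum_le_sum hterm

lemma exists_prime (δ : ℕ) (h1 : δ % 2 = 1) (hsf : Squarefree δ) (hne : δ ≠ 1) :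
    ∃ p : ℕ, p.Prime ∧ p ≤ 108 * δ ^ 2 * (2 ^ 140 * δ ^ 9) ^ 2 ∧ Kl δ p := by
  by_contra hno
  have hy : ∀ p : ℕ, p.Prime → p ≤ 108 * δ ^ 2 * (2 ^ 140 * δ ^ 9) ^ 2 → ¬ Kl δ p :=
    fun p hp hle hab => hno ⟨p, hp, hle, hab⟩
  have h0 : 0 < δ := by omega
  have h2 := lower δ h1 _ hy
  set y := 108 * δ ^ 2 * (2 ^ 140 * δ ^ 9) ^ 2 with hyd
  have hy1 : 1 ≤ y := by
    have : 0 < y := by positivity
    exact this
  have h3 := h2.trans (upper δ h1 hsf hne y hy1)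
  have hd : (1 : ℝ) ≤ δ := by exact_mod_cast h0
  have hlog : Real.log ((y : ℝ) + 1) ≤ 2 ^ 20 * δ - 1 := by
    have h6 : (y : ℝ) + 1 ≤ (2 ^ 15 * (δ : ℝ)) ^ 20 := by
      have h7 : (1 : ℝ) ≤ (δ : ℝ) ^ 20 := one_le_pow₀ hd
      have h8 : (y : ℝ) = 108 * (2 ^ 140) ^ 2 * (δ : ℝ) ^ 20 := by
        rw [hyd]
        push_cast
        ring
      have h9 : (2 ^ 15 * (δ : ℝ)) ^ 20 = (2 ^ 15) ^ 20 * (δ : ℝ) ^ 20 := by ring
      rw [h8, h9]
      have h10 : (108 * (2 ^ 140) ^ 2 + 1 : ℝ) ≤ (2 ^ 15) ^ 20 := by norm_num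
      nlinarith
    calc Real.log ((y : ℝ) + 1)
        ≤ Real.log ((2 ^ 15 * (δ : ℝ)) ^ 20) := Real.log_le_log (by positivity) h6
      _ = 20 * Real.log (2 ^ 15 * δ) := by rw [Real.log_pow]; norm_num
      _ ≤ 20 * (2 ^ 15 * δ - 1) := by
          have := Real.log_le_sub_one_of_pos (x := 2 ^ 15 * (δ : ℝ)) (by positivity)
          linarith
      _ ≤ 2 ^ 20 * δ - 1 := by nlinarith
  have hlog2 : Real.log (y : ℝ) ≤ 2 ^ 20 * δ := by
    have : Real.log (y : ℝ) ≤ Real.log ((y : ℝ) + 1) :=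
      Real.log_le_log (by exact_mod_cast hy1) (by linarith)
    linarith
  have hlog0 : 0 ≤ Real.log ((y : ℝ) + 1) := Real.log_nonneg (by
    have : (0 : ℝ) ≤ y := Nat.cast_nonneg _
    linarith)
  have hlog1 : 0 ≤ Real.log (y : ℝ) := Real.log_nonneg (by exact_mod_cast hy1)
  have h4 : (2 * ((48 * δ : ℕ) : ℝ) * (1 + Real.log (y + 1))) ^ 4 * (120 * Real.log y) ≤
      (2 * (48 * δ) * (2 ^ 20 * δ)) ^ 4 * (120 * (2 ^ 20 * δ)) := by
    push_cast
    apply mul_le_mul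
    · apply pow_le_pow_left₀ (by positivity)
      apply mul_le_mul_of_nonneg_left (by linarith) (by positivity)
    · linarith
    · positivity
    · positivity
  have h5 := h3.trans h4
  push_cast at h5
  have h9 : (1 : ℝ) ≤ (δ : ℝ) ^ 9 := one_le_pow₀ hd
  have h10 : (2 * (48 * (δ : ℝ)) * (2 ^ 20 * δ)) ^ 4 * (120 * (2 ^ 20 * δ)) =
      (96 ^ 4 * 2 ^ 100 * 120) * (δ : ℝ) ^ 9 := by ring
  rw [h10] at h5
  have h11 : (96 ^ 4 * 2 ^ 100 * 120 : ℝ) < 2 ^ 140 := by norm_num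
  nlinarith

end KP

open KP in
/-- **a small killing prime** -/
theorem killPrime [P : Prm] : KillPrime := by
  obtain ⟨C, hC1, hC2⟩ : ∃ C : ℕ, 108 * (2 ^ 140) ^ 2 ≤ C ∧ 20 ≤ C :=
    ⟨108 * (2 ^ 140) ^ 2, le_rfl, by norm_num⟩
  refine ⟨C, fun δ hδ => ?_⟩
  obtain ⟨h1, hsf, hne⟩ := hδ
  obtain ⟨p, hp, hle, h5, h8, hJ⟩ := exists_prime δ h1 hsf hne
  refine ⟨p, hp, h5, h8, hJ, ?_⟩
  have h0 : 0 < δ := by omega
  calc p ≤ 108 * δ ^ 2 * (2 ^ 140 * δ ^ 9) ^ 2 := hle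
    _ = 108 * (2 ^ 140) ^ 2 * δ ^ 20 := by ring
    _ ≤ C * δ ^ C := Nat.mul_le_mul hC1 (Nat.pow_le_pow_right h0 hC2)

end Pool.Agent.H13.MO
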