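import Pool.Agent.H13.MO.Defs
import Pool.Graph.R_seed8.H413R3.Odd.PAP

set_option autoImplicit false

/-! Lower bound for the number of tuples in a residue class
(adapted from `Pool.Agent.H307R2.OP.T1` and `Pool.Agent.H413R3.Odd.PAP`) -/

namespace Pool.Agent.H13.MO

open Finset Pool.Agent.H307R2.OP
open Pool.Agent.H413R3.Odd (lowAP prAP)

theorem t1_mass {M : ℕ} (h2 : ESStmt) (g : Cfg M)
    (hk : ∀ j, 2 * (g.k j : ℝ) ^ 2 ≤ 2 ^ (g.κ j) * g.S j) :
    g.W / 2 ^ M ≤ ∑ A ∈ g.Fam, 1 / (g.Q A : ℝ) := by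
  have e1 : ∑ A ∈ g.Fam, 1 / (g.Q A : ℝ) =
      ∏ j, ∑ A ∈ powersetCard (g.k j) (g.Blk j), ∏ q ∈ A, (1 : ℝ) / q := by
    rw [← h2.fam M g.Blk g.k (fun q => (1 : ℝ) / q)]
    unfold Cfg.Fam Cfg.Q
    apply Finset.sum_congr rfl
    intro A _
    push_cast
    simp [Finset.prod_inv_distrib]
  have e2 : g.W / 2 ^ M = ∏ j : Fin M, (1 / 2 * (g.S j ^ g.k j / ((g.k j).factorial : ℝ))) := by
    unfold Cfg.W
    rw [Finset.prod_mul_distrib]
    simp
    ring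
  have hSn : ∀ j, 0 ≤ g.S j := fun j => by
    unfold Cfg.S
    exact Finset.sum_nonneg (fun q _ => by positivity)
  rw [e1, e2]
  apply Finset.prod_le_prod
  · intro j _
    have := hSn j
    positivity
  · intro j _
    have hτ : (0 : ℝ) < 1 / 2 ^ (g.κ j) := by positivity
    have hh : 2 * (g.k j : ℝ) ^ 2 * (1 / 2 ^ (g.κ j)) ≤ g.S j := by
      rw [mul_one_div, div_le_iff₀ (by positivity)]
      have := hk j
      linarith
    obtain ⟨h3, h4⟩ := t1_block_term (g.S j) (1 / 2 ^ (g.κ j)) (g.k j) hτ (hSn j) hh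
    refine le_trans h4 ?_
    have := h2.low (g.Blk j) (fun q => (1 : ℝ) / q) (g.k j) (1 / 2 ^ (g.κ j)) (by positivity) ?_ h3
    · exact this
    · intro q hq
      refine ⟨by positivity, ?_⟩
      unfold Cfg.Blk PB at hq
      rw [Finset.mem_sdiff, Finset.mem_filter, Finset.mem_Ioc] at hq
      have hlt : (2 : ℝ) ^ (g.κ j) ≤ q := by exact_mod_cast hq.1.1.1.le
      exact one_div_le_one_div_of_le (by positivity) hlt

/-- lower bound for the number of tuples whose number lies in a residue class -/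
theorem tupLowAP : ∃ c0 : ℝ, 0 < c0 ∧ ∃ I0 : ℕ, ∀ (M : ℕ) (g : Cfg M), g.Ok → I0 ≤ g.I →
    (∀ j, 2 * (g.k j : ℝ) ^ 2 ≤ 2 ^ (g.κ j) * g.S j) →
    ∀ (b c' : ℕ), 32 * 2 ^ b ≤ g.I ^ 2 → c' % 2 = 1 →
    (∀ A ∈ g.Fam, (g.Rp * g.Q A * g.c) % 8 = c' % 8) →
    c0 / 2 ^ b * (2 ^ g.I / (g.Rp * g.I)) * (g.W / 2 ^ M) ≤
      ((g.Tup.filter (fun t => g.N t % (8 * 2 ^ b) = c' % (8 * 2 ^ b))).card : ℝ) := by
  obtain ⟨x0, hx0⟩ := lowAP
  refine ⟨1 / 20, by norm_num, 2 * x0, ?_⟩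
  intro M g hg hI hk b c' hb hc' hcomp
  have hmass := t1_mass es g hk
  have hRpos : 0 < g.Rp := by
    unfold Cfg.Rp
    exact Finset.prod_pos (fun q hq => (hg.hR q hq).1.pos)
  have hRodd : g.Rp % 2 = 1 := by
    by_contra hcon
    have h2 : 2 ∣ g.Rp := by omega
    unfold Cfg.Rp at h2
    obtain ⟨q, hq, hq2⟩ := (Nat.prime_two.prime.dvd_finsetProd_iff (fun q : ℕ => q)).1 h2
    have h3 := (Nat.prime_dvd_prime_iff_eq Nat.prime_two (hg.hR q hq).1).1 hq2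
    have h4 := (hg.hR q hq).2.1
    omega
  have hmemBlk : ∀ A ∈ g.Fam, ∀ j, ∀ q ∈ A j, q.Prime ∧ (q % 8 = 3 ∨ q % 8 = 5) := by
    intro A hA j q hq
    unfold Cfg.Fam at hA
    rw [Fintype.mem_piFinset] at hA
    have hAj := (Finset.mem_powersetCard.mp (hA j)).1 hq
    unfold Cfg.Blk PB at hAj
    rw [Finset.mem_sdiff, Finset.mem_filter, Finset.mem_Ioc] at hAj
    exact ⟨hAj.1.2.1, by rw [hAj.1.2.2]; exact hg.hcl j⟩
  have hQpos : ∀ A ∈ g.Fam, 0 < g.Q A := by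
    intro A hA
    unfold Cfg.Q
    apply Finset.prod_pos
    intro j _
    apply Finset.prod_pos
    intro q hq
    exact (hmemBlk A hA j q hq).1.pos
  have hQodd : ∀ A ∈ g.Fam, g.Q A % 2 = 1 := by
    intro A hA
    by_contra hcon
    have h2 : 2 ∣ g.Q A := by omega
    unfold Cfg.Q at h2
    obtain ⟨j, -, hj⟩ := (Nat.prime_two.prime.dvd_finsetProd_iff _).1 h2
    obtain ⟨q, hq, hq2⟩ := (Nat.prime_two.prime.dvd_finsetProd_iff (fun q : ℕ => q)).1 hj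
    have h3 := (Nat.prime_dvd_prime_iff_eq Nat.prime_two (hmemBlk A hA j q hq).1).1 hq2
    have h4 := (hmemBlk A hA j q hq).2
    omega
  have hcard : ((g.Tup.filter (fun t => g.N t % (8 * 2 ^ b) = c' % (8 * 2 ^ b))).card : ℝ) =
      ∑ A ∈ g.Fam, (((g.Pr A).filter
        (fun p => (g.Rp * g.Q A * p) % (8 * 2 ^ b) = c' % (8 * 2 ^ b))).card : ℝ) := by
    unfold Cfg.Tup Cfg.N
    rw [Finset.card_filter, Finset.sum_sigma]
    push_cast
    refine Finset.sum_congr rfl fun A _ => ?_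
    rw [Finset.card_filter]
    push_cast
    rfl
  rw [hcard]
  have hterm : ∀ A ∈ g.Fam, 1 / 20 / 2 ^ b * (2 ^ g.I / (g.Rp * g.I)) * (1 / (g.Q A : ℝ)) ≤
      (((g.Pr A).filter
        (fun p => (g.Rp * g.Q A * p) % (8 * 2 ^ b) = c' % (8 * 2 ^ b))).card : ℝ) := by
    intro A hA
    set D := g.Rp * g.Q A with hDdef
    have hD : 1 ≤ D := Nat.mul_pos hRpos (hQpos A hA)
    have hDodd : D % 2 = 1 := by
      rw [hDdef, Nat.mul_mod, hRodd, hQodd A hA]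
    have h8 : 8 * 2 ^ b = 2 ^ (b + 3) := by rw [pow_add]; ring
    have hcop : D.Coprime (8 * 2 ^ b) := by
      rw [h8]
      apply Nat.Coprime.pow_right
      rw [Nat.coprime_two_right, Nat.odd_iff]
      exact hDodd
    -- the inverse class
    obtain ⟨a, ha⟩ : ∃ a : ℕ, (D * a) % (8 * 2 ^ b) = c' % (8 * 2 ^ b) := by
      obtain ⟨m, -, hm⟩ := Nat.exists_mul_mod_eq_of_coprime c' hcop (by positivity)
      exact ⟨m, hm⟩
    have hdvd2 : 2 ∣ 8 * 2 ^ b := ⟨4 * 2 ^ b, by ring⟩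
    have hdvd8 : 8 ∣ 8 * 2 ^ b := Dvd.intro _ rfl
    have haodd : a % 2 = 1 := by
      have h1 : (D * a) % 2 = c' % 2 := by
        rw [← Nat.mod_mod_of_dvd (D * a) hdvd2, ha, Nat.mod_mod_of_dvd _ hdvd2]
      rw [Nat.mul_mod, hDodd, hc'] at h1
      omega
    have h3 := prAP x0 g.I b a D hg.hI hI hD (hg.hRQ A hA) hb haodd hx0
    have hRr : (0 : ℝ) < g.Rp := by exact_mod_cast hRpos
    have hQr : (0 : ℝ) < g.Q A := by exact_mod_cast hQpos A hA
    have hIr : (0 : ℝ) < g.I := by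
      have : 0 < g.I := by have := hg.hI; omega
      exact_mod_cast this
    have h4 : 1 / 20 / 2 ^ b * ((2 : ℝ) ^ g.I / (g.Rp * g.I)) * (1 / (g.Q A : ℝ)) =
        1 / 20 * (2 ^ g.I / ((D : ℝ) * g.I)) / 2 ^ b := by
      rw [hDdef]
      push_cast
      field_simp
    rw [h4]
    refine h3.trans ?_
    have hsub : (Ioc (2 ^ (g.I / 2)) (2 ^ g.I / D)).filter
        (fun p => p.Prime ∧ p % (8 * 2 ^ b) = a % (8 * 2 ^ b)) ⊆
        (g.Pr A).filter (fun p => (D * p) % (8 * 2 ^ b) = c' % (8 * 2 ^ b)) := by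
      intro p hp
      rw [Finset.mem_filter] at hp
      obtain ⟨hp1, hp2, hp3⟩ := hp
      have hDp : (D * p) % (8 * 2 ^ b) = c' % (8 * 2 ^ b) := by
        rw [Nat.mul_mod, hp3, ← Nat.mul_mod]
        exact ha
      rw [Finset.mem_filter]
      refine ⟨?_, hDp⟩
      unfold Cfg.Pr
      rw [Finset.mem_filter]
      refine ⟨by rw [← hDdef]; exact hp1, hp2, ?_⟩
      have h5 : (D * p) % 8 = (D * g.c) % 8 := by
        rw [← Nat.mod_mod_of_dvd (D * p) hdvd8, hDp, Nat.mod_mod_of_dvd _ hdvd8,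
          hcomp A hA]
      have h6 : p ≡ g.c [MOD 8] := by
        apply Nat.ModEq.cancel_left_of_coprime (c := D) _ h5
        rw [Nat.gcd_comm]
        exact Nat.Coprime.coprime_dvd_right hdvd8 hcop
      have h7 : g.c < 8 := by rcases hg.hc with h | h <;> omega
      unfold Nat.ModEq at h6
      rw [h6, Nat.mod_eq_of_lt h7]
    exact_mod_cast Finset.card_le_card hsub
  calc 1 / 20 / 2 ^ b * (2 ^ g.I / (g.Rp * g.I)) * (g.W / 2 ^ M)
      ≤ 1 / 20 / 2 ^ b * (2 ^ g.I / (g.Rp * g.I)) * ∑ A ∈ g.Fam, 1 / (g.Q A : ℝ) := by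
        apply mul_le_mul_of_nonneg_left hmass
        positivity
    _ = ∑ A ∈ g.Fam, 1 / 20 / 2 ^ b * (2 ^ g.I / (g.Rp * g.I)) * (1 / (g.Q A : ℝ)) := by
        rw [Finset.mul_sum]
    _ ≤ _ := Finset.sum_le_sum hterm

end Pool.Agent.H13.MO
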