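import Pool.Agent.H13.MO.QR
import Pool.Graph.R_seed8.H413R3.OddL.STR

set_option autoImplicit false

/-! Task B-STR: three strongly biased kernels have a square product. -/

namespace Pool.Agent.H13.MO

open Pool.Agent.H307R2.OP
open Pool.Agent.H413R3.OddL.STRL (chi val_mul_mod chi_mul exists_c not_sq_mul chi_mul_right
  class_count log_facts num_end)

open Finset

variable [P : Prm]

namespace STR

/-- the units `≡ c (mod 8)` -/
def Ac (m c : ℕ) [NeZero m] : Finset (ZMod m)ˣ := univ.filter (fun u => (u : ZMod m).val % 8 = c)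

omit P in
theorem sum_chi {m D : ℕ} [NeZero m] (h8 : 8 ∣ m) (hD : D ∣ m) (hodd : D % 2 = 1)
    (hns : ¬ IsSquare D) (cc : ℕ) : ∑ u ∈ Ac m cc, chi m D u = 0 := by
  obtain ⟨c, hc1, hc2⟩ := exists_c h8 hD hodd hns
  have h1 : ∑ u ∈ Ac m cc, chi m D u = ∑ u ∈ Ac m cc, chi m D (c * u) := by
    symm
    apply Finset.sum_equiv (Equiv.mulLeft c)
    · intro u
      simp only [Ac, mem_filter, mem_univ, true_and, Equiv.coe_mulLeft]
      rw [val_mul_mod h8, Nat.mul_mod, hc1, one_mul, Nat.mod_mod]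
    · intro u _
      rfl
  have h2 : ∑ u ∈ Ac m cc, chi m D (c * u) = -∑ u ∈ Ac m cc, chi m D u := by
    rw [← Finset.sum_neg_distrib]
    refine Finset.sum_congr rfl fun u _ => ?_
    rw [chi_mul hD, hc2]
    ring
  rw [h2] at h1
  omega

omit P in
theorem card_Ac {m c : ℕ} [NeZero m] (h8 : 8 ∣ m) (hc : c % 2 = 1) (hc8 : c < 8) :
    4 * (Ac m c).card = Nat.totient m := by
  classical
  have hsurj := ZMod.unitsMap_surjective (n := 8) h8
  have hval : ∀ u : (ZMod m)ˣ, ((ZMod.unitsMap h8 u : (ZMod 8)ˣ) : ZMod 8).val =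
      (u : ZMod m).val % 8 := by
    intro u
    rw [ZMod.unitsMap_def, Units.coe_map]
    show (ZMod.castHom h8 (ZMod 8) (u : ZMod m)).val = _
    rw [ZMod.castHom_apply, ZMod.cast_eq_val, ZMod.val_natCast]
  have h5 : Nat.Coprime c 8 := by
    have : Nat.Coprime c (2 ^ 3) := Nat.Coprime.pow_right 3 (by
      rw [Nat.coprime_two_right, Nat.odd_iff]; exact hc)
    simpa using this
  have hA : Ac m c = univ.filter (fun u => ZMod.unitsMap h8 u = ZMod.unitOfCoprime c h5) := by
    ext u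
    simp only [Ac, mem_filter, mem_univ, true_and]
    rw [Units.ext_iff, ← hval, ZMod.coe_unitOfCoprime]
    constructor
    · intro h
      apply ZMod.val_injective
      rw [h, ZMod.val_natCast, Nat.mod_eq_of_lt hc8]
    · intro h
      rw [h, ZMod.val_natCast, Nat.mod_eq_of_lt hc8]
  have hfib : ∀ x : (ZMod 8)ˣ, (univ.filter (fun u => ZMod.unitsMap h8 u = x)).card =
      (Ac m c).card := by
    intro x
    rw [hA]
    exact MonoidHom.card_fiber_eq_of_mem_range _ (hsurj x) (hsurj _)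
  have hsum := Finset.card_eq_sum_card_fiberwise (s := (univ : Finset (ZMod m)ˣ))
    (t := (univ : Finset (ZMod 8)ˣ)) (f := ZMod.unitsMap h8) (fun _ _ => mem_univ _)
  rw [Finset.sum_congr rfl fun x _ => hfib x, Finset.sum_const, Finset.card_univ,
    Finset.card_univ, ZMod.card_units_eq_totient, ZMod.card_units_eq_totient] at hsum
  have : Nat.totient 8 = 4 := by decide
  rw [this, smul_eq_mul] at hsum
  exact hsum.symm

omit P in
theorem not_sq_adm {δ : ℕ} (h : AdmL δ) : ¬ IsSquare δ := by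
  rintro ⟨k, hk⟩
  have h1 : k * k ∣ δ := ⟨1, by rw [hk]; ring⟩
  have h2 := Nat.isUnit_iff.1 (h.2.1 k h1)
  exact h.2.2 (by rw [hk, h2])

omit P in
theorem neg_one_le_chi {m D : ℕ} (e : ℤ) (he : e = 1 ∨ e = -1) (u : (ZMod m)ˣ) :
    0 ≤ 1 + e * chi m D u := by
  unfold chi
  rcases jacobiSym.trichotomy (((u : ZMod m).val : ℕ) : ℤ) D with h | h | h <;> rw [h] <;>
    rcases he with he | he <;> rw [he] <;> norm_num

omit P in
theorem card_T {m a b c k : ℕ} [NeZero m] (h8 : 8 ∣ m) (hd : a * b * c ∣ m)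
    (ha : AdmL a) (hb : AdmL b) (hc : AdmL c) (hab : a ≠ b) (hac : a ≠ c) (hbc : b ≠ c)
    (habc : ¬ IsSquare (a * b * c)) (hk : k % 2 = 1) (hk8 : k < 8) (ea eb ec : ℤ)
    (hea : ea = 1 ∨ ea = -1) (heb : eb = 1 ∨ eb = -1) (hec : ec = 1 ∨ ec = -1) :
    32 * (((Ac m k).filter (fun u => ea * chi m a u = 1 ∧ eb * chi m b u = 1 ∧
      ec * chi m c u = 1)).card) ≤ Nat.totient m := by
  have ha1 := ha.1
  have hb1 := hb.1
  have hc1 := hc.1
  have ha0 : a ≠ 0 := by omega
  have hb0 : b ≠ 0 := by omega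
  have hc0 : c ≠ 0 := by omega
  have hmod2 : ∀ x y : ℕ, x % 2 = 1 → y % 2 = 1 → (x * y) % 2 = 1 := by
    intro x y hx hy
    rw [Nat.mul_mod, hx, hy]
  have s1 := sum_chi (m := m) (D := a) h8 (Dvd.dvd.trans ⟨b * c, by ring⟩ hd) (by omega)
    (not_sq_adm ha) k
  have s2 := sum_chi (m := m) (D := b) h8 (Dvd.dvd.trans ⟨a * c, by ring⟩ hd) (by omega)
    (not_sq_adm hb) k
  have s3 := sum_chi (m := m) (D := c) h8 (Dvd.dvd.trans ⟨a * b, by ring⟩ hd) (by omega)
    (not_sq_adm hc) k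
  have s4 := sum_chi (m := m) (D := a * b) h8 (Dvd.dvd.trans ⟨c, by ring⟩ hd)
    (hmod2 a b ha1 hb1) (not_sq_mul ha.2.1 hb.2.1 hab ha0) k
  have s5 := sum_chi (m := m) (D := a * c) h8 (Dvd.dvd.trans ⟨b, by ring⟩ hd)
    (hmod2 a c ha1 hc1) (not_sq_mul ha.2.1 hc.2.1 hac ha0) k
  have s6 := sum_chi (m := m) (D := b * c) h8 (Dvd.dvd.trans ⟨a, by ring⟩ hd)
    (hmod2 b c hb1 hc1) (not_sq_mul hb.2.1 hc.2.1 hbc hb0) k
  have s7 := sum_chi (m := m) (D := a * b * c) h8 hd (hmod2 _ c (hmod2 a b ha1 hb1) hc1) habc k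
  have key : ∑ u ∈ Ac m k, (1 + ea * chi m a u) * (1 + eb * chi m b u) * (1 + ec * chi m c u) =
      ((Ac m k).card : ℤ) := by
    have e1 : ∀ u ∈ Ac m k, (1 + ea * chi m a u) * (1 + eb * chi m b u) * (1 + ec * chi m c u) =
        1 + (ea * chi m a u + (eb * chi m b u + (ec * chi m c u + (ea * eb * chi m (a * b) u +
          (ea * ec * chi m (a * c) u +
          (eb * ec * chi m (b * c) u + ea * eb * ec * chi m (a * b * c) u)))))) := by
      intro u _
      rw [chi_mul_right (mul_ne_zero ha0 hb0) hc0, chi_mul_right ha0 hb0, chi_mul_right ha0 hc0,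
        chi_mul_right hb0 hc0]
      ring
    rw [Finset.sum_congr rfl e1]
    simp only [Finset.sum_add_distrib, ← Finset.mul_sum]
    rw [s1, s2, s3, s4, s5, s6, s7]
    simp
  have h1 : (8 * (((Ac m k).filter (fun u => ea * chi m a u = 1 ∧ eb * chi m b u = 1 ∧
      ec * chi m c u = 1)).card) : ℤ) ≤ ((Ac m k).card : ℤ) := by
    rw [← key]
    calc (8 * (((Ac m k).filter (fun u => ea * chi m a u = 1 ∧ eb * chi m b u = 1 ∧
          ec * chi m c u = 1)).card) : ℤ)
        = ∑ u ∈ (Ac m k).filter (fun u => ea * chi m a u = 1 ∧ eb * chi m b u = 1 ∧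
            ec * chi m c u = 1),
            (1 + ea * chi m a u) * (1 + eb * chi m b u) * (1 + ec * chi m c u) := by
          rw [Finset.sum_congr rfl (g := fun _ => (8 : ℤ))]
          · rw [Finset.sum_const, nsmul_eq_mul]
            ring
          · intro u hu
            obtain ⟨-, h1, h2, h3⟩ := mem_filter.1 hu
            rw [h1, h2, h3]
            norm_num
      _ ≤ _ := by
          apply Finset.sum_le_sum_of_subset_of_nonneg (filter_subset _ _)
          intro u _ _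
          have h1 := neg_one_le_chi (m := m) (D := a) ea hea u
          have h2 := neg_one_le_chi (m := m) (D := b) eb heb u
          have h3 := neg_one_le_chi (m := m) (D := c) ec hec u
          positivity
  have h2 := card_Ac (m := m) h8 hk hk8
  have h3 : 8 * (((Ac m k).filter (fun u => ea * chi m a u = 1 ∧ eb * chi m b u = 1 ∧
      ec * chi m c u = 1)).card) ≤ (Ac m k).card := by exact_mod_cast h1
  omega

theorem card_biased {i δ : ℕ} (h : StrongAt i δ) :
    20 * (((PB i c0).filter (fun p => J p δ = -1)).card : ℝ) ≤ ((PB i c0).card : ℝ) := by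
  have hX : (0 : ℝ) < 2 ^ i := by positivity
  have h1 : (((PB i c0).filter (fun p => J p δ = -1)).card : ℝ) * (1 / (2 * 2 ^ i)) ≤
      ∑ p ∈ (PB i c0).filter (fun p => J p δ = -1), (1 : ℝ) / p := by
    rw [← nsmul_eq_mul, ← Finset.sum_const]
    apply Finset.sum_le_sum
    intro p hp
    have h2 := (mem_filter.1 (mem_filter.1 hp).1).1
    rw [mem_Ioc] at h2
    have h3 : (p : ℝ) ≤ 2 * 2 ^ i := by
      have : (p : ℝ) ≤ ((2 ^ (i + 1) : ℕ) : ℝ) := by exact_mod_cast h2.2
      rw [pow_succ] at this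
      push_cast at this
      linarith
    have h4 : (0 : ℝ) < p := by
      have : 0 < p := lt_of_le_of_lt (Nat.zero_le _) h2.1
      exact_mod_cast this
    exact one_div_le_one_div_of_le h4 h3
  have h2 : ∑ p ∈ PB i c0, (1 : ℝ) / p ≤ ((PB i c0).card : ℝ) * (1 / 2 ^ i) := by
    rw [← nsmul_eq_mul, ← Finset.sum_const]
    apply Finset.sum_le_sum
    intro p hp
    have h2 := (mem_filter.1 hp).1
    rw [mem_Ioc] at h2
    have h3 : (2 : ℝ) ^ i ≤ p := by
      have : ((2 ^ i : ℕ) : ℝ) ≤ p := by exact_mod_cast h2.1.le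
      push_cast at this
      exact this
    exact one_div_le_one_div_of_le hX h3
  unfold StrongAt at h
  have h3 : (((PB i c0).filter (fun p => J p δ = -1)).card : ℝ) * (1 / (2 * 2 ^ i)) ≤
      1 / 40 * (((PB i c0).card : ℝ) * (1 / 2 ^ i)) := by linarith
  have h4 : (((PB i c0).filter (fun p => J p δ = -1)).card : ℝ) * (1 / (2 * 2 ^ i)) =
      ((((PB i c0).filter (fun p => J p δ = -1)).card : ℝ) / 2) * (1 / 2 ^ i) := by
    field_simp
  have h5 : 1 / 40 * (((PB i c0).card : ℝ) * (1 / 2 ^ i)) =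
      (((PB i c0).card : ℝ) / 40) * (1 / 2 ^ i) := by ring
  rw [h4, h5] at h3
  have h6 := le_of_mul_le_mul_right h3 (by positivity)
  linarith

theorem J_val {i Δ δ p : ℕ} (hΔ : Δ ≤ 2 ^ i) (hδ : δ ≤ Δ) (hA : AdmL δ) (hp : p ∈ PB i c0) :
    Nat.Coprime p δ ∧ (J p δ = 1 ∨ J p δ = -1) := by
  have h1 := (mem_filter.1 hp)
  have h2 := mem_Ioc.1 h1.1
  have hδ0 : 0 < δ := by have := hA.1; omega
  have hcop : Nat.Coprime p δ := by
    rw [Nat.Prime.coprime_iff_not_dvd h1.2.1]
    intro h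
    have := Nat.le_of_dvd hδ0 h
    omega
  refine ⟨hcop, ?_⟩
  have h3 : (p : ℤ).gcd δ = 1 := by exact_mod_cast hcop
  have hc : (c0 : ℕ) % 2 = 1 ∧ c0 < 8 := by rcases c0_35 with h | h <;> rw [h] <;> norm_num
  rw [J_eq hA.1 hc.1 (by rw [h1.2.2, Nat.mod_eq_of_lt hc.2])]
  unfold Pool.Agent.H307R2.OP.J
  rcases jacobiSym.eq_one_or_neg_one h3 with h | h <;>
    rcases eps_sq (δ := δ) hc.1 with h4 | h4 <;> rw [h, h4] <;> norm_num

end STR

open STR in
/-- task B-STR -/
theorem strong (h1 : BT4) (h2 : PC2) : StrongStmt := by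
  classical
  obtain ⟨N0, hBT⟩ := h1
  obtain ⟨i0, hblock⟩ := h2.block
  refine ⟨3000 + i0 + 4 * N0, ?_⟩
  intro i Δ a b c hi hΔ ha hb hc haΔ hbΔ hcΔ hab hac hbc sa sb sc
  by_contra habc
  have ha0 : 0 < a := by have := ha.1; omega
  have hb0 : 0 < b := by have := hb.1; omega
  have hc0 : 0 < c := by have := hc.1; omega
  have hΔ1 : 1 ≤ Δ := le_trans ha0 haΔ
  have hΔX : Δ ≤ 2 ^ i := le_trans (Nat.le_self_pow (by omega) Δ) hΔ
  set X := 2 ^ i with hX
  have hX1 : 1 ≤ X := Nat.one_le_two_pow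
  set m := 8 * (a * b * c) with hm
  have hm0 : m ≠ 0 := by positivity
  have : NeZero m := ⟨hm0⟩
  have h8 : 8 ∣ m := ⟨_, hm⟩
  have hd : a * b * c ∣ m := ⟨8, by rw [hm]; ring⟩
  have hm500 : m ^ 500 ≤ X := by
    have e1 : m ≤ 8 * Δ ^ 3 := by
      rw [hm]
      have : a * b * c ≤ Δ * Δ * Δ := Nat.mul_le_mul (Nat.mul_le_mul haΔ hbΔ) hcΔ
      calc 8 * (a * b * c) ≤ 8 * (Δ * Δ * Δ) := Nat.mul_le_mul_left _ this
        _ = 8 * Δ ^ 3 := by ring
    have e2 : Δ ^ 3000 ≤ 2 ^ i := le_trans (Nat.pow_le_pow_right hΔ1 (by omega)) hΔ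
    have e3 : (m ^ 500) ^ 2 ≤ (2 ^ i) ^ 2 := by
      calc (m ^ 500) ^ 2 ≤ ((8 * Δ ^ 3) ^ 500) ^ 2 := by
            gcongr
        _ = 2 ^ 3000 * Δ ^ 3000 := by
            rw [← pow_mul, mul_pow, ← pow_mul, show (8 : ℕ) = 2 ^ 3 by norm_num, ← pow_mul]
        _ ≤ 2 ^ i * 2 ^ i := Nat.mul_le_mul (Nat.pow_le_pow_right (by norm_num) (by omega)) e2
        _ = (2 ^ i) ^ 2 := by ring
    exact (Nat.pow_le_pow_iff_left (by norm_num)).1 e3
  obtain ⟨hlogm, hm1000⟩ := log_facts (Nat.pos_of_ne_zero hm0) (by omega) hm500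
  -- the good primes
  set P := PB i c0 with hP
  set P' := P.filter (fun p => J p a = 1 ∧ J p b = 1 ∧ J p c = 1) with hP'
  have hsub : P ⊆ P' ∪ (P.filter (fun p => J p a = -1) ∪ (P.filter (fun p => J p b = -1) ∪
      P.filter (fun p => J p c = -1))) := by
    intro p hp
    have j1 := (J_val hΔX haΔ ha hp).2
    have j2 := (J_val hΔX hbΔ hb hp).2
    have j3 := (J_val hΔX hcΔ hc hp).2
    simp only [hP', mem_union, mem_filter]
    tauto
  have hcardP : (P.card : ℝ) ≤ P'.card + ((P.filter (fun p => J p a = -1)).card +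
      ((P.filter (fun p => J p b = -1)).card + (P.filter (fun p => J p c = -1)).card)) := by
    have h3 := Finset.card_le_card hsub
    have h4 := Finset.card_union_le P' (P.filter (fun p => J p a = -1) ∪
      (P.filter (fun p => J p b = -1) ∪ P.filter (fun p => J p c = -1)))
    have h5 := Finset.card_union_le (P.filter (fun p => J p a = -1))
      (P.filter (fun p => J p b = -1) ∪ P.filter (fun p => J p c = -1))
    have h6 := Finset.card_union_le (P.filter (fun p => J p b = -1))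
      (P.filter (fun p => J p c = -1))
    have : P.card ≤ P'.card + ((P.filter (fun p => J p a = -1)).card +
      ((P.filter (fun p => J p b = -1)).card + (P.filter (fun p => J p c = -1)).card)) := by
      omega
    exact_mod_cast this
  have b1 := card_biased sa
  have b2 := card_biased sb
  have b3 := card_biased sc
  have hlow : 0.85 * (P.card : ℝ) ≤ P'.card := by
    rw [← hP] at b1 b2 b3
    linarith
  -- the classes
  have hcc : (c0 : ℕ) % 2 = 1 ∧ c0 < 8 := by rcases c0_35 with h | h <;> rw [h] <;> norm_num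
  set T := (Ac m c0).filter (fun u => eps c0 a * chi m a u = 1 ∧ eps c0 b * chi m b u = 1 ∧
    eps c0 c * chi m c u = 1) with hT
  have hTcard := card_T (m := m) h8 hd ha hb hc hab hac hbc habc hcc.1 hcc.2 (eps c0 a) (eps c0 b)
    (eps c0 c) (eps_sq hcc.1) (eps_sq hcc.1) (eps_sq hcc.1)
  have hcov : P' ⊆ T.biUnion (fun u => (Ioc X (2 * X)).filter
      (fun q : ℕ => q.Prime ∧ (q : ZMod m) = (u : ZMod m))) := by
    intro p hp
    obtain ⟨hpP, ja, jb, jc⟩ := mem_filter.1 hp
    have hpB := mem_filter.1 hpP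
    have ca := (J_val hΔX haΔ ha hpP).1
    have cb := (J_val hΔX hbΔ hb hpP).1
    have cc := (J_val hΔX hcΔ hc hpP).1
    have h5 : p % 8 = c0 := hpB.2.2
    have c8 : Nat.Coprime p 8 := by
      have : Nat.Coprime p 2 := by
        rw [Nat.coprime_comm, Nat.Prime.coprime_iff_not_dvd Nat.prime_two]
        omega
      exact Nat.Coprime.pow_right 3 this
    have hcop : Nat.Coprime p m := by
      rw [hm]
      exact c8.mul_right ((ca.mul_right cb).mul_right cc)
    have hval : (((ZMod.unitOfCoprime p hcop : (ZMod m)ˣ)) : ZMod m).val = p % m := by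
      rw [ZMod.coe_unitOfCoprime, ZMod.val_natCast]
    have hchi : ∀ d : ℕ, d % 2 = 1 → d ∣ m → J p d = 1 →
        eps c0 d * chi m d (ZMod.unitOfCoprime p hcop) = 1 := by
      intro d hd2 hdm hJ
      unfold chi
      rw [hval]
      have h1 : jacobiSym ((p % m : ℕ) : ℤ) d = jacobiSym (p : ℤ) d := by
        apply jacobiSym.mod_left'
        have : p % m % d = p % d := Nat.mod_mod_of_dvd _ hdm
        exact_mod_cast this
      rw [h1]
      rw [J_eq hd2 hcc.1 (by rw [h5, Nat.mod_eq_of_lt hcc.2])] at hJ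
      unfold Pool.Agent.H307R2.OP.J at hJ
      exact_mod_cast hJ
    rw [mem_biUnion]
    refine ⟨ZMod.unitOfCoprime p hcop, ?_, ?_⟩
    · rw [hT, mem_filter]
      refine ⟨?_, hchi a ha.1 (Dvd.dvd.trans ⟨b * c, by ring⟩ hd) ja,
        hchi b hb.1 (Dvd.dvd.trans ⟨a * c, by ring⟩ hd) jb,
        hchi c hc.1 (Dvd.dvd.trans ⟨a * b, by ring⟩ hd) jc⟩
      simp only [Ac, mem_filter, mem_univ, true_and]
      rw [hval, Nat.mod_mod_of_dvd _ h8, h5]
    · rw [mem_filter]
      refine ⟨?_, hpB.2.1, ?_⟩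
      · have := hpB.1
        rw [pow_succ, mul_comm (2 ^ i) 2] at this
        exact this
      · rw [ZMod.coe_unitOfCoprime]
  -- sizes
  have hXr : (X : ℝ) = 2 ^ i := by rw [hX]; push_cast; rfl
  have hXpos : (0 : ℝ) < X := by exact_mod_cast hX1
  have hmpos : (0 : ℝ) < m := by exact_mod_cast Nat.pos_of_ne_zero hm0
  set N := X / m + 1 with hN
  have hN1 : (X : ℝ) / m ≤ N := by
    rw [div_le_iff₀ hmpos]
    have h3 := Nat.lt_div_mul_add (a := X) (Nat.pos_of_ne_zero hm0)
    have : X ≤ N * m := by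
      rw [hN]
      nlinarith [h3]
    exact_mod_cast this
  have hN2 : (m : ℝ) * N ≤ X + m := by
    have h3 := Nat.div_mul_le_self X m
    have : m * N ≤ X + m := by
      rw [hN]
      nlinarith [h3]
    exact_mod_cast this
  have hL : 0.69 < Real.log 2 := by
    have := Real.log_two_gt_d9
    linarith
  have hir : (3000 : ℝ) + i0 + 4 * N0 ≤ i := by exact_mod_cast hi
  have hi0 : (0 : ℝ) ≤ i0 := Nat.cast_nonneg _
  have hN0 : (0 : ℝ) ≤ N0 := Nat.cast_nonneg _
  have hlogXm : 0.998 * (i * Real.log 2) ≤ Real.log ((X : ℝ) / m) := by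
    rw [Real.log_div hXpos.ne' hmpos.ne', hXr, Real.log_pow]
    linarith
  have hlogN : 0.998 * (i * Real.log 2) ≤ Real.log N :=
    hlogXm.trans (Real.log_le_log (by positivity) hN1)
  have hiL : (0 : ℝ) < i * Real.log 2 := by
    have : (0 : ℝ) < i := by linarith
    positivity
  have hNN0 : N0 ≤ X / m + 1 := by
    have h3 : (N0 : ℝ) ≤ N := by
      have h4 : Real.log N ≤ N := by
        have hNpos : (0 : ℝ) < N := by
          rw [hN]; positivity
        have := Real.log_le_sub_one_of_pos hNpos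
        linarith
      have h5 : (N0 : ℝ) ≤ 0.998 * (i * Real.log 2) := by nlinarith
      linarith
    exact_mod_cast h3
  have hup : (P'.card : ℝ) ≤ (T.card : ℝ) *
      (9 / 2 * ((m : ℝ) / Nat.totient m) * ((N : ℝ) / Real.log N)) := by
    have h3 : P'.card ≤ ∑ u ∈ T, ((Ioc X (2 * X)).filter
        (fun q : ℕ => q.Prime ∧ (q : ZMod m) = (u : ZMod m))).card :=
      (Finset.card_le_card hcov).trans Finset.card_biUnion_le
    calc (P'.card : ℝ) ≤ ∑ u ∈ T, (((Ioc X (2 * X)).filter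
        (fun q : ℕ => q.Prime ∧ (q : ZMod m) = (u : ZMod m))).card : ℝ) := by exact_mod_cast h3
      _ ≤ ∑ u ∈ T, (9 / 2 * ((m : ℝ) / Nat.totient m) * ((N : ℝ) / Real.log N)) := by
        apply Finset.sum_le_sum
        intro u _
        exact class_count hBT hNN0 _
      _ = _ := by rw [Finset.sum_const, nsmul_eq_mul]
  have hφpos : (0 : ℝ) < Nat.totient m := by
    exact_mod_cast Nat.totient_pos.2 (Nat.pos_of_ne_zero hm0)
  have hTr : (T.card : ℝ) ≤ Nat.totient m / 32 := by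
    rw [le_div_iff₀ (by norm_num)]
    have : T.card * 32 ≤ Nat.totient m := by rw [mul_comm]; exact hTcard
    exact_mod_cast this
  have hNpos : (0 : ℝ) < N := by rw [hN]; positivity
  have hmX : (m : ℝ) ≤ X / 1000 := by
    rw [le_div_iff₀ (by norm_num)]
    have : m * 1000 ≤ X := by rw [mul_comm]; exact hm1000
    exact_mod_cast this
  have hbl := hblock i (by omega) c0 c0_35
  rw [← hP, ← hXr] at hbl
  have hbl2 : 0.99 * (X : ℝ) / (4 * i * Real.log 2) = 0.2475 * (X / (i * Real.log 2)) := by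
    have : (i : ℝ) ≠ 0 := by
      intro h
      rw [h] at hiL
      simp at hiL
    have hL0 : Real.log 2 ≠ 0 := by linarith
    field_simp
    norm_num
  rw [hbl2] at hbl
  exact num_end hiL hXpos hmpos hNpos hφpos hTr hup hlogN hN2 hmX hlow hbl

end Pool.Agent.H13.MO
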