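import Pool.Graph.R_seed8.H307R2.OP.RCH
import Pool.Agent.H13.MO.STR

set_option autoImplicit false

/-! The choice of the killing primes (adapted from `Pool.Agent.H307R2.OP.RCH`) -/

namespace Pool.Agent.H13.MO

open Finset Pool.Agent.H307R2.OP

variable [P : Prm]

open Classical in
/-- choice of the killing primes -/
theorem rChoiceM (h1 : StrongStmt) (h2 : KillPrime) :
    ∀ M : ℕ, 1 ≤ M → ∃ y0 : ℕ, ∀ y : ℕ, y0 ≤ y → ∀ I : ℕ,
    y ^ (2 * M + 4) ≤ I → I ≤ 2 * y ^ (2 * M + 4) → ∃ R : Finset ℕ, RCT M y I 3 R := by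
  obtain ⟨C1, hC1⟩ := h1
  obtain ⟨C2, hC2⟩ := h2
  intro M hM
  refine ⟨1 + C1 + 16 * C1 + 816 * C2, ?_⟩
  intro y hy I hI1 hI2
  have hy1 : 1 ≤ y := by omega
  set Δ : ℕ := 2 ^ (16 * y ^ (2 * M - 1)) with hΔ
  set i : ℕ := kap M y 0 with hi
  have hi' : i = y ^ (2 * M + 2) := by
    rw [hi]; unfold kap; simp
  have hCi : C1 ≤ i := by
    rw [hi']
    calc C1 ≤ y := by omega
      _ = y ^ 1 := (pow_one y).symm
      _ ≤ y ^ (2 * M + 2) := Nat.pow_le_pow_right hy1 (by omega)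
  have hΔC : Δ ^ C1 ≤ 2 ^ i := by
    rw [hΔ, ← pow_mul]
    apply Nat.pow_le_pow_right (by norm_num)
    rw [hi']
    have := rch_pow C1 16 (2 * M - 1) (2 * M + 2) y (by omega) hy1 (by omega)
    calc 16 * y ^ (2 * M - 1) * C1 = 16 * C1 * y ^ (2 * M - 1) := by ring
      _ ≤ _ := this
  -- the strong kernels
  set SB : Finset ℕ := (range (Δ + 1)).filter (fun δ => AdmL δ ∧ StrongAt i δ) with hSB
  have hmem : ∀ δ ∈ SB, AdmL δ ∧ StrongAt i δ ∧ δ ≤ Δ := by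
    intro δ hδ
    rw [hSB, Finset.mem_filter, Finset.mem_range] at hδ
    exact ⟨hδ.2.1, hδ.2.2, by omega⟩
  have hSBcard : SB.card ≤ 3 := by
    by_contra hcon
    push Not at hcon
    obtain ⟨a, ha, b, hb, c, hc, hab, hac, hbc⟩ := Finset.two_lt_card.mp (by omega : 2 < SB.card)
    obtain ⟨d, hd⟩ : (SB \ {a, b, c}).Nonempty := by
      rw [← Finset.card_pos]
      have h3 := Finset.le_card_sdiff ({a, b, c} : Finset ℕ) SB
      have h4 : ({a, b, c} : Finset ℕ).card ≤ 3 := Finset.card_le_three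
      omega
    rw [Finset.mem_sdiff] at hd
    simp only [mem_insert, mem_singleton, not_or] at hd
    obtain ⟨hd, hda, hdb, hdc⟩ := hd
    obtain ⟨a1, a2, a3⟩ := hmem a ha
    obtain ⟨b1, b2, b3⟩ := hmem b hb
    obtain ⟨c1', c2, c3⟩ := hmem c hc
    obtain ⟨d1, d2, d3⟩ := hmem d hd
    have s1 := hC1 i Δ a b c hCi hΔC a1 b1 c1' a3 b3 c3 hab hac hbc a2 b2 c2
    have s2 := hC1 i Δ a b d hCi hΔC a1 b1 d1 a3 b3 d3 hab (Ne.symm hda) (Ne.symm hdb) a2 b2 d2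
    have hab0 : a * b ≠ 0 := by
      have := a1.1
      have := b1.1
      have ha0 : a ≠ 0 := by omega
      have hb0 : b ≠ 0 := by omega
      exact mul_ne_zero ha0 hb0
    have hc0' : c ≠ 0 := by have := c1'.1; omega
    apply Pool.Agent.H413R3.OddL.STRL.not_sq_mul c1'.2.1 d1.2.1 (Ne.symm hdc) hc0'
    obtain ⟨u, hu⟩ := s1
    obtain ⟨v, hv⟩ := s2
    have h5 : (a * b) ^ 2 * (c * d) = (u * v) ^ 2 := by
      calc (a * b) ^ 2 * (c * d) = (a * b * c) * (a * b * d) := by ring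
        _ = (u * v) ^ 2 := by rw [hu, hv]; ring
    have h6 : (a * b) ∣ u * v := by
      rw [← Nat.pow_dvd_pow_iff (n := 2) (by norm_num)]
      exact ⟨c * d, h5.symm⟩
    obtain ⟨w, hw⟩ := h6
    refine ⟨w, ?_⟩
    rw [hw] at h5
    have h7 : (a * b) ^ 2 * (c * d) = (a * b) ^ 2 * (w * w) := by rw [h5]; ring
    exact Nat.eq_of_mul_eq_mul_left (by positivity) h7
  have hch : ∀ δ : ℕ, ∃ q : ℕ, AdmL δ → (q.Prime ∧ 5 ≤ q ∧ q % 8 = c0 ∧
      J q δ = -1 ∧ q ≤ C2 * δ ^ C2) := by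
    intro δ
    by_cases h : AdmL δ
    · obtain ⟨q, hq⟩ := hC2 δ h
      exact ⟨q, fun _ => hq⟩
    · exact ⟨0, fun h' => absurd h' h⟩
  choose qf hqf using hch
  set R : Finset ℕ := SB.image qf with hR
  have hRcard : R.card ≤ 3 := Finset.card_image_le.trans hSBcard
  have hRmem : ∀ q ∈ R, ∃ δ : ℕ, AdmL δ ∧ δ ≤ Δ ∧ qf δ = q := by
    intro q hq
    rw [hR, Finset.mem_image] at hq
    obtain ⟨δ, hδ, hq⟩ := hq
    exact ⟨δ, (hmem δ hδ).1, (hmem δ hδ).2.2, hq⟩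
  have hRpr : ∀ q ∈ R, q.Prime ∧ 5 ≤ q ∧ q % 8 = c0 := by
    intro q hq
    obtain ⟨δ, hδ, _, rfl⟩ := hRmem q hq
    obtain ⟨h3, h4, h5, _⟩ := hqf δ hδ
    exact ⟨h3, h4, h5⟩
  have hRle : ∀ q ∈ R, q ≤ 2 ^ (17 * C2 * y ^ (2 * M - 1)) := by
    intro q hq
    obtain ⟨δ, hδ, hδle, rfl⟩ := hRmem q hq
    obtain ⟨_, _, _, _, h5⟩ := hqf δ hδ
    have hyp : 1 ≤ y ^ (2 * M - 1) := Nat.one_le_pow _ _ hy1
    calc qf δ ≤ C2 * δ ^ C2 := h5
      _ ≤ 2 ^ C2 * Δ ^ C2 :=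
        Nat.mul_le_mul (Nat.lt_two_pow_self).le (Nat.pow_le_pow_left hδle C2)
      _ = 2 ^ (C2 + 16 * y ^ (2 * M - 1) * C2) := by rw [hΔ, ← pow_mul, ← pow_add]
      _ ≤ 2 ^ (17 * C2 * y ^ (2 * M - 1)) := by
        apply Nat.pow_le_pow_right (by norm_num)
        nlinarith [Nat.mul_le_mul_left C2 hyp]
  have hRprod : ∏ q ∈ R, q ≤ 2 ^ (I / 16) := by
    have h3 : ∏ q ∈ R, q ≤ (2 ^ (17 * C2 * y ^ (2 * M - 1))) ^ R.card :=
      Finset.prod_le_pow_card R (fun q => q) _ hRle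
    refine h3.trans ?_
    calc (2 ^ (17 * C2 * y ^ (2 * M - 1))) ^ R.card ≤ (2 ^ (17 * C2 * y ^ (2 * M - 1))) ^ 3 :=
          Nat.pow_le_pow_right (by positivity) hRcard
      _ = 2 ^ (17 * C2 * y ^ (2 * M - 1) * 3) := by rw [← pow_mul]
      _ ≤ 2 ^ (I / 16) := by
        apply Nat.pow_le_pow_right (by norm_num)
        rw [Nat.le_div_iff_mul_le (by norm_num)]
        have := rch_pow C2 816 (2 * M - 1) (2 * M + 4) y (by omega) hy1 (by omega)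
        calc 17 * C2 * y ^ (2 * M - 1) * 3 * 16 = 816 * C2 * y ^ (2 * M - 1) := by ring
          _ ≤ y ^ (2 * M + 4) := this
          _ ≤ I := hI1
  refine ⟨R, hRcard, hRpr, hRprod, ?_⟩
  intro δ hδ hle hst
  refine ⟨qf δ, ?_, (hqf δ hδ).2.2.2.1⟩
  rw [hR, Finset.mem_image]
  refine ⟨δ, ?_, rfl⟩
  rw [hSB, Finset.mem_filter, Finset.mem_range]
  exact ⟨Nat.lt_succ_of_le hle, hδ, hst⟩

end Pool.Agent.H13.MO
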