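import Pool.Agent.H13.MO.QR
import Pool.Graph.R_seed8.Helper601.Mertens

set_option autoImplicit false

/-!
# B-SIG: the sieving mass
-/

namespace Pool.Agent.H13.MO

open Pool.Agent.H307R2.OP

open Finset

variable [P : Prm]

omit P in
theorem sig_mertens : ∃ C : ℝ, 0 ≤ C ∧ ∀ i0 i1 : ℕ, 3 ≤ i0 → i0 ≤ i1 →
    |∑ p ∈ Pr2 i0 i1, (1:ℝ) / p - (Real.log i1 - Real.log i0)| ≤ C := by
  obtain ⟨C, hC⟩ := Pool.Agent.Helper601.Mertens.mertens_inv
  have hl2 : (0 : ℝ) < Real.log 2 := Real.log_pos (by norm_num)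
  have hC0 : 0 ≤ C := (abs_nonneg _).trans (hC 3 le_rfl)
  refine ⟨2 * C, by positivity, ?_⟩
  intro i0 i1 h0 h1
  have key : ∀ i : ℕ, 3 ≤ i → |∑ p ∈ (Finset.Icc 1 (2 ^ i)).filter Nat.Prime, (1 : ℝ) / p -
      (Real.log i + Real.log (Real.log 2))| ≤ C := by
    intro i hi
    have h3 : 3 ≤ 2 ^ i := by
      calc 3 ≤ 2 ^ 3 := by norm_num
        _ ≤ 2 ^ i := Nat.pow_le_pow_right (by norm_num) hi
    have h := hC (2 ^ i) h3
    have e1 : Real.log (Real.log ((2 ^ i : ℕ) : ℝ)) = Real.log i + Real.log (Real.log 2) := by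
      push_cast
      rw [Real.log_pow, Real.log_mul]
      · have : (0:ℝ) < i := by exact_mod_cast (by omega : 0 < i)
        exact this.ne'
      · exact hl2.ne'
    rw [e1] at h
    exact h
  have hsplit : ∑ p ∈ (Finset.Icc 1 (2 ^ i1)).filter Nat.Prime, (1 : ℝ) / p =
      ∑ p ∈ (Finset.Icc 1 (2 ^ i0)).filter Nat.Prime, (1 : ℝ) / p +
        ∑ p ∈ Pr2 i0 i1, (1:ℝ) / p := by
    have hle : 2 ^ i0 ≤ 2 ^ i1 := Nat.pow_le_pow_right (by norm_num) h1
    rw [← Finset.sum_union]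
    · congr 1
      unfold Pr2
      ext p
      simp only [Finset.mem_filter, Finset.mem_union, Finset.mem_Icc, Finset.mem_Ioc]
      constructor
      · rintro ⟨⟨h2, h3⟩, h4⟩
        rcases le_or_gt p (2 ^ i0) with h5 | h5
        · exact Or.inl ⟨⟨h2, h5⟩, h4⟩
        · exact Or.inr ⟨⟨h5, h3⟩, h4⟩
      · rintro (⟨⟨h2, h3⟩, h4⟩ | ⟨⟨h2, h3⟩, h4⟩)
        · exact ⟨⟨h2, h3.trans hle⟩, h4⟩
        · exact ⟨⟨h4.one_lt.le, h3⟩, h4⟩
    · rw [Finset.disjoint_left]
      intro p h2 h3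
      unfold Pr2 at h3
      simp only [Finset.mem_filter, Finset.mem_Icc, Finset.mem_Ioc] at h2 h3
      omega
  have k0 := abs_le.mp (key i0 h0)
  have k1 := abs_le.mp (key i1 (h0.trans h1))
  rw [hsplit] at k1
  rw [abs_le]
  constructor <;> linarith [k0.1, k0.2, k1.1, k1.2]

theorem sig_blocks (f : ℕ → ℝ) (i0 i1 : ℕ) (h0 : 1 ≤ i0) (h1 : i0 ≤ i1) :
    ∑ p ∈ Pr2 i0 i1, f p =
      ∑ i ∈ Finset.Ico i0 i1, ∑ c ∈ ({1, 3, 5, 7} : Finset ℕ), ∑ p ∈ PB i c, f p := by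
  induction i1, h1 using Nat.le_induction with
  | base => simp [Pr2]
  | succ n hn ih =>
    rw [Finset.sum_Ico_succ_top hn, ← ih]
    have hle : 2 ^ i0 ≤ 2 ^ n := Nat.pow_le_pow_right (by norm_num) hn
    have hle2 : 2 ^ n ≤ 2 ^ (n + 1) := Nat.pow_le_pow_right (by norm_num) (by omega)
    have hsplit : Pr2 i0 (n + 1) = Pr2 i0 n ∪ Pr2 n (n + 1) := by
      unfold Pr2
      ext p
      simp only [Finset.mem_filter, Finset.mem_union, Finset.mem_Ioc]
      constructor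
      · rintro ⟨⟨h2, h3⟩, h4⟩
        rcases le_or_gt p (2 ^ n) with h5 | h5
        · exact Or.inl ⟨⟨h2, h5⟩, h4⟩
        · exact Or.inr ⟨⟨h5, h3⟩, h4⟩
      · rintro (⟨⟨h2, h3⟩, h4⟩ | ⟨⟨h2, h3⟩, h4⟩)
        · exact ⟨⟨h2, h3.trans hle2⟩, h4⟩
        · exact ⟨⟨lt_of_le_of_lt hle h2, h3⟩, h4⟩
    rw [hsplit, Finset.sum_union]
    · congr 1
      have hmaps : ∀ p ∈ Pr2 n (n + 1), p % 8 ∈ ({1, 3, 5, 7} : Finset ℕ) := by
        intro p hp
        unfold Pr2 at hp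
        simp only [Finset.mem_filter, Finset.mem_Ioc] at hp
        have hp2 : 2 < p := by
          have : 2 ^ 1 ≤ 2 ^ n := Nat.pow_le_pow_right (by norm_num) (by omega)
          omega
        have hodd : p % 2 = 1 := by
          rcases hp.2.eq_two_or_odd with h | h
          · omega
          · exact h
        simp only [Finset.mem_insert, Finset.mem_singleton]
        omega
      rw [← Finset.sum_fiberwise_of_maps_to hmaps]
      apply Finset.sum_congr rfl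
      intro c _
      congr 1
      unfold Pr2 PB
      rw [Finset.filter_filter]
    · rw [Finset.disjoint_left]
      intro p h2 h3
      unfold Pr2 at h2 h3
      simp only [Finset.mem_filter, Finset.mem_Ioc] at h2 h3
      omega

/-- A set of primes of `(2^i0, 2^i1]` with at most `I ≤ 2^i0` elements has small mass. -/
theorem sig_small {I i0 i1 : ℕ} (hI : I ≤ 2 ^ i0) (T : Finset ℕ) (hT : T ⊆ Pr2 i0 i1)
    (hc : T.card ≤ I) : ∑ p ∈ T, (1:ℝ) / p ≤ 1 := by
  have hpos : (0:ℝ) < 2 ^ i0 := by positivity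
  have h1 : ∀ p ∈ T, (1:ℝ) / p ≤ 1 / 2 ^ i0 := by
    intro p hp
    have := hT hp
    unfold Pr2 at this
    simp only [Finset.mem_filter, Finset.mem_Ioc] at this
    apply one_div_le_one_div_of_le hpos
    exact_mod_cast this.1.1.le
  calc ∑ p ∈ T, (1:ℝ) / p ≤ ∑ _p ∈ T, (1:ℝ) / 2 ^ i0 := Finset.sum_le_sum h1
    _ = T.card * (1 / 2 ^ i0) := by rw [Finset.sum_const, nsmul_eq_mul]
    _ ≤ 2 ^ i0 * (1 / 2 ^ i0) := by
        apply mul_le_mul_of_nonneg_right _ (by positivity)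
        exact_mod_cast hc.trans hI
    _ = 1 := by field_simp

/-- task B-SIG -/
theorem sig (h1 : QRStmt) : SigStmt := by
  obtain ⟨C, hC0, hC⟩ := sig_mertens
  refine ⟨2 * C + 7, by positivity, ?_⟩
  intro I i0 i1 r δ s A hi0 hi01 hi1I hI hδ hbad hs1 hs2 hA
  have hmer := abs_le.mp (hC i0 i1 hi0 hi01)
  have hpr : ∀ p ∈ Pr2 i0 i1, p.Prime ∧ 5 ≤ p := by
    intro p hp
    unfold Pr2 at hp
    simp only [Finset.mem_filter, Finset.mem_Ioc] at hp
    have : 2 ^ 3 ≤ 2 ^ i0 := Nat.pow_le_pow_right (by norm_num) hi0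
    exact ⟨hp.2, by omega⟩
  have hJ : ∀ p, -1 ≤ J p δ ∧ J p δ ≤ 1 := by
    intro p
    rcases h1.val p δ with h | h | h <;> rw [h] <;> norm_num
  have hlow : ∀ p ∈ Pr2 i0 i1,
      (1 + J p δ) / p - (if p ∣ s then (1:ℝ) / p else 0) ≤ ((Om r δ s p).card : ℝ) / p := by
    intro p hp
    have hp' := hpr p hp
    have hp0 : (0:ℝ) < p := by exact_mod_cast hp'.1.pos
    by_cases hd : p ∣ s
    · rw [if_pos hd, h1.om_zero r δ s p hp'.1 hp'.2 hd, Finset.card_singleton, ← sub_div]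
      apply div_le_div_of_nonneg_right _ hp0.le
      have := (hJ p).2
      push_cast; linarith
    · rw [if_neg hd, h1.om_card r δ s p hp'.1 hp'.2 hd, sub_zero]
  have hup : ∀ p ∈ Pr2 i0 i1, ((Om r δ s p).card : ℝ) / p ≤ 2 * (1 / p) := by
    intro p hp
    have hp' := hpr p hp
    have hp0 : (0:ℝ) < p := by exact_mod_cast hp'.1.pos
    rw [mul_one_div]
    apply div_le_div_of_nonneg_right _ hp0.le
    by_cases hd : p ∣ s
    · rw [h1.om_zero r δ s p hp'.1 hp'.2 hd, Finset.card_singleton]; norm_num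
    · rw [h1.om_card r δ s p hp'.1 hp'.2 hd]
      have := (hJ p).2
      linarith
  have hi0R : (0:ℝ) < i0 := by exact_mod_cast (by omega : 0 < i0)
  have hi1R : (0:ℝ) < i1 := by exact_mod_cast (by omega : 0 < i1)
  have hlogi0 : 0 ≤ Real.log i0 := Real.log_nonneg (by exact_mod_cast (by omega : 1 ≤ i0))
  have hlogi1 : Real.log i1 ≤ Real.log I := Real.log_le_log hi1R (by exact_mod_cast hi1I)
  have hlogI : 0 ≤ Real.log I := Real.log_nonneg (by exact_mod_cast (by omega : 1 ≤ I))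
  constructor
  · -- lower bound
    have hsub : ∑ p ∈ Pr2 i0 i1 \ A, ((1 + J p δ) / p - (if p ∣ s then (1:ℝ) / p else 0)) ≤
        ∑ p ∈ Pr2 i0 i1 \ A, ((Om r δ s p).card : ℝ) / p :=
      Finset.sum_le_sum (fun p hp => hlow p (Finset.sdiff_subset hp))
    have hs3 : ∑ p ∈ Pr2 i0 i1 \ A, (if p ∣ s then (1:ℝ) / p else 0) ≤ 1 := by
      rw [← Finset.sum_filter]
      set T := (Pr2 i0 i1 \ A).filter (fun p => p ∣ s) with hT
      have hTsub : T ⊆ Pr2 i0 i1 := (Finset.filter_subset _ _).trans Finset.sdiff_subset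
      apply sig_small hI T hTsub
      have h2 : ∏ p ∈ T, p ∣ s := by
        apply Finset.prod_primes_dvd
        · intro p hp; exact (hpr p (hTsub hp)).1.prime
        · intro p hp; exact (Finset.mem_filter.mp hp).2
      have h3 : 2 ^ T.card ≤ ∏ p ∈ T, p := by
        rw [← Finset.prod_const]
        apply Finset.prod_le_prod'
        intro p hp
        exact (hpr p (hTsub hp)).1.two_le
      have h4 : 2 ^ T.card ≤ 2 ^ I := (h3.trans (Nat.le_of_dvd (by omega) h2)).trans hs2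
      exact (Nat.pow_le_pow_iff_right (by norm_num)).mp h4
    have hsplit : ∑ p ∈ Pr2 i0 i1 \ A, (1 + J p δ) / p =
        ∑ p ∈ Pr2 i0 i1, (1 + J p δ) / p - ∑ p ∈ Pr2 i0 i1 ∩ A, (1 + J p δ) / p := by
      rw [eq_sub_iff_add_eq, add_comm, Finset.sum_inter_add_sum_sdiff]
    have hAs : ∑ p ∈ Pr2 i0 i1 ∩ A, (1 + J p δ) / p ≤ 2 := by
      have h2 : ∑ p ∈ Pr2 i0 i1 ∩ A, (1:ℝ) / p ≤ 1 :=
        sig_small hI _ Finset.inter_subset_left
          ((Finset.card_le_card Finset.inter_subset_right).trans hA)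
      calc ∑ p ∈ Pr2 i0 i1 ∩ A, (1 + J p δ) / p ≤ ∑ p ∈ Pr2 i0 i1 ∩ A, 2 * ((1:ℝ) / p) := by
            apply Finset.sum_le_sum
            intro p hp
            have hp' := hpr p (Finset.mem_of_mem_inter_left hp)
            have hp0 : (0:ℝ) < p := by exact_mod_cast hp'.1.pos
            rw [mul_one_div]
            apply div_le_div_of_nonneg_right _ hp0.le
            have := (hJ p).2
            linarith
        _ = 2 * ∑ p ∈ Pr2 i0 i1 ∩ A, (1:ℝ) / p := by rw [Finset.mul_sum]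
        _ ≤ 2 := by linarith
    have hJs : -4 ≤ ∑ p ∈ Pr2 i0 i1, J p δ / p := by
      rw [sig_blocks (fun p => J p δ / p) i0 i1 (by omega) hi01]
      have hblk : ∀ i ∈ Finset.Ico i0 i1, -(4 / (I:ℝ) ^ 2) ≤
          ∑ c ∈ ({1, 3, 5, 7} : Finset ℕ), ∑ p ∈ PB i c, J p δ / p := by
        intro i hi
        rw [Finset.mem_Ico] at hi
        have hnb : ¬ BadAt I i δ := fun h => hbad ⟨i, hi.1, by omega, h⟩
        have h5 : ∀ c ∈ ({1, 3, 5, 7} : Finset ℕ), -(1 / (I:ℝ) ^ 2) ≤ ∑ p ∈ PB i c, J p δ / p := by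
          intro c hc
          have h6 : ¬ 1 / (I : ℝ) ^ 2 < |∑ p ∈ PB i c, J p δ / p| := fun h => hnb ⟨c, hc, h⟩
          exact (abs_le.mp (not_lt.mp h6)).1
        calc -(4 / (I:ℝ) ^ 2) = ∑ _c ∈ ({1, 3, 5, 7} : Finset ℕ), -(1 / (I:ℝ) ^ 2) := by
              rw [Finset.sum_const]
              have : ({1, 3, 5, 7} : Finset ℕ).card = 4 := by decide
              rw [this, nsmul_eq_mul]
              push_cast
              ring
          _ ≤ _ := Finset.sum_le_sum h5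
      have hIR : (1:ℝ) ≤ I := by exact_mod_cast (by omega : 1 ≤ I)
      have hcard : ((Finset.Ico i0 i1).card : ℝ) ≤ I := by
        rw [Nat.card_Ico]
        exact_mod_cast (by omega : i1 - i0 ≤ I)
      calc (-4:ℝ) ≤ -((I:ℝ) * (4 / (I:ℝ) ^ 2)) := by
            have h7 : (I:ℝ) * (4 / (I:ℝ) ^ 2) = 4 / I := by field_simp
            rw [h7]
            have h8 : 4 / (I:ℝ) ≤ 4 := by
              rw [div_le_iff₀ (by linarith)]; nlinarith
            linarith
        _ ≤ -((Finset.Ico i0 i1).card * (4 / (I:ℝ) ^ 2)) := by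
            apply neg_le_neg
            exact mul_le_mul_of_nonneg_right hcard (by positivity)
        _ = ∑ _i ∈ Finset.Ico i0 i1, -(4 / (I:ℝ) ^ 2) := by
            rw [Finset.sum_const, nsmul_eq_mul]; ring
        _ ≤ _ := Finset.sum_le_sum hblk
    have hadd : ∑ p ∈ Pr2 i0 i1, (1 + J p δ) / p =
        ∑ p ∈ Pr2 i0 i1, (1:ℝ) / p + ∑ p ∈ Pr2 i0 i1, J p δ / p := by
      rw [← Finset.sum_add_distrib]
      apply Finset.sum_congr rfl
      intro p _
      rw [add_div]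
    rw [Finset.sum_sub_distrib] at hsub
    linarith [hmer.1]
  · -- upper bound
    calc ∑ p ∈ Pr2 i0 i1 \ A, ((Om r δ s p).card : ℝ) / p
        ≤ ∑ p ∈ Pr2 i0 i1, ((Om r δ s p).card : ℝ) / p :=
          Finset.sum_le_sum_of_subset_of_nonneg Finset.sdiff_subset
            (fun p _ _ => by positivity)
      _ ≤ ∑ p ∈ Pr2 i0 i1, 2 * ((1:ℝ) / p) := Finset.sum_le_sum hup
      _ = 2 * ∑ p ∈ Pr2 i0 i1, (1:ℝ) / p := by rw [Finset.mul_sum]
      _ ≤ 2 * Real.log I + (2 * C + 7) := by linarith [hmer.2]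

end Pool.Agent.H13.MO
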