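import Pool.Agent.H13.MO.T0

set_option autoImplicit false

/-! Task B-T5: multiplicity of a good value. -/

namespace Pool.Agent.H13.MO

open Pool.Agent.H307R2.OP

open Finset

variable [P : Prm]

namespace T5

variable {M : ℕ}

/-- all chosen small primes -/
def AA (g : Cfg M) (A : Fin M → Finset ℕ) : Finset ℕ := g.R ∪ Finset.univ.biUnion A

lemma mem_PB (i c q : ℕ) : q ∈ PB i c ↔ (2 ^ i < q ∧ q ≤ 2 ^ (i + 1)) ∧ q.Prime ∧ q % 8 = c := by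
  simp [PB, Finset.mem_filter, Finset.mem_Ioc]

lemma fam_mem {g : Cfg M} {A : Fin M → Finset ℕ} (hA : A ∈ g.Fam) (j : Fin M) :
    A j ⊆ g.Blk j ∧ (A j).card = g.k j := by
  have := (Fintype.mem_piFinset.1 hA) j
  exact Finset.mem_powersetCard.1 this

lemma fam_PB {g : Cfg M} {A : Fin M → Finset ℕ} (hA : A ∈ g.Fam) (j : Fin M) {q : ℕ}
    (hq : q ∈ A j) : q ∈ PB (g.κ j) (g.cl j) ∧ q ∉ g.R := by
  have := (fam_mem hA j).1 hq
  exact Finset.mem_sdiff.1 this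

lemma disj_R {g : Cfg M} {A : Fin M → Finset ℕ} (hA : A ∈ g.Fam) :
    Disjoint g.R (Finset.univ.biUnion A) := by
  rw [Finset.disjoint_left]
  intro q hq hq2
  obtain ⟨j, -, hj⟩ := Finset.mem_biUnion.1 hq2
  exact (fam_PB hA j hj).2 hq

lemma disj_A {g : Cfg M} (hg : g.Ok) {A : Fin M → Finset ℕ} (hA : A ∈ g.Fam) :
    ((Finset.univ : Finset (Fin M)) : Set (Fin M)).PairwiseDisjoint A := by
  intro i _ j _ hij
  rw [Function.onFun, Finset.disjoint_left]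
  intro q hi hj
  have h1 := (mem_PB _ _ _).1 (fam_PB hA i hi).1
  have h2 := (mem_PB _ _ _).1 (fam_PB hA j hj).1
  have hne : g.κ i ≠ g.κ j := fun h => hij (hg.inj h)
  rcases lt_or_gt_of_ne hne with h | h
  · have : 2 ^ (g.κ i + 1) ≤ 2 ^ (g.κ j) := Nat.pow_le_pow_right (by norm_num) h
    omega
  · have : 2 ^ (g.κ j + 1) ≤ 2 ^ (g.κ i) := Nat.pow_le_pow_right (by norm_num) h
    omega

lemma prod_AA {g : Cfg M} (hg : g.Ok) {A : Fin M → Finset ℕ} (hA : A ∈ g.Fam) {β : Type*}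
    [CommMonoid β] (f : ℕ → β) :
    ∏ q ∈ AA g A, f q = (∏ q ∈ g.R, f q) * ∏ j, ∏ q ∈ A j, f q := by
  unfold AA
  rw [Finset.prod_union (disj_R hA), Finset.prod_biUnion (disj_A hg hA)]

lemma prod_AA_nat {g : Cfg M} (hg : g.Ok) {A : Fin M → Finset ℕ} (hA : A ∈ g.Fam) :
    ∏ q ∈ AA g A, q = g.Rp * g.Q A := by
  rw [prod_AA hg hA (fun q => q)]; rfl

lemma AA_prime {g : Cfg M} (hg : g.Ok) {A : Fin M → Finset ℕ} (hA : A ∈ g.Fam) {q : ℕ}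
    (hq : q ∈ AA g A) : q.Prime ∧ 5 ≤ q := by
  rcases Finset.mem_union.1 hq with h | h
  · exact ⟨(hg.hR q h).1, (hg.hR q h).2.1⟩
  · obtain ⟨j, -, hj⟩ := Finset.mem_biUnion.1 h
    have h1 := (mem_PB _ _ _).1 (fam_PB hA j hj).1
    refine ⟨h1.2.1, ?_⟩
    have h3 : 2 ^ 3 ≤ 2 ^ (g.κ j) := Nat.pow_le_pow_right (by norm_num) (hg.hκ j)
    omega

lemma AA_card {g : Cfg M} {A : Fin M → Finset ℕ} (hA : A ∈ g.Fam) :
    (AA g A).card ≤ ∑ j, g.k j + g.R.card := by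
  unfold AA
  have h1 := Finset.card_union_le g.R (Finset.univ.biUnion A)
  have h2 : (Finset.univ.biUnion A).card ≤ ∑ j, g.k j := by
    refine le_trans Finset.card_biUnion_le ?_
    exact le_of_eq (Finset.sum_congr rfl fun j _ => (fam_mem hA j).2)
  omega

lemma AA_pos {g : Cfg M} (hg : g.Ok) {A : Fin M → Finset ℕ} (hA : A ∈ g.Fam) :
    0 < g.Rp * g.Q A := by
  rw [← prod_AA_nat hg hA]
  exact Finset.prod_pos fun q hq => (AA_prime hg hA hq).1.pos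

open Classical in
/-- for a fixed family member, the number of pairs is at most the number of `u` -/
lemma fiber_le {g : Cfg M} (hg : g.Ok) {A : Fin M → Finset ℕ} (hA : A ∈ g.Fam) (δ s z : ℕ)
    (hz : z ≤ 2 ^ (g.I / 2)) :
    (((g.Tup ×ˢ range (2 ^ g.I + 1)).filter
      (fun x => Prm.kp * g.N x.1 = δ * s ^ 2 + E g.r * x.2 ^ 2)).filter (fun x => x.1.1 = A)).card ≤
    ((range (⌊g.U⌋₊ + 1)).filter (fun u => ∃ p : ℕ, p.Prime ∧ z < p ∧ p ∉ AA g A ∧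
      Prm.kp * ((∏ q ∈ AA g A, q) * p) = δ * s ^ 2 + E g.r * u ^ 2)).card := by
  classical
  apply Finset.card_le_card_of_injOn (fun x => x.2)
  · intro x hx
    have hx := Finset.mem_coe.1 hx
    rw [Finset.mem_filter, Finset.mem_filter, Finset.mem_product] at hx
    obtain ⟨⟨⟨hT, -⟩, he⟩, hxA⟩ := hx
    have hT' := Finset.mem_sigma.1 hT
    obtain ⟨-, hp⟩ := hT'
    rw [hxA] at hp
    unfold Cfg.Pr at hp
    rw [Finset.mem_filter, Finset.mem_Ioc] at hp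
    obtain ⟨⟨hp1, hp2⟩, hpp, -⟩ := hp
    have hN : g.N x.1 = g.Rp * g.Q A * x.1.2 := by
      unfold Cfg.N; rw [hxA]
    have hle : g.Rp * g.Q A * x.1.2 ≤ 2 ^ g.I := by
      have := (Nat.le_div_iff_mul_le (AA_pos hg hA)).1 hp2
      linarith [mul_comm x.1.2 (g.Rp * g.Q A)]
    rw [Finset.mem_coe, Finset.mem_filter, Finset.mem_range]
    constructor
    · rw [Nat.lt_succ_iff]
      apply Nat.le_floor
      unfold Cfg.U
      rw [le_div_iff₀ (by positivity)]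
      apply Real.le_sqrt_of_sq_le
      rw [hN] at he
      have h5 : 4 ^ g.r * x.2 ^ 2 ≤ 3 * 2 ^ g.I := by
        have h51 : E g.r * x.2 ^ 2 ≤ Prm.kp * (g.Rp * g.Q A * x.1.2) := by omega
        have h52 : Prm.kp * (g.Rp * g.Q A * x.1.2) ≤ 3 * 2 ^ g.I := Nat.mul_le_mul kp_le hle
        have h53 : 4 ^ g.r * x.2 ^ 2 ≤ E g.r * x.2 ^ 2 := Nat.mul_le_mul_right _ (four_le_E g.r)
        omega
      have h6 : ((4 : ℝ) ^ g.r * (x.2 : ℝ) ^ 2) ≤ 3 * 2 ^ g.I := by exact_mod_cast h5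
      calc ((x.2 : ℝ) * 2 ^ g.r) ^ 2 = (4 : ℝ) ^ g.r * (x.2 : ℝ) ^ 2 := by
            rw [mul_pow, ← pow_mul, mul_comm g.r 2, pow_mul]; norm_num; ring
        _ ≤ _ := h6
    · refine ⟨x.1.2, hpp, by omega, ?_, ?_⟩
      · intro hmem
        have hdvd : x.1.2 ∣ ∏ q ∈ AA g A, q := Finset.dvd_prod_of_mem (fun q => q) hmem
        rw [prod_AA_nat hg hA] at hdvd
        have h7 := Nat.le_of_dvd (AA_pos hg hA) hdvd
        have h8 := hg.hRQ A hA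
        have h9 : 2 ^ (g.I / 8) ≤ 2 ^ (g.I / 2) := Nat.pow_le_pow_right (by norm_num) (by omega)
        omega
      · rw [prod_AA_nat hg hA, ← hN]; exact he
  · intro x hx y hy hxy
    have hx := Finset.mem_coe.1 hx
    have hy := Finset.mem_coe.1 hy
    rw [Finset.mem_filter, Finset.mem_filter] at hx hy
    obtain ⟨⟨-, hex⟩, hxA⟩ := hx
    obtain ⟨⟨-, hey⟩, hyA⟩ := hy
    have hxy' : x.2 = y.2 := hxy
    have hN : g.N x.1 = g.N y.1 := by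
      rw [hxy'] at hex
      exact Nat.eq_of_mul_eq_mul_left kp_pos (by omega)
    obtain ⟨⟨xA, xp⟩, xu⟩ := x
    obtain ⟨⟨yA, yp⟩, yu⟩ := y
    simp only at hxA hyA hxy'
    subst hxA
    subst hyA
    subst hxy'
    have h1 : g.Rp * g.Q yA * xp = g.Rp * g.Q yA * yp := hN
    have h2 := Nat.eq_of_mul_eq_mul_left (AA_pos hg hA) h1
    rw [h2]

lemma num_i1 (I i0 L : ℕ) (hL : 1 ≤ L) (h6 : 6 ≤ i0) (h : 4000 * i0 * L ≤ I) :
    i0 ≤ I / (3200 * L) ∧ I / (3200 * L) ≤ I ∧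
    (2 ^ (I / (3200 * L))) ^ (80 * L) ≤ 2 ^ (I / 40) ∧
    (I : ℝ) / (6400 * L) ≤ ((I / (3200 * L) : ℕ) : ℝ) := by
  have hpos : 0 < 3200 * L := by omega
  have h1 : i0 ≤ I / (3200 * L) := by
    rw [Nat.le_div_iff_mul_le hpos]
    calc i0 * (3200 * L) = 3200 * (i0 * L) := by ring
      _ ≤ 4000 * (i0 * L) := Nat.mul_le_mul_right _ (by norm_num)
      _ = 4000 * i0 * L := by ring
      _ ≤ I := h
  refine ⟨h1, Nat.div_le_self _ _, ?_, ?_⟩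
  · rw [← pow_mul]
    apply Nat.pow_le_pow_right (by norm_num)
    rw [Nat.le_div_iff_mul_le (by norm_num)]
    calc I / (3200 * L) * (80 * L) * 40 = I / (3200 * L) * (3200 * L) := by ring
      _ ≤ I := Nat.div_mul_le_self _ _
  · have hLr : (0 : ℝ) < 6400 * L := by
      have : (0 : ℝ) < L := by exact_mod_cast hL
      positivity
    rw [div_le_iff₀ hLr]
    have h2 : I < 3200 * L * (I / (3200 * L) + 1) := Nat.lt_mul_div_succ I hpos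
    have h3 : I ≤ (I / (3200 * L)) * (6400 * L) := by
      set n := I / (3200 * L) with hn
      have hn1 : 1 ≤ n := by omega
      calc I ≤ 3200 * L * (n + 1) := h2.le
        _ ≤ 3200 * L * (2 * n) := Nat.mul_le_mul_left _ (by omega)
        _ = n * (6400 * L) := by ring
    exact_mod_cast h3

lemma log_le_L (I : ℕ) (hI : 1 ≤ I) : Real.log I ≤ ((Nat.log 2 I + 1 : ℕ) : ℝ) := by
  have h1 : I < 2 ^ (Nat.log 2 I + 1) := Nat.lt_pow_succ_log_self (by norm_num) I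
  have h2 : (I : ℝ) ≤ 2 ^ (Nat.log 2 I + 1) := by exact_mod_cast h1.le
  have hI0 : (0 : ℝ) < I := by exact_mod_cast hI
  have h3 := Real.log_le_log hI0 h2
  rw [Real.log_pow] at h3
  have h4 : Real.log 2 ≤ 1 := by
    have := Real.log_two_lt_d9
    linarith
  have h5 : (0 : ℝ) ≤ ((Nat.log 2 I + 1 : ℕ) : ℝ) := by positivity
  nlinarith

lemma sum_sq_le (i0 i1 : ℕ) (h6 : 6 ≤ i0) (h : i0 ≤ i1) (A : Finset ℕ) :
    ∑ p ∈ Pr2 i0 i1 \ A, (4 : ℝ) / (p : ℝ) ^ 2 ≤ 1 := by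
  have h64 : 64 ≤ 2 ^ i0 := by
    calc 64 = 2 ^ 6 := by norm_num
      _ ≤ 2 ^ i0 := Nat.pow_le_pow_right (by norm_num) h6
  have hsub : Pr2 i0 i1 \ A ⊆ Ioc 64 (2 ^ i1) := by
    intro p hp
    have h1 := (Finset.mem_sdiff.1 hp).1
    unfold Pr2 at h1
    rw [Finset.mem_filter, Finset.mem_Ioc] at h1
    rw [Finset.mem_Ioc]
    omega
  have hle : 64 ≤ 2 ^ i1 := le_trans h64 (Nat.pow_le_pow_right (by norm_num) h)
  calc ∑ p ∈ Pr2 i0 i1 \ A, (4 : ℝ) / (p : ℝ) ^ 2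
      ≤ ∑ p ∈ Ioc (64 : ℕ) (2 ^ i1), (4 : ℝ) / (p : ℝ) ^ 2 :=
        Finset.sum_le_sum_of_subset_of_nonneg hsub (fun _ _ _ => by positivity)
    _ = 4 * ∑ p ∈ Ioc (64 : ℕ) (2 ^ i1), ((p : ℝ) ^ 2)⁻¹ := by
        rw [Finset.mul_sum]
        exact Finset.sum_congr rfl fun p _ => by rw [div_eq_mul_inv]
    _ ≤ 4 * (((64 : ℕ) : ℝ)⁻¹ - ((2 ^ i1 : ℕ) : ℝ)⁻¹) := by
        have := sum_Ioc_inv_sq_le_sub (α := ℝ) (k := 64) (n := 2 ^ i1) (by norm_num) hle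
        linarith
    _ ≤ 1 := by
        have h0 : (0 : ℝ) ≤ ((2 ^ i1 : ℕ) : ℝ)⁻¹ := by positivity
        have h1 : ((64 : ℕ) : ℝ)⁻¹ = 1 / 64 := by norm_num
        rw [h1]
        linarith

lemma I_le_pow (I : ℕ) (h : 800 ≤ I) : I ≤ 2 ^ (I / 5) := by
  set n := I / 5 with hn
  have h1 : I ≤ 5 * n + 4 := by omega
  have h2 : 160 ≤ n := by omega
  have h3 : n - 6 < 2 ^ (n - 6) := Nat.lt_two_pow_self
  have h4 : 2 ^ n = 2 ^ (n - 6) * 64 := by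
    have : n = (n - 6) + 6 := by omega
    conv_lhs => rw [this, pow_add]
    norm_num
  omega

lemma U_ge (g : Cfg M) : (2 : ℝ) ^ (g.I / 2) / 2 ^ g.r ≤ g.U := by
  unfold Cfg.U
  have : (2 : ℝ) ^ (g.I / 2) ≤ Real.sqrt (3 * 2 ^ g.I) := by
    apply Real.le_sqrt_of_sq_le
    rw [← pow_mul]
    have h1 : (2 : ℝ) ^ (g.I / 2 * 2) ≤ 2 ^ g.I :=
      pow_le_pow_right₀ (by norm_num) (Nat.div_mul_le_self _ _)
    have h2 : (0 : ℝ) < 2 ^ g.I := by positivity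
    linarith
  gcongr

lemma num_U {g : Cfg M} (hg : g.Ok) (m : ℕ) (hm : m ≤ 2 ^ (g.I / 8)) :
    (m : ℝ) ≤ g.U ∧ ((2 ^ (g.I / 40) : ℕ) : ℝ) ^ 6 * m * g.I ≤ g.U := by
  have hU := U_ge g
  have hr := hg.hrI
  have hI := hg.hI
  have hmr : (m : ℝ) ≤ 2 ^ (g.I / 8) := by exact_mod_cast hm
  have hIr : (g.I : ℝ) ≤ 2 ^ (g.I / 5) := by exact_mod_cast I_le_pow g.I hI
  have h2r : (0 : ℝ) < 2 ^ g.r := by positivity
  constructor
  · refine le_trans hmr (le_trans ?_ hU)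
    rw [le_div_iff₀ h2r, ← pow_add]
    exact pow_le_pow_right₀ (by norm_num) (by omega)
  · refine le_trans ?_ hU
    rw [le_div_iff₀ h2r]
    push_cast
    calc ((2 : ℝ) ^ (g.I / 40)) ^ 6 * m * g.I * 2 ^ g.r
        ≤ ((2 : ℝ) ^ (g.I / 40)) ^ 6 * 2 ^ (g.I / 8) * 2 ^ (g.I / 5) * 2 ^ g.r := by gcongr
      _ = 2 ^ (g.I / 40 * 6 + g.I / 8 + g.I / 5 + g.r) := by
          rw [← pow_mul, ← pow_add, ← pow_add, ← pow_add]
      _ ≤ 2 ^ (g.I / 2) := pow_le_pow_right₀ (by norm_num) (by omega)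

lemma J_bounds (h1 : QRStmt) (q δ : ℕ) : 0 ≤ 1 + J q δ ∧ 1 + J q δ ≤ 2 ∧ |J q δ| ≤ 1 := by
  rcases h1.val q δ with h | h | h <;> rw [h] <;> norm_num

open Classical in
/-- the bound for a fixed family member -/
lemma fiber_bound (h1 : QRStmt) (h4 : FixStmt) (C1 : ℝ) (hC1 : 0 < C1)
    (h5 : ∀ (I i0 i1 r δ s : ℕ) (A : Finset ℕ), 3 ≤ i0 → i0 ≤ i1 →
      i1 ≤ I → I ≤ 2 ^ i0 → AdmL δ → ¬ Bad I i0 δ → 1 ≤ s → s ≤ 2 ^ I → A.card ≤ I →
      (Real.log i1 - Real.log i0 - C1 ≤ ∑ p ∈ Pr2 i0 i1 \ A, ((Om r δ s p).card : ℝ) / p) ∧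
      (∑ p ∈ Pr2 i0 i1 \ A, ((Om r δ s p).card : ℝ) / p ≤ 2 * Real.log I + C1))
    {g : Cfg M} (hg : g.Ok) (hI0 : C1 + 1 ≤ ((Nat.log 2 g.I + 1 : ℕ) : ℝ))
    (i0 : ℕ) (hi6 : 6 ≤ i0) (hi0 : g.I ≤ 2 ^ i0) (h4000 : 4000 * i0 * (Nat.log 2 g.I + 1) ≤ g.I)
    (hcard : ∑ j, g.k j + g.R.card ≤ g.I) (δ s : ℕ) (hδ : AdmL δ) (hbad : ¬ Bad g.I i0 δ)
    (hs : 1 ≤ s) (hδs : δ * s ^ 2 ≤ 3 * 2 ^ g.I) {A : Fin M → Finset ℕ} (hA : A ∈ g.Fam) :
    ((((g.Tup ×ˢ range (2 ^ g.I + 1)).filter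
      (fun x => Prm.kp * g.N x.1 = δ * s ^ 2 + E g.r * x.2 ^ 2)).filter
        (fun x => x.1.1 = A)).card : ℝ) ≤
    (∏ q ∈ AA g A, (1 + J q δ)) * ((g.U / (∏ q ∈ AA g A, (q : ℝ))) *
      ((204800 * Real.exp C1 + 1) * (i0 * (Nat.log 2 g.I + 1) / g.I))) := by
  set L := Nat.log 2 g.I + 1 with hL
  have hL1 : 1 ≤ L := by omega
  obtain ⟨hn1, hn2, hn3, hn4⟩ := num_i1 g.I i0 L hL1 hi6 h4000
  set i1 := g.I / (3200 * L) with hi1
  have hI800 := hg.hI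
  have hIpos : (0 : ℝ) < g.I := by
    have : 0 < g.I := by omega
    exact_mod_cast this
  have hz : 2 ^ i1 ≤ 2 ^ (g.I / 2) := by
    apply Nat.pow_le_pow_right (by norm_num)
    rw [hi1]
    exact Nat.div_le_div_left (by omega) (by norm_num)
  have hsI : s ≤ 2 ^ g.I := by
    have h23 : 3 ≤ δ := by
      have := hδ.1
      have := hδ.2.2
      omega
    have h2 : 3 * s ^ 2 ≤ 3 * 2 ^ g.I := le_trans (Nat.mul_le_mul_right _ h23) hδs
    have h3 : s ≤ s ^ 2 := by nlinarith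
    omega
  have hAc : (AA g A).card ≤ g.I := le_trans (AA_card hA) hcard
  obtain ⟨hs1, hs2⟩ := h5 g.I i0 i1 g.r δ s (AA g A) (by omega) hn1 hn2 hi0 hδ hbad hs hsI hAc
  set σ := (∑ p ∈ Pr2 i0 i1 \ AA g A, ((Om g.r δ s p).card : ℝ) / p) with hσ
  have hfix := h4 g.r δ s ⌊g.U⌋₊ (2 ^ (g.I / 40)) (2 ^ i1) (80 * L) (AA g A)
    (Pr2 i0 i1 \ AA g A) hδ (Nat.one_le_two_pow) (fun q hq => AA_prime hg hA hq) (by
      intro p hp
      obtain ⟨hp1, hp2⟩ := Finset.mem_sdiff.1 hp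
      unfold Pr2 at hp1
      rw [Finset.mem_filter, Finset.mem_Ioc] at hp1
      have h64 : 2 ^ 6 ≤ 2 ^ i0 := Nat.pow_le_pow_right (by norm_num) hi6
      refine ⟨hp1.2, by omega, hp1.1.2, hp2⟩) hn3 (by
      rw [← hσ]
      have h7 := log_le_L g.I (by omega)
      rw [← hL] at h7
      push_cast
      have h8 : (0:ℝ) ≤ (L : ℝ) := by positivity
      linarith) (sum_sq_le i0 i1 hi6 hn1 _)
  have hfib := fiber_le hg hA δ s (2 ^ i1) hz
  rw [← hσ] at hfix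
  refine le_trans (Nat.cast_le.2 hfib) (le_trans hfix ?_)
  have hprod0 : 0 ≤ ∏ q ∈ AA g A, (1 + J q δ) :=
    Finset.prod_nonneg fun q _ => (J_bounds h1 q δ).1
  apply mul_le_mul_of_nonneg_left _ hprod0
  -- the product
  have hmcast : ∏ q ∈ AA g A, (q : ℝ) = ((g.Rp * g.Q A : ℕ) : ℝ) := by
    rw [← prod_AA_nat hg hA]; push_cast; rfl
  rw [hmcast]
  set m := g.Rp * g.Q A with hm
  have hmpos : 0 < m := AA_pos hg hA
  have hmr : (0 : ℝ) < (m : ℝ) := by exact_mod_cast hmpos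
  obtain ⟨hU1, hU2⟩ := num_U hg m (hg.hRQ A hA)
  have hU0 : 0 < g.U := lt_of_lt_of_le hmr hU1
  have hfl : (⌊g.U⌋₊ : ℝ) ≤ g.U := Nat.floor_le hU0.le
  have hUm : 1 ≤ g.U / m := by rwa [le_div_iff₀ hmr, one_mul]
  have e1 : (⌊g.U⌋₊ : ℝ) / m + 1 ≤ 2 * (g.U / m) := by
    have : (⌊g.U⌋₊ : ℝ) / m ≤ g.U / m := by gcongr
    linarith
  have hi0r : (0 : ℝ) < i0 := by
    have : 0 < i0 := by omega
    exact_mod_cast this
  have hi1r : (0 : ℝ) < i1 := by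
    have : 0 < i1 := by omega
    exact_mod_cast this
  have hLr : (0 : ℝ) < L := by exact_mod_cast hL1
  have e2 : Real.exp (-σ) ≤ Real.exp C1 * (6400 * (i0 * L / g.I)) := by
    have h9 : Real.exp (-σ) ≤ Real.exp (C1 + (Real.log i0 - Real.log i1)) := by
      apply Real.exp_le_exp.2; linarith
    have h10 : Real.exp (C1 + (Real.log i0 - Real.log i1)) = Real.exp C1 * (i0 / i1) := by
      rw [Real.exp_add, Real.exp_sub, Real.exp_log hi0r, Real.exp_log hi1r]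
    rw [h10] at h9
    refine le_trans h9 ?_
    apply mul_le_mul_of_nonneg_left _ (Real.exp_pos _).le
    have h11 : (i0 : ℝ) / i1 ≤ i0 / (g.I / (6400 * L)) := by
      apply div_le_div_of_nonneg_left hi0r.le _ hn4
      positivity
    refine le_trans h11 (le_of_eq ?_)
    field_simp
  have e3 : (((2 ^ (g.I / 40) : ℕ) : ℝ)) ^ 6 ≤ g.U / m * (i0 * L / g.I) := by
    have h12 : (((2 ^ (g.I / 40) : ℕ) : ℝ)) ^ 6 ≤ g.U / m * (1 / g.I) := by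
      rw [div_mul_div_comm, mul_one, le_div_iff₀ (by positivity)]
      calc (((2 ^ (g.I / 40) : ℕ) : ℝ)) ^ 6 * (m * g.I)
          = ((2 ^ (g.I / 40) : ℕ) : ℝ) ^ 6 * m * g.I := by ring
        _ ≤ g.U := hU2
    refine le_trans h12 ?_
    have h13 : (1 : ℝ) ≤ i0 * L := by
      have : 1 ≤ i0 * L := Nat.one_le_iff_ne_zero.2 (by positivity)
      exact_mod_cast this
    gcongr
  have hE0 := Real.exp_pos C1
  have hq0 : 0 ≤ g.U / m := by positivity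
  have hw0 : (0 : ℝ) ≤ i0 * L / g.I := by positivity
  have hcastL : ((Nat.log 2 g.I : ℕ) : ℝ) + 1 = (L : ℝ) := by rw [hL]; push_cast; ring
  rw [hcastL]
  calc 16 * ((⌊g.U⌋₊ : ℝ) / m + 1) * Real.exp (-σ) + ((2 ^ (g.I / 40) : ℕ) : ℝ) ^ 6
      ≤ 16 * (2 * (g.U / m)) * (Real.exp C1 * (6400 * (i0 * L / g.I))) +
        g.U / m * (i0 * L / g.I) := by
        gcongr
    _ = g.U / m * ((204800 * Real.exp C1 + 1) * (i0 * L / g.I)) := by ring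

/-- the mass of a block twisted by the character -/
lemma blk_sum (h1 : QRStmt) {g : Cfg M} (hg : g.Ok) (i0 : ℕ) (j : Fin M)
    (hκ : i0 ≤ g.κ j ∧ g.κ j ≤ g.I) (δ : ℕ) (hbad : ¬ Bad g.I i0 δ) :
    ∑ q ∈ g.Blk j, (1 + J q δ) / q ≤
      g.S j + 1 / (g.I : ℝ) ^ 2 + g.R.card / 2 ^ (g.κ j) := by
  have e1 : ∑ q ∈ g.Blk j, (1 + J q δ) / q = g.S j + ∑ q ∈ g.Blk j, J q δ / q := by
    unfold Cfg.S
    rw [← Finset.sum_add_distrib]
    exact Finset.sum_congr rfl fun q _ => by rw [add_div]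
  have e2 : ∑ q ∈ PB (g.κ j) (g.cl j) ∩ g.R, J q δ / q + ∑ q ∈ g.Blk j, J q δ / q =
      ∑ q ∈ PB (g.κ j) (g.cl j), J q δ / q := Finset.sum_inter_add_sum_sdiff _ _ _
  have e3 : |∑ q ∈ PB (g.κ j) (g.cl j), J q δ / q| ≤ 1 / (g.I : ℝ) ^ 2 := by
    by_contra hc
    push Not at hc
    exact hbad ⟨g.κ j, hκ.1, hκ.2, g.cl j, by rcases hg.hcl j with h | h <;> rw [h] <;> simp, hc⟩
  have e4 : |∑ q ∈ PB (g.κ j) (g.cl j) ∩ g.R, J q δ / q| ≤ g.R.card / 2 ^ (g.κ j) := by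
    refine le_trans (Finset.abs_sum_le_sum_abs _ _) ?_
    calc ∑ q ∈ PB (g.κ j) (g.cl j) ∩ g.R, |J q δ / q|
        ≤ ∑ _q ∈ PB (g.κ j) (g.cl j) ∩ g.R, (1 : ℝ) / 2 ^ (g.κ j) := by
          apply Finset.sum_le_sum
          intro q hq
          have hq1 := (mem_PB _ _ _).1 (Finset.mem_inter.1 hq).1
          have hqr : (2 : ℝ) ^ (g.κ j) ≤ q := by exact_mod_cast hq1.1.1.le
          have hq0 : (0 : ℝ) < 2 ^ (g.κ j) := by positivity
          rw [abs_div, abs_of_pos (lt_of_lt_of_le hq0 hqr)]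
          exact div_le_div₀ zero_le_one (J_bounds h1 q δ).2.2 hq0 hqr
      _ = (PB (g.κ j) (g.cl j) ∩ g.R).card * (1 / 2 ^ (g.κ j)) := by
          rw [Finset.sum_const, nsmul_eq_mul]
      _ ≤ g.R.card * (1 / 2 ^ (g.κ j)) := by
          have : ((PB (g.κ j) (g.cl j) ∩ g.R).card : ℝ) ≤ g.R.card := by
            exact_mod_cast Finset.card_le_card Finset.inter_subset_right
          gcongr
      _ = g.R.card / 2 ^ (g.κ j) := by ring
  have h3 := (abs_le.1 e3).2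
  have h4 := (abs_le.1 e4).1
  rw [e1]
  linarith

end T5

/-- task B-T5 -/
theorem goodCount (h1 : QRStmt) (h2 : ESStmt) (h3 : TupStmt) (h4 : FixStmt) (h5 : SigStmt) :
    GoodCount := by
  classical
  obtain ⟨C1, hC1, h5⟩ := h5
  refine ⟨204800 * Real.exp C1 + 1, by positivity, 2 ^ ⌈C1 + 1⌉₊, ?_⟩
  intro M g hg hI0 i0 hi6 hi0 h4000 hκ hcard δ s hδ hbad hs hδs
  have hL0 : C1 + 1 ≤ ((Nat.log 2 g.I + 1 : ℕ) : ℝ) := by
    have h6 : ⌈C1 + 1⌉₊ ≤ Nat.log 2 g.I := by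
      apply (Nat.le_log_iff_pow_le (by norm_num) ?_).2 hI0
      have := hg.hI
      omega
    have h7 : ((⌈C1 + 1⌉₊ : ℕ) : ℝ) ≤ ((Nat.log 2 g.I + 1 : ℕ) : ℝ) := by
      exact_mod_cast (by omega)
    exact le_trans (Nat.le_ceil _) h7
  set F := (g.Tup ×ˢ range (2 ^ g.I + 1)).filter
      (fun x => Prm.kp * g.N x.1 = δ * s ^ 2 + E g.r * x.2 ^ 2) with hF
  have hmaps : ∀ x ∈ F, x.1.1 ∈ g.Fam := by
    intro x hx
    rw [hF, Finset.mem_filter, Finset.mem_product] at hx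
    exact (Finset.mem_sigma.1 hx.1.1).1
  have hsum : (F.card : ℝ) = ∑ A ∈ g.Fam, ((F.filter (fun x => x.1.1 = A)).card : ℝ) := by
    rw [Finset.card_eq_sum_card_fiberwise
      (f := fun x : (Σ _ : Fin M → Finset ℕ, ℕ) × ℕ => x.1.1) (t := g.Fam)
      (fun x hx => Finset.mem_coe.2 (hmaps x (Finset.mem_coe.1 hx)))]
    push_cast
    rfl
  have hcount : (F.card : ℝ) ≤ ∑ A ∈ g.Fam, (∏ q ∈ T5.AA g A, (1 + J q δ)) *
      ((g.U / (∏ q ∈ T5.AA g A, (q : ℝ))) *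
      ((204800 * Real.exp C1 + 1) * (i0 * (Nat.log 2 g.I + 1) / g.I))) := by
    rw [hsum]
    apply Finset.sum_le_sum
    intro A hA
    have := T5.fiber_bound h1 h4 C1 hC1 h5 hg hL0 i0 hi6 hi0 h4000 hcard δ s hδ hbad hs hδs hA
    convert this using 2
  have hterm : ∀ A ∈ g.Fam, (∏ q ∈ T5.AA g A, (1 + J q δ)) *
      ((g.U / (∏ q ∈ T5.AA g A, (q : ℝ))) *
      ((204800 * Real.exp C1 + 1) * (i0 * (Nat.log 2 g.I + 1) / g.I))) =
      (g.U * ((204800 * Real.exp C1 + 1) * (i0 * (Nat.log 2 g.I + 1) / g.I)) *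
        (∏ q ∈ g.R, (1 + J q δ) / q)) * ∏ j, ∏ q ∈ A j, (1 + J q δ) / q := by
    intro A hA
    have e := T5.prod_AA hg hA (fun q => (1 + J q δ) / (q : ℝ))
    rw [Finset.prod_div_distrib] at e
    rw [mul_assoc, ← e]
    ring
  have hfam := h2.fam M g.Blk g.k (fun q => (1 + J q δ) / (q : ℝ))
  have hFam : g.Fam = Fintype.piFinset (fun j => powersetCard (g.k j) (g.Blk j)) := rfl
  rw [Finset.sum_congr rfl hterm, ← Finset.mul_sum, hFam, hfam] at hcount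
  refine le_trans hcount ?_
  -- the killing primes
  have hRprod : ∏ q ∈ g.R, (1 + J q δ) / (q : ℝ) ≤ 2 ^ g.R.card / g.Rp := by
    rw [Finset.prod_div_distrib]
    have h8 : ∏ q ∈ g.R, (1 + J q δ) ≤ 2 ^ g.R.card := by
      calc ∏ q ∈ g.R, (1 + J q δ) ≤ ∏ _q ∈ g.R, (2 : ℝ) :=
            Finset.prod_le_prod (fun q _ => (T5.J_bounds h1 q δ).1)
              (fun q _ => (T5.J_bounds h1 q δ).2.1)
        _ = 2 ^ g.R.card := by rw [Finset.prod_const]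
    have h9 : ∏ q ∈ g.R, (q : ℝ) = (g.Rp : ℝ) := by
      unfold Cfg.Rp; push_cast; rfl
    rw [h9]
    gcongr
  have hRprod0 : 0 ≤ ∏ q ∈ g.R, (1 + J q δ) / (q : ℝ) :=
    Finset.prod_nonneg fun q _ => div_nonneg (T5.J_bounds h1 q δ).1 (by positivity)
  -- the blocks
  have hblk : ∏ j, ∑ A ∈ powersetCard (g.k j) (g.Blk j), ∏ q ∈ A, (1 + J q δ) / (q : ℝ) ≤
      ∏ j, ((g.S j + 1 / (g.I : ℝ) ^ 2 + g.R.card / 2 ^ (g.κ j)) ^ g.k j /
        ((g.k j).factorial : ℝ)) := by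
    apply Finset.prod_le_prod
    · intro j _
      exact Finset.sum_nonneg fun A _ => Finset.prod_nonneg fun q _ =>
        div_nonneg (T5.J_bounds h1 q δ).1 (by positivity)
    · intro j _
      refine le_trans (h2.up (g.Blk j) (fun q => (1 + J q δ) / (q : ℝ)) (g.k j)
        (fun q _ => div_nonneg (T5.J_bounds h1 q δ).1 (by positivity))) ?_
      have h10 := T5.blk_sum h1 hg i0 j (hκ j) δ hbad
      have h11 : 0 ≤ ∑ q ∈ g.Blk j, (1 + J q δ) / (q : ℝ) :=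
        Finset.sum_nonneg fun q _ => div_nonneg (T5.J_bounds h1 q δ).1 (by positivity)
      gcongr
  have hblk0 : 0 ≤ ∏ j, ∑ A ∈ powersetCard (g.k j) (g.Blk j), ∏ q ∈ A, (1 + J q δ) / (q : ℝ) :=
    Finset.prod_nonneg fun j _ => Finset.sum_nonneg fun A _ => Finset.prod_nonneg fun q _ =>
        div_nonneg (T5.J_bounds h1 q δ).1 (by positivity)
  have hU0 : 0 ≤ g.U := by unfold Cfg.U; positivity
  calc g.U * ((204800 * Real.exp C1 + 1) * (i0 * (Nat.log 2 g.I + 1) / g.I)) *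
        (∏ q ∈ g.R, (1 + J q δ) / (q : ℝ)) *
        ∏ j, ∑ A ∈ powersetCard (g.k j) (g.Blk j), ∏ q ∈ A, (1 + J q δ) / (q : ℝ)
      ≤ g.U * ((204800 * Real.exp C1 + 1) * (i0 * (Nat.log 2 g.I + 1) / g.I)) *
        (2 ^ g.R.card / g.Rp) *
        ∏ j, ((g.S j + 1 / (g.I : ℝ) ^ 2 + g.R.card / 2 ^ (g.κ j)) ^ g.k j /
          ((g.k j).factorial : ℝ)) := by
        gcongr
    _ = _ := by ring

end Pool.Agent.H13.MO
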