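import Pool.Agent.H13.MO.Defs

set_option autoImplicit false

/-! Task B-TUP of project OP (helper307): the prime factors of the number of a tuple. -/

namespace Pool.Agent.H13.MO

open Finset Pool.Agent.H307R2.OP

/-- task B-TUP -/
theorem tup : TupStmt := by
  classical
  rintro M g hg ⟨A, p⟩ ht
  obtain ⟨hinj, hr, hrI, hI, hR, hκ, hcl, hRQ, hc⟩ := hg
  simp only [Cfg.Tup, Finset.mem_sigma] at ht
  obtain ⟨hA, hp⟩ := ht
  have hRQA := hRQ A hA
  simp only [Cfg.Fam, Fintype.mem_piFinset, Finset.mem_powersetCard] at hA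
  simp only [Cfg.Pr, Finset.mem_filter, Finset.mem_Ioc] at hp
  obtain ⟨⟨hp1, hp2⟩, hpp, hp8⟩ := hp
  -- the small primes
  have hAq : ∀ j, ∀ q ∈ A j, q.Prime ∧ 5 ≤ q ∧ q % 8 = g.cl j ∧ q ∉ g.R ∧
      2 ^ (g.κ j) < q ∧ q ≤ 2 ^ (g.κ j + 1) := by
    intro j q hq
    have h1 := (hA j).1 hq
    simp only [Cfg.Blk, PB, Finset.mem_sdiff, Finset.mem_filter, Finset.mem_Ioc] at h1
    obtain ⟨⟨⟨h2, h3⟩, h4, h5⟩, h6⟩ := h1
    refine ⟨h4, ?_, h5, h6, h2, h3⟩
    have h7 : 2 ^ 3 ≤ 2 ^ (g.κ j) := Nat.pow_le_pow_right (by norm_num) (hκ j)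
    omega
  have hdisj : ∀ j j' : Fin M, j ≠ j' → Disjoint (A j) (A j') := by
    intro j j' hne
    rw [Finset.disjoint_left]
    intro q hq hq'
    obtain ⟨-, -, -, -, h1, h2⟩ := hAq j q hq
    obtain ⟨-, -, -, -, h3, h4⟩ := hAq j' q hq'
    have h5 : g.κ j < g.κ j' + 1 :=
      (Nat.pow_lt_pow_iff_right (by norm_num : 1 < 2)).1 (lt_of_lt_of_le h1 h4)
    have h6 : g.κ j' < g.κ j + 1 :=
      (Nat.pow_lt_pow_iff_right (by norm_num : 1 < 2)).1 (lt_of_lt_of_le h3 h2)
    exact hne (hinj (by omega))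
  set B : Finset ℕ := Finset.univ.biUnion A with hB
  have hRB : Disjoint g.R B := by
    rw [Finset.disjoint_right]
    intro q hq
    obtain ⟨j, -, hj⟩ := Finset.mem_biUnion.1 hq
    exact (hAq j q hj).2.2.2.1
  have hprodB : ∏ q ∈ B, q = g.Q A := by
    rw [hB, Finset.prod_biUnion (fun j _ j' _ hne => hdisj j j' hne)]
    rfl
  have hprodRB : ∏ q ∈ g.R ∪ B, q = g.Rp * g.Q A := by
    rw [Finset.prod_union hRB, hprodB]
    rfl
  have hpos : 0 < g.Rp * g.Q A := by
    rw [← hprodRB]
    apply Finset.prod_pos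
    intro q hq
    rcases Finset.mem_union.1 hq with h | h
    · exact (hR q h).1.pos
    · obtain ⟨j, -, hj⟩ := Finset.mem_biUnion.1 h
      exact (hAq j q hj).1.pos
  have hpRB : p ∉ g.R ∪ B := by
    intro h
    have h1 : p ∣ g.Rp * g.Q A := by
      rw [← hprodRB]
      exact Finset.dvd_prod_of_mem _ h
    have h2 := Nat.le_of_dvd hpos h1
    have h3 : 2 ^ (g.I / 8) ≤ 2 ^ (g.I / 2) := Nat.pow_le_pow_right (by norm_num) (by omega)
    omega
  have hp5 : 5 ≤ p := by
    have h7 : 2 ^ 3 ≤ 2 ^ (g.I / 2) := Nat.pow_le_pow_right (by norm_num) (by omega)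
    omega
  have hN : ∏ q ∈ (g.R ∪ B) ∪ {p}, q = g.N ⟨A, p⟩ := by
    rw [Finset.prod_union (Finset.disjoint_singleton_right.2 hpRB), hprodRB,
      Finset.prod_singleton]
    rfl
  have hprime : ∀ q ∈ (g.R ∪ B) ∪ {p}, q.Prime ∧ 5 ≤ q ∧ (q % 8 = 3 ∨ q % 8 = 5) := by
    intro q hq
    rcases Finset.mem_union.1 hq with h | h
    · rcases Finset.mem_union.1 h with h | h
      · exact hR q h
      · obtain ⟨j, -, hj⟩ := Finset.mem_biUnion.1 h
        obtain ⟨h1, h2, h3, -⟩ := hAq j q hj
        exact ⟨h1, h2, by rw [h3]; exact hcl j⟩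
    · rw [Finset.mem_singleton] at h
      subst h
      refine ⟨hpp, hp5, ?_⟩
      rw [hp8]
      exact hc
  refine ⟨(g.R ∪ B) ∪ {p}, hprime, hN, ?_, ?_, ?_, ?_, ?_, ?_⟩
  · rw [Finset.card_union_of_disjoint (Finset.disjoint_singleton_right.2 hpRB),
      Finset.card_union_of_disjoint hRB, Finset.card_singleton, hB,
      Finset.card_biUnion (fun j _ j' _ hne => hdisj j j' hne)]
    rw [Finset.sum_congr rfl (fun j _ => (hA j).2)]
    ring
  · have hB3 : (B.filter (fun q => q % 8 = 3)).card = ∑ j, (if g.cl j = 3 then g.k j else 0) := by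
      rw [hB, Finset.filter_biUnion, Finset.card_biUnion (fun j _ j' _ hne =>
        (hdisj j j' hne).mono (Finset.filter_subset _ _) (Finset.filter_subset _ _))]
      refine Finset.sum_congr rfl fun j _ => ?_
      split_ifs with h
      · rw [← (hA j).2]
        congr 1
        rw [Finset.filter_eq_self]
        intro q hq
        rw [(hAq j q hq).2.2.1, h]
      · rw [Finset.card_eq_zero, Finset.filter_eq_empty_iff]
        intro q hq
        rw [(hAq j q hq).2.2.1]
        exact h
    rw [Finset.filter_union, Finset.filter_union, Finset.filter_singleton,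
      Finset.card_union_of_disjoint, Finset.card_union_of_disjoint
        (hRB.mono (Finset.filter_subset _ _) (Finset.filter_subset _ _)), hB3, hp8]
    · have e1 : ((if g.c = 3 then ({p} : Finset ℕ) else ∅)).card = if g.c = 3 then 1 else 0 := by
        split_ifs <;> simp
      rw [e1]
      ring
    · rw [Finset.disjoint_left]
      intro q hq hq'
      have h1 : q ∈ g.R ∪ B := by
        rcases Finset.mem_union.1 hq with h | h
        · exact Finset.mem_union_left _ (Finset.mem_filter.1 h).1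
        · exact Finset.mem_union_right _ (Finset.mem_filter.1 h).1
      split_ifs at hq' with h
      · rw [Finset.mem_singleton] at hq'
        subst hq'
        exact hpRB h1
      · simp at hq'
  · exact Finset.subset_union_left.trans Finset.subset_union_left
  · intro j
    exact (Finset.subset_biUnion_of_mem A (Finset.mem_univ j)).trans
      (Finset.subset_union_right.trans Finset.subset_union_left)
  · intro q hq
    refine ⟨?_, ?_⟩
    · rw [← hN]
      exact Finset.dvd_prod_of_mem _ hq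
    · intro hdvd
      rw [← hN, ← Finset.mul_prod_erase _ _ hq, sq] at hdvd
      have hq0 := (hprime q hq).1
      have h1 := Nat.dvd_of_mul_dvd_mul_left hq0.pos hdvd
      rw [hq0.prime.dvd_finsetProd_iff] at h1
      obtain ⟨q', hq', h2⟩ := h1
      rw [Finset.mem_erase] at hq'
      exact hq'.1 ((Nat.prime_dvd_prime_iff_eq hq0 (hprime q' hq'.2).1).1 h2).symm
  · show g.Rp * g.Q A * p ≤ 2 ^ g.I
    exact (Nat.mul_le_mul_left _ hp2).trans (Nat.mul_div_le _ _)

end Pool.Agent.H13.MO
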