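import Pool.Graph.R_seed8.H307R2.OP.Final
import Pool.Agent.H13.MO.QR
import Pool.Agent.H13.MO.BAD2
import Pool.Agent.H13.MO.F1
import Pool.Agent.H13.MO.F2
import Pool.Agent.H13.MO.STR
import Pool.Agent.H13.MO.FIX
import Pool.Agent.H13.MO.SIG
import Pool.Agent.H13.MO.TUP
import Pool.Agent.H13.MO.T2
import Pool.Agent.H13.MO.T3
import Pool.Agent.H13.MO.T5
import Pool.Agent.H13.MO.KP
import Pool.Agent.H13.MO.PC
import Pool.Agent.H13.MO.SB
import Pool.Agent.H13.MO.PAP
import Pool.Agent.H13.MO.Btu
import Pool.Agent.H13.MO.Rch

set_option autoImplicit false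

/-! Assembly -/

namespace Pool.Agent.H13.MO

open Pool.Agent.H307R2.OP (badCount bt4 sv es pc)

variable [P : Prm]

theorem badAt_main : BadAtCount := badAtCount badCount

theorem strong_main : StrongStmt := strong bt4 pc2

theorem fix_main : FixStmt := fix qr sv

theorem sig_main : SigStmt := sig qr

theorem tupLarge_main : TupLarge := tupLarge qr es tup

theorem tupSmall_main : TupSmall := tupSmall qr es tup pc

theorem good_main : GoodCount := goodCount qr es tup fix_main sig_main

theorem badSum_main : BadSum := badSum badAt_main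

theorem badNum_main : BadNum := badNum badAt_main

end Pool.Agent.H13.MO
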