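import Pool.Agent.H13.MO.Main2

set_option autoImplicit false

/-!
# Odd values of the number of `t`-multipartitions for (almost) all odd `t`
-/

namespace Pool.Agent.H13.MO

open PowerSeries Pool.Agent.H397R2.PP Finset
open Pool.Agent.H307R2.OP (sp)
open Pool.Agent.H413R3.Part (mp)
open Pool.Agent.H413R3.OddT (oddAPT oddAPT_mono from_y existsOddT)

/-- the statement for `t` -/
def StT (t : ℕ) : Prop := ∀ ε : ℝ, 0 < ε → ∃ x0 : ℝ, ∀ x : ℕ, x0 ≤ x → ∀ b ρ : ℕ,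
    (2 : ℝ) ^ b ≤ Real.log x ^ (2 - ε) →
    Real.sqrt x * Real.log x ^ (1 - ε) / 2 ^ b ≤ (oddAPT t b ρ x : ℝ)

/-- the parameters for `t ≡ 1 (mod 3)` -/
@[reducible] def PA : Prm := ⟨0, 3, Or.inl rfl, Or.inr rfl⟩

/-- the parameters for `t ≡ 2 (mod 3)` -/
@[reducible] def PBB : Prm := ⟨1, 3, Or.inr rfl, Or.inr rfl⟩

/-- the parameters for `3 ∣ t` -/
@[reducible] def PCC : Prm := ⟨0, 1, Or.inl rfl, Or.inl rfl⟩

theorem sq_mod3 (s : ℕ) : s * s % 3 = 0 ∨ s * s % 3 = 1 := by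
  have h : s % 3 = 0 ∨ s % 3 = 1 ∨ s % 3 = 2 := by omega
  rcases h with h | h | h <;> rw [Nat.mul_mod, h] <;> norm_num

theorem sq_mod8 (s : ℕ) (h : s * s % 2 = 1) : s * s % 8 = 1 := by
  have h2 : s % 2 = 1 := by
    rcases Nat.mod_two_eq_zero_or_one s with h1 | h1
    · rw [Nat.mul_mod, h1] at h
      norm_num at h
    · exact h1
  have h3 : s % 8 = 1 ∨ s % 8 = 3 ∨ s % 8 = 5 ∨ s % 8 = 7 := by omega
  rcases h3 with h | h | h | h <;> rw [Nat.mul_mod, h]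

theorem caseA (t : ℕ) (ht : t % 2 = 1) (h3 : t % 3 = 1) : StT t := by
  obtain ⟨k, a, m, hk1, hm, hexp⟩ := expA t ht h3
  have e4 : ∀ r : ℕ, (2 : ℕ) ^ (2 * r) = 4 ^ r := fun r => by rw [pow_mul]; norm_num
  have hE : ∀ r, @E PA r = 4 ^ r := fun r => by
    show 2 ^ 0 * 4 ^ r = 4 ^ r
    ring
  have hme : ∀ X, @mexp PA X a = 2 * sp a + 4 * sp X + 1 := fun X => if_pos rfl
  refine from_y (oddAPT t) (oddAPT_mono t) (@mainM PA t t k m (2 ^ (k - 1)) a (fun _ => a) ht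
    (fun r => Nat.le_add_left _ _) ?_ ?_ (Or.inl ?_))
  · intro r hr
    rw [hE, hme]
    exact hexp r hr
  · intro r hr N hN
    rw [hE]
    rw [hme] at hN
    have h1 := hexp r hr
    rw [← e4] at h1
    obtain ⟨n, u, hn, hu⟩ := existsOddT t (2 * r) _ N h1 hN
    refine ⟨n, u, hn, ?_⟩
    rw [e4] at hu
    show 8 * (3 * n) + 4 ^ r * u ^ 2 = 3 * N + t
    omega
  · intro x hx
    rintro ⟨s, hs⟩
    have h1 := sq_mod3 s
    rw [← hs] at h1
    change t < 8 * (3 * x) at hx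
    change (8 * (3 * x) - t) % 3 = 0 ∨ (8 * (3 * x) - t) % 3 = 1 at h1
    omega

theorem caseB (t : ℕ) (ht : t % 2 = 1) (h3 : t % 3 = 2)
    (hx : t % 24 = 23 → ∃ i, 2 ≤ (t + 1) / 6 / 4 ^ i % 4) : StT t := by
  obtain ⟨k, a, m, hk1, ha, hexp⟩ := expB t ht h3
  have e4 : ∀ r : ℕ, (2 : ℕ) ^ (2 * r + 1) = 2 * 4 ^ r := fun r => by
    rw [pow_succ, pow_mul]; norm_num; ring
  have hE : ∀ r, @E PBB r = 2 * 4 ^ r := fun r => by
    show 2 ^ 1 * 4 ^ r = 2 * 4 ^ r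
    ring
  have hme : ∀ X, @mexp PBB X m = 2 * sp X + 4 * sp m + 1 := fun X => if_neg one_ne_zero
  refine from_y (oddAPT t) (oddAPT_mono t) (@mainM PBB t t k a (2 ^ k) m (fun _ => m) ht
    (fun r => Nat.le_add_left _ _) ?_ ?_ ?_)
  · intro r hr
    rw [hE, hme]
    exact hexp r hr
  · intro r hr N hN
    rw [hE]
    rw [hme] at hN
    have h1 := hexp r hr
    rw [← e4] at h1
    obtain ⟨n, u, hn, hu⟩ := existsOddT t (2 * r + 1) _ N h1 hN
    refine ⟨n, u, hn, ?_⟩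
    rw [e4] at hu
    show 8 * (3 * n) + 2 * 4 ^ r * u ^ 2 = 3 * N + t
    omega
  · rcases Nat.eq_zero_or_pos m with hm | hm
    · left
      have h23 : t % 24 ≠ 23 := by
        intro h
        obtain ⟨i, hi⟩ := hx h
        have h1 := hexp k le_rfl
        rw [hm] at h1
        have h2 := expB_ne t k a ha h1 i
        omega
      intro x hx
      rintro ⟨s, hs⟩
      change t < 8 * (3 * x) at hx
      change 8 * (3 * x) - t = s * s at hs
      have h1 := sq_mod8 s (by rw [← hs]; omega)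
      rw [← hs] at h1
      omega
    · right
      intro r _
      exact hm

theorem caseC (τ : ℕ) (ht : τ % 2 = 1) : StT (3 * τ) := by
  obtain ⟨k, a, m, hk1, ha, hm, hexp⟩ := expC τ ht
  have e4 : ∀ r : ℕ, (2 : ℕ) ^ (2 * r) = 4 ^ r := fun r => by rw [pow_mul]; norm_num
  have hE : ∀ r, @E PCC r = 4 ^ r := fun r => by
    show 2 ^ 0 * 4 ^ r = 4 ^ r
    ring
  have hme : ∀ X a, @mexp PCC X a = 2 * sp a + 4 * sp X + 1 := fun X a => if_pos rfl
  refine from_y (oddAPT (3 * τ)) (oddAPT_mono (3 * τ)) (@mainM PCC (3 * τ) τ (k + 1) m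
    (2 ^ (k - 1)) a (fun r => 2 ^ r + a - 2 ^ k) ht (fun r => Nat.sub_le _ _) ?_ ?_ (Or.inr ?_))
  · intro r hr
    rw [hE, hme]
    show 1 * _ + τ = _
    rw [one_mul]
    exact hexp r (by omega)
  · intro r hr N hN
    rw [hE]
    rw [hme] at hN
    have h1 := hexp r (by omega)
    rw [← e4] at h1
    obtain ⟨n, u, hn, hu⟩ := existsOdd3 τ (2 * r) _ N h1 hN
    refine ⟨n, u, hn, ?_⟩
    rw [e4] at hu
    show 8 * (1 * n) + 4 ^ r * u ^ 2 = 1 * N + τ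
    omega
  · intro r hr
    have h1 : 2 ^ (k + 1) ≤ 2 ^ r := Nat.pow_le_pow_right (by norm_num) hr
    have h2 : 1 ≤ 2 ^ k := Nat.one_le_two_pow
    rw [pow_succ] at h1
    show 1 ≤ 2 ^ r + a - 2 ^ k
    omega

/-- **odd values of the number of `t`-multipartitions, `t` odd** -/
theorem finalM (t : ℕ) (ht : t % 2 = 1) (hx : t % 24 = 23 → ∃ i, 2 ≤ (t + 1) / 6 / 4 ^ i % 4) :
    StT t := by
  have h3 : t % 3 = 0 ∨ t % 3 = 1 ∨ t % 3 = 2 := by omega
  rcases h3 with h | h | h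
  · obtain ⟨τ, rfl⟩ : ∃ τ, t = 3 * τ := ⟨t / 3, by omega⟩
    exact caseC τ (by omega)
  · exact caseA t ht h
  · exact caseB t ht h hx

end Pool.Agent.H13.MO
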