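import Pool.Graph.R_seed8.H307R2.OP.KP

set_option autoImplicit false

/-!
# Sums of products of four nonprincipal characters with a smooth weight
-/

namespace Pool.Agent.H13.MO.KP

open Finset ArithmeticFunction
open Pool.Agent.H307R2.OP.KP (abel_bound period_bound)

/-- the sum of `f n * g (n x)` -/
noncomputable def T (y : ℕ) (f : ArithmeticFunction ℤ) (g : ℝ → ℝ) (x : ℝ) : ℝ :=
  ∑ n ∈ range (y + 1), (f n : ℝ) * g (n * x)

/-- functions that vanish beyond `y` and whose `k`-th derivative `(x d/dx)^k` is at most `B` -/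
def Cl (y : ℕ) : ℕ → ℝ → (ℝ → ℝ) → Prop
  | 0, B, g => (∀ x, 1 ≤ x → |g x| ≤ B) ∧ ∀ x, (y : ℝ) ≤ x → g x = 0
  | k + 1, B, g => (∃ g1, Cl y k B g1 ∧ ∀ x, 0 < x → HasDerivAt g (g1 x / x) x) ∧
      ∀ x, (y : ℝ) ≤ x → g x = 0

lemma Cl_zero {y k : ℕ} {B : ℝ} {g : ℝ → ℝ} (h : Cl y k B g) : ∀ x, (y : ℝ) ≤ x → g x = 0 := by
  cases k with
  | zero => exact h.2
  | succ k => exact h.2

lemma T_zero (y : ℕ) (f : ArithmeticFunction ℤ) {g : ℝ → ℝ} (h : ∀ x, (y : ℝ) ≤ x → g x = 0) :
    ∀ x, (y : ℝ) ≤ x → T y f g x = 0 := by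
  intro x hx
  unfold T
  refine sum_eq_zero fun n _ => ?_
  rcases Nat.eq_zero_or_pos n with rfl | hn
  · simp
  · rw [h, mul_zero]
    have h1 : (1 : ℝ) ≤ n := by exact_mod_cast hn
    have h0 : (0 : ℝ) ≤ y := Nat.cast_nonneg _
    nlinarith

lemma T_deriv (y : ℕ) (f : ArithmeticFunction ℤ) {g g1 : ℝ → ℝ}
    (h : ∀ x, 0 < x → HasDerivAt g (g1 x / x) x) (x : ℝ) (hx : 0 < x) :
    HasDerivAt (T y f g) (T y f g1 x / x) x := by
  have e : T y f g1 x / x = ∑ n ∈ range (y + 1), (f n : ℝ) * (g1 (n * x) / x) := by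
    unfold T
    rw [Finset.sum_div]
    exact sum_congr rfl fun n _ => by rw [mul_div_assoc]
  rw [e]
  have e2 : T y f g = fun x => ∑ n ∈ range (y + 1), (f n : ℝ) * g (n * x) := rfl
  rw [e2]
  refine HasDerivAt.fun_sum fun n _ => ?_
  rcases Nat.eq_zero_or_pos n with rfl | hn
  · simp only [ArithmeticFunction.map_zero, Int.cast_zero, zero_mul]
    exact hasDerivAt_const x 0
  · have hn' : (0 : ℝ) < n := by exact_mod_cast hn
    have h1 := h (n * x) (by positivity)
    have h2 : HasDerivAt (fun x : ℝ => (n : ℝ) * x) n x := by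
      simpa using (hasDerivAt_id x).const_mul (n : ℝ)
    have h3 := (HasDerivAt.comp x h1 h2).const_mul (f n : ℝ)
    have h4 : (f n : ℝ) * (g1 (n * x) / (n * x) * n) = (f n : ℝ) * (g1 (n * x) / x) := by
      field_simp
    rw [h4] at h3
    exact h3

lemma mvt {g g1 : ℝ → ℝ} {B : ℝ} (hB : ∀ x, 1 ≤ x → |g1 x| ≤ B)
    (h : ∀ x, 0 < x → HasDerivAt g (g1 x / x) x) (a b : ℝ) (ha : 1 ≤ a) (hab : a < b) :
    |g b - g a| ≤ B / a * (b - a) := by
  obtain ⟨c, hc, hc2⟩ := exists_hasDerivAt_eq_slope g (fun x => g1 x / x) hab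
    (fun x hx => (h x (by have := hx.1; linarith)).continuousAt.continuousWithinAt)
    (fun x hx => h x (by have := hx.1; linarith))
  have hba : 0 < b - a := by linarith
  rw [eq_div_iff hba.ne'] at hc2
  rw [← hc2, abs_mul, abs_of_pos hba]
  apply mul_le_mul_of_nonneg_right _ hba.le
  have hca : a < c := hc.1
  have hc0 : 0 < c := by linarith
  rw [abs_div, abs_of_pos hc0]
  have hB0 : 0 ≤ B := (abs_nonneg _).trans (hB 1 le_rfl)
  exact div_le_div₀ hB0 (hB c (by linarith)) (by linarith) hca.le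

/-- the bound for one sum -/
lemma T_bound {y m : ℕ} (f : ArithmeticFunction ℤ)
    (hf : ∀ n, |∑ i ∈ range n, (f i : ℝ)| ≤ m) {g g1 : ℝ → ℝ} {B : ℝ}
    (hB : ∀ x, 1 ≤ x → |g1 x| ≤ B) (h : ∀ x, 0 < x → HasDerivAt g (g1 x / x) x)
    (hz : ∀ x, (y : ℝ) ≤ x → g x = 0) (x : ℝ) (hx : 1 ≤ x) :
    |T y f g x| ≤ m * (2 * B * (1 + Real.log (y + 1))) := by
  have hB0 : 0 ≤ B := (abs_nonneg _).trans (hB 1 le_rfl)
  set G : ℕ → ℝ := fun i => g ((max i 1 : ℕ) * x) with hG
  have e1 : T y f g x = ∑ i ∈ range (y + 1), (f i : ℝ) * G i := by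
    unfold T
    refine sum_congr rfl fun i _ => ?_
    rcases Nat.eq_zero_or_pos i with rfl | hi
    · simp
    · rw [hG]
      simp only [max_eq_left (by omega : 1 ≤ i)]
  rw [e1]
  refine (abel_bound _ G m hf (y + 1)).trans ?_
  apply mul_le_mul_of_nonneg_left _ (Nat.cast_nonneg _)
  have e2 : G (y + 1) = 0 := by
    rw [hG]
    simp only
    rw [max_eq_left (by omega)]
    apply hz
    push_cast
    have h0 : (0 : ℝ) ≤ y := Nat.cast_nonneg _
    nlinarith
  rw [e2, abs_zero, zero_add]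
  have e3 : ∀ i ∈ range (y + 1), |G (i + 1) - G i| ≤ B * ((i : ℝ) + 1)⁻¹ * 2 := by
    intro i _
    rcases Nat.eq_zero_or_pos i with rfl | hi
    · have : G (0 + 1) - G 0 = 0 := by
        rw [hG]
        simp
      rw [this, abs_zero]
      positivity
    · have hi' : (1 : ℝ) ≤ i := by exact_mod_cast hi
      have e4 : G (i + 1) - G i = g (((i : ℝ) + 1) * x) - g (i * x) := by
        rw [hG]
        simp only
        rw [max_eq_left (by omega), max_eq_left (by omega)]
        push_cast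
        rfl
      rw [e4]
      refine (mvt hB h (i * x) ((i + 1) * x) (by nlinarith) (by nlinarith)).trans ?_
      have e5 : B / (i * x) * ((i + 1) * x - i * x) = B / i := by
        field_simp
        ring
      rw [e5, div_eq_mul_inv, mul_assoc]
      apply mul_le_mul_of_nonneg_left _ hB0
      rw [inv_mul_eq_div, inv_eq_one_div, div_le_div_iff₀ (by linarith) (by linarith)]
      linarith
  refine (sum_le_sum e3).trans ?_
  have e6 : ∑ i ∈ range (y + 1), B * ((i : ℝ) + 1)⁻¹ * 2 = 2 * B * (harmonic (y + 1) : ℝ) := by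
    rw [harmonic]
    push_cast
    rw [Finset.mul_sum]
    exact sum_congr rfl fun i _ => by ring
  rw [e6]
  apply mul_le_mul_of_nonneg_left _ (by positivity)
  have := harmonic_le_one_add_log (y + 1)
  push_cast at this
  exact this

lemma T_class {y m : ℕ} (f : ArithmeticFunction ℤ)
    (hf : ∀ n, |∑ i ∈ range n, (f i : ℝ)| ≤ m) (k : ℕ) : ∀ (B : ℝ) (g : ℝ → ℝ),
    Cl y (k + 1) B g → Cl y k (m * (2 * B * (1 + Real.log (y + 1)))) (T y f g) := by
  induction k with
  | zero =>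
    intro B g hg
    obtain ⟨⟨g1, hg1, hd⟩, hz⟩ := hg
    exact ⟨fun x hx => T_bound f hf hg1.1 hd hz x hx, T_zero y f hz⟩
  | succ k ih =>
    intro B g hg
    obtain ⟨⟨g1, hg1, hd⟩, hz⟩ := hg
    exact ⟨⟨T y f g1, ih B g1 hg1, T_deriv y f hd⟩, T_zero y f hz⟩

/-! ### The weights -/

lemma hasDerivAt_pos_pow (n : ℕ) (u : ℝ) :
    HasDerivAt (fun u : ℝ => (max u 0) ^ (n + 2)) ((n + 2 : ℝ) * (max u 0) ^ (n + 1)) u := by
  rcases lt_trichotomy u 0 with h | h | h
  · have e : (fun u : ℝ => (max u 0) ^ (n + 2)) =ᶠ[nhds u] fun _ => 0 := by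
      filter_upwards [gt_mem_nhds h] with v hv
      rw [max_eq_right hv.le]
      simp
    rw [max_eq_right h.le]
    refine HasDerivAt.congr_of_eventuallyEq ?_ e
    simpa using hasDerivAt_const u (0 : ℝ)
  · subst h
    rw [max_self]
    simp only [ne_eq, Nat.add_eq_zero_iff, one_ne_zero, and_false, not_false_eq_true, zero_pow,
      mul_zero]
    rw [hasDerivAt_iff_isLittleO_nhds_zero]
    simp only [zero_add, max_self, ne_eq, Nat.add_eq_zero_iff, OfNat.ofNat_ne_zero, and_false,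
      not_false_eq_true, zero_pow, sub_zero, smul_eq_mul, mul_zero]
    have h1 : (fun h : ℝ => (max h 0) ^ (n + 2)) =O[nhds 0] fun h : ℝ => h ^ (n + 2) := by
      refine Asymptotics.IsBigO.of_bound 1 (Filter.Eventually.of_forall fun h => ?_)
      rw [one_mul, norm_pow, norm_pow]
      apply pow_le_pow_left₀ (norm_nonneg _)
      rw [Real.norm_eq_abs, Real.norm_eq_abs, abs_of_nonneg (le_max_right _ _)]
      exact max_le (le_abs_self _) (abs_nonneg _)
    refine h1.trans_isLittleO ?_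
    have := Asymptotics.isLittleO_pow_pow (𝕜 := ℝ) (m := 1) (n := n + 2) (by omega)
    simpa using this
  · have e : (fun u : ℝ => (max u 0) ^ (n + 2)) =ᶠ[nhds u] fun v => v ^ (n + 2) := by
      filter_upwards [lt_mem_nhds h] with v hv
      rw [max_eq_left hv.le]
    rw [max_eq_left h.le]
    refine HasDerivAt.congr_of_eventuallyEq ?_ e
    have := hasDerivAt_pow (n + 2) u
    simpa using this

/-- the weight -/
noncomputable def Lw (y k : ℕ) (x : ℝ) : ℝ := (max (Real.log (y / x)) 0) ^ k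

lemma Lw_class {y : ℕ} (hy : 1 ≤ y) (j : ℕ) : ∀ c : ℝ,
    Cl y j (|c| * (j + 1).factorial * Real.log y) (fun x => c * Lw y (j + 1) x) := by
  have hy' : (1 : ℝ) ≤ y := by exact_mod_cast hy
  have hz : ∀ (c : ℝ) (k : ℕ), 1 ≤ k → ∀ x, (y : ℝ) ≤ x → c * Lw y k x = 0 := by
    intro c k hk x hx
    unfold Lw
    have h1 : Real.log (y / x) ≤ 0 := by
      have hx0 : (0 : ℝ) < x := by linarith
      apply Real.log_nonpos (div_nonneg (by linarith) hx0.le)
      rw [div_le_one hx0]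
      exact hx
    rw [max_eq_right h1, zero_pow (by omega), mul_zero]
  induction j with
  | zero =>
    intro c
    refine ⟨fun x hx => ?_, hz c 1 le_rfl⟩
    show |c * Lw y (0 + 1) x| ≤ |c| * ((0 + 1).factorial : ℝ) * Real.log y
    unfold Lw
    rw [zero_add, pow_one, abs_mul, abs_of_nonneg (le_max_right (Real.log (y / x)) 0),
      Nat.factorial_one, Nat.cast_one, mul_one]
    apply mul_le_mul_of_nonneg_left _ (abs_nonneg _)
    apply max_le _ (Real.log_nonneg hy')
    apply Real.log_le_log (by positivity)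
    exact div_le_self (by linarith) hx
  | succ j ih =>
    intro c
    refine ⟨⟨fun x => (-(c * (j + 2))) * Lw y (j + 1) x, ?_, fun x hx => ?_⟩, hz c _ (by omega)⟩
    · have h1 := ih (-(c * (j + 2)))
      have e : |(-(c * ((j : ℝ) + 2)))| * ((j + 1).factorial : ℝ) * Real.log y =
          |c| * ((j + 1 + 1).factorial : ℝ) * Real.log y := by
        rw [abs_neg, abs_mul, abs_of_nonneg (by positivity : (0 : ℝ) ≤ (j : ℝ) + 2),
          Nat.factorial_succ (j + 1)]
        push_cast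
        ring
      rw [e] at h1
      exact h1
    · have h1 : HasDerivAt (fun x : ℝ => Real.log (y / x)) (-(1 / x)) x := by
        have h2 : HasDerivAt (fun x : ℝ => Real.log y - Real.log x) (0 - x⁻¹) x :=
          (hasDerivAt_const x _).sub (Real.hasDerivAt_log hx.ne')
        have e : (fun x : ℝ => Real.log (y / x)) =ᶠ[nhds x] fun x => Real.log y - Real.log x := by
          filter_upwards [lt_mem_nhds hx] with v hv
          rw [Real.log_div (by positivity) hv.ne']
        have h3 := h2.congr_of_eventuallyEq e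
        rwa [zero_sub, ← one_div] at h3
      have h4 := (HasDerivAt.comp x (hasDerivAt_pos_pow j (Real.log (y / x))) h1).const_mul c
      have e2 : (fun x : ℝ => c * Lw y (j + 1 + 1) x) =
          fun x => c * ((fun u : ℝ => (max u 0) ^ (j + 2)) ∘ fun x : ℝ => Real.log (y / x)) x := by
        funext x
        rfl
      rw [e2]
      have e3 : c * (((j : ℝ) + 2) * (max (Real.log (y / x)) 0) ^ (j + 1) * -(1 / x)) =
          (-(c * (j + 2))) * Lw y (j + 1) x / x := by
        unfold Lw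
        field_simp
      rw [e3] at h4
      exact h4

/-! ### Convolutions -/

lemma T_mul {y : ℕ} (f g : ArithmeticFunction ℤ) {w : ℝ → ℝ} (hw : ∀ x, (y : ℝ) ≤ x → w x = 0)
    (x : ℝ) (hx : 1 ≤ x) : T y f (T y g w) x = T y (f * g) w x := by
  unfold T
  have h1 : ∑ a ∈ range (y + 1), (f a : ℝ) * ∑ b ∈ range (y + 1), (g b : ℝ) * w (b * (a * x)) =
      ∑ z ∈ range (y + 1) ×ˢ range (y + 1),
        (f z.1 : ℝ) * (g z.2 : ℝ) * w ((z.1 * z.2 : ℕ) * x) := by
    rw [sum_product]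
    refine sum_congr rfl fun a _ => ?_
    rw [mul_sum]
    refine sum_congr rfl fun b _ => ?_
    push_cast
    rw [show (b : ℝ) * (a * x) = a * b * x by ring]
    ring
  have h2 : ∑ z ∈ range (y + 1) ×ˢ range (y + 1),
        (f z.1 : ℝ) * (g z.2 : ℝ) * w ((z.1 * z.2 : ℕ) * x) =
      ∑ z ∈ (range (y + 1) ×ˢ range (y + 1)).filter (fun z => z.1 * z.2 ≤ y),
        (f z.1 : ℝ) * (g z.2 : ℝ) * w ((z.1 * z.2 : ℕ) * x) := by
    rw [sum_filter]
    refine sum_congr rfl fun z _ => ?_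
    split_ifs with hz
    · rfl
    · rw [hw, mul_zero]
      have h3 : (y : ℝ) ≤ ((z.1 * z.2 : ℕ) : ℝ) := by exact_mod_cast (by omega)
      have h0 : (0 : ℝ) ≤ y := Nat.cast_nonneg _
      nlinarith
  rw [h1, h2, ← sum_fiberwise_of_maps_to (t := range (y + 1)) (g := fun z : ℕ × ℕ => z.1 * z.2)
    (fun z hz => by simp only [mem_filter] at hz; simp only [mem_range]; omega)]
  refine sum_congr rfl fun n hn => ?_
  rcases Nat.eq_zero_or_pos n with rfl | hpos
  · rw [ArithmeticFunction.map_zero]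
    simp only [Int.cast_zero, zero_mul]
    refine sum_eq_zero fun z hz => ?_
    simp only [mem_filter] at hz
    rcases Nat.mul_eq_zero.1 hz.2 with h0 | h0
    · rw [h0]; simp
    · rw [h0]; simp
  · have hset : ((range (y + 1) ×ˢ range (y + 1)).filter (fun z => z.1 * z.2 ≤ y)).filter
        (fun z => z.1 * z.2 = n) = n.divisorsAntidiagonal := by
      ext z
      simp only [mem_filter, mem_product, mem_range, Nat.mem_divisorsAntidiagonal]
      have hny : n ≤ y := by simpa [Nat.lt_succ_iff] using hn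
      constructor
      · rintro ⟨-, h4⟩; exact ⟨h4, hpos.ne'⟩
      · rintro ⟨h4, h5⟩
        have h6 : z.1 ∣ n := ⟨z.2, h4.symm⟩
        have h7 : z.2 ∣ n := ⟨z.1, by rw [mul_comm]; exact h4.symm⟩
        have h8 := Nat.le_of_dvd hpos h6
        have h9 := Nat.le_of_dvd hpos h7
        exact ⟨⟨⟨by omega, by omega⟩, by omega⟩, h4⟩
    rw [hset, ArithmeticFunction.mul_apply, Int.cast_sum, sum_mul]
    refine sum_congr rfl fun z hz => ?_
    rw [(Nat.mem_divisorsAntidiagonal.1 hz).1, Int.cast_mul]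

lemma T_congr {y : ℕ} (f : ArithmeticFunction ℤ) {g h : ℝ → ℝ} (hgh : ∀ x, 1 ≤ x → g x = h x)
    (x : ℝ) (hx : 1 ≤ x) : T y f g x = T y f h x := by
  unfold T
  refine sum_congr rfl fun n _ => ?_
  rcases Nat.eq_zero_or_pos n with rfl | hn
  · simp
  · rw [hgh]
    have h1 : (1 : ℝ) ≤ n := by exact_mod_cast hn
    nlinarith

/-- **the bound for four characters** -/
theorem four_bound {y m : ℕ} (hy : 1 ≤ y) (f1 f2 f3 f4 : ArithmeticFunction ℤ)
    (h1 : ∀ n, |∑ i ∈ range n, (f1 i : ℝ)| ≤ m) (h2 : ∀ n, |∑ i ∈ range n, (f2 i : ℝ)| ≤ m)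
    (h3 : ∀ n, |∑ i ∈ range n, (f3 i : ℝ)| ≤ m) (h4 : ∀ n, |∑ i ∈ range n, (f4 i : ℝ)| ≤ m) :
    ∑ n ∈ range (y + 1), ((f1 * (f2 * (f3 * f4)) : ArithmeticFunction ℤ) n : ℝ) * Lw y 5 n ≤
      (2 * m * (1 + Real.log (y + 1))) ^ 4 * (120 * Real.log y) := by
  have hc := Lw_class hy 4 1
  have hz := Cl_zero hc
  simp only [one_mul] at hc hz
  have c3 := T_class f4 h4 3 _ _ hc
  have c2 := T_class f3 h3 2 _ _ c3
  have c1 := T_class f2 h2 1 _ _ c2
  have c0 := T_class f1 h1 0 _ _ c1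
  have hb := c0.1 1 le_rfl
  have e1 : T y f1 (T y f2 (T y f3 (T y f4 (fun x => Lw y (4 + 1) x)))) 1 =
      T y (f1 * (f2 * (f3 * f4))) (fun x => Lw y (4 + 1) x) 1 := by
    rw [T_congr f1 (h := T y (f2 * (f3 * f4)) (fun x => Lw y (4 + 1) x)) ?_ 1 le_rfl]
    · exact T_mul f1 _ hz 1 le_rfl
    · intro x hx
      rw [T_congr f2 (h := T y (f3 * f4) (fun x => Lw y (4 + 1) x)) ?_ x hx]
      · exact T_mul f2 _ hz x hx
      · intro x hx
        exact T_mul f3 f4 hz x hx
  rw [e1] at hb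
  have e2 : T y (f1 * (f2 * (f3 * f4))) (fun x => Lw y (4 + 1) x) 1 =
      ∑ n ∈ range (y + 1), ((f1 * (f2 * (f3 * f4)) : ArithmeticFunction ℤ) n : ℝ) * Lw y 5 n := by
    unfold T
    refine sum_congr rfl fun n _ => ?_
    rw [mul_one]
  rw [← e2]
  refine (le_abs_self _).trans (hb.trans (le_of_eq ?_))
  have e3 : ((4 + 1).factorial : ℝ) = 120 := by norm_num [Nat.factorial]
  rw [e3, abs_one]
  ring

end Pool.Agent.H13.MO.KP
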