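import Pool.Agent.H13.MO.Asm
import Pool.Agent.H13.MO.Alg3
import Pool.Graph.R_seed8.H413R3.OddT.Fin

set_option autoImplicit false

/-!
# Odd values of the number of `t`-multipartitions in progressions modulo powers of two: counting
-/

namespace Pool.Agent.H13.MO

open PowerSeries Pool.Agent.H397R2.PP Finset
open Pool.Agent.H307R2.OP
open Pool.Agent.H307R2.OP.MAINaux
open Pool.Agent.H413R3.Part (mp)
open Pool.Agent.H413R3.OddT (sp_two_mul_add ocT kkT oddAPT)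

variable [P : Prm]

/-- the exponent -/
def mexp (X a : ℕ) : ℕ := if P.b = 0 then 2 * sp a + 4 * sp X + 1 else 2 * sp X + 4 * sp a + 1

theorem coefM (X a : ℕ) (s : Finset ℕ) (hs : ∀ q ∈ s, q.Prime ∧ (q % 8 = 3 ∨ q % 8 = 5))
    (hcard : s.card = X + a)
    (h3 : (s.filter (fun q => q % 8 = 3)).card = if P.b = 0 then a else X) :
    coeff (∏ q ∈ s, q) (Db ^ (mexp X a)) = 1 := by
  unfold mexp
  rcases P.hb with hb | hb
  · rw [if_pos hb] at h3 ⊢
    exact ocT a X s hs (by omega) h3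
  · rw [if_neg (by omega)] at h3 ⊢
    exact ocT X a s hs hcard h3

omit P in
theorem sp_mod (x : ℕ) : sp x % 4 = x % 2 := by
  have h1 : sp x = 4 * sp (x / 2) + x % 2 := by
    conv_lhs => rw [← Nat.div_add_mod x 2]
    exact sp_two_mul_add _ _ (Nat.mod_lt _ (by norm_num))
  omega

omit P in
theorem pow_mod8 (x y : ℕ) : (3 : ZMod 8) ^ x * 5 ^ y = ((2 * (x % 2) + 4 * (y % 2) + 1 : ℕ) : ZMod 8) := by
  have h3 : (3 : ZMod 8) ^ x = 3 ^ (x % 2) := by
    conv_lhs => rw [← Nat.div_add_mod x 2, pow_add, pow_mul]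
    have : (3 : ZMod 8) ^ 2 = 1 := by decide
    rw [this, one_pow, one_mul]
  have h5 : (5 : ZMod 8) ^ y = 5 ^ (y % 2) := by
    conv_lhs => rw [← Nat.div_add_mod y 2, pow_add, pow_mul]
    have : (5 : ZMod 8) ^ 2 = 1 := by decide
    rw [this, one_pow, one_mul]
  rw [h3, h5]
  rcases Nat.mod_two_eq_zero_or_one x with h | h <;>
  rcases Nat.mod_two_eq_zero_or_one y with h' | h' <;> rw [h, h'] <;> decide

theorem mexp_mod (X a : ℕ) : ((mexp X a : ℕ) : ZMod 8) = (c0 : ZMod 8) ^ X * (c1 : ZMod 8) ^ a := by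
  rcases P.hb with hb | hb
  · have e0 : c0 = 5 := by unfold c0; rw [if_pos hb]
    have e1 : c1 = 3 := by unfold c1; rw [if_pos hb]
    rw [e0, e1]
    unfold mexp
    rw [if_pos hb]
    push_cast
    rw [mul_comm ((5 : ZMod 8) ^ X), pow_mod8]
    have h1 := sp_mod a
    have h2 := sp_mod X
    have : (2 * sp a + 4 * sp X + 1) ≡ (2 * (a % 2) + 4 * (X % 2) + 1) [MOD 8] := by
      unfold Nat.ModEq
      omega
    have h3 := (ZMod.natCast_eq_natCast_iff _ _ 8).2 this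
    push_cast at h3 ⊢
    exact h3
  · have e0 : c0 = 3 := by unfold c0; rw [if_neg (by omega)]
    have e1 : c1 = 5 := by unfold c1; rw [if_neg (by omega)]
    rw [e0, e1]
    unfold mexp
    rw [if_neg (by omega)]
    push_cast
    rw [pow_mod8]
    have h1 := sp_mod a
    have h2 := sp_mod X
    have : (2 * sp X + 4 * sp a + 1) ≡ (2 * (X % 2) + 4 * (a % 2) + 1) [MOD 8] := by
      unfold Nat.ModEq
      omega
    have h3 := (ZMod.natCast_eq_natCast_iff _ _ 8).2 this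
    push_cast at h3 ⊢
    exact h3

/-- the numbers of the tuples modulo 8 -/
theorem compatM {M y p n a I : ℕ} {R : Finset ℕ} (hR : ∀ q ∈ R, q % 8 = c0)
    (A : Fin (M + 1) → Finset ℕ) (hA : A ∈ (cfgM M y p n a I R).Fam) :
    (((cfgM M y p n a I R).Rp * (cfgM M y p n a I R).Q A * (cfgM M y p n a I R).c : ℕ) : ZMod 8) =
      (c0 : ZMod 8) ^ (∑ j : Fin M, kkT M y p n R.card j + R.card + 1) * (c1 : ZMod 8) ^ a := by
  have hcast : ∀ q c : ℕ, q % 8 = c → ((q : ℕ) : ZMod 8) = (c : ZMod 8) := fun q c h => by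
    rw [ZMod.natCast_eq_natCast_iff]
    unfold Nat.ModEq
    omega
  have hQ : (((cfgM M y p n a I R).Q A : ℕ) : ZMod 8) =
      (c0 : ZMod 8) ^ (∑ j : Fin M, kkT M y p n R.card j) * (c1 : ZMod 8) ^ a := by
    unfold Cfg.Q
    push_cast
    have h1 : ∀ j : Fin (M + 1), ∏ q ∈ A j, (q : ZMod 8) =
        ((cfgM M y p n a I R).cl j : ZMod 8) ^ ((cfgM M y p n a I R).k j) := by
      intro j
      unfold Cfg.Fam at hA
      rw [Fintype.mem_piFinset] at hA
      obtain ⟨hA1, hA2⟩ := Finset.mem_powersetCard.mp (hA j)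
      rw [Finset.prod_congr rfl (g := fun _ => ((cfgM M y p n a I R).cl j : ZMod 8)),
        Finset.prod_const, hA2]
      intro q hq
      have hAj := hA1 hq
      unfold Cfg.Blk PB at hAj
      rw [Finset.mem_sdiff, Finset.mem_filter, Finset.mem_Ioc] at hAj
      exact hcast q _ hAj.1.2.2
    rw [Finset.prod_congr rfl (fun j _ => h1 j), Fin.prod_univ_castSucc]
    congr 1
    · rw [← Finset.prod_pow_eq_pow_sum]
      refine Finset.prod_congr rfl fun j _ => ?_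
      have hj : ((Fin.castSucc j : Fin (M + 1)) : ℕ) < M := by simp
      have e1 : (cfgM M y p n a I R).cl (Fin.castSucc j) = c0 := if_pos hj
      have e2 : (cfgM M y p n a I R).k (Fin.castSucc j) = kkT M y p n R.card j := by
        show kM M y p n R.card a _ = _
        unfold kM
        rw [if_pos hj]
        rfl
      rw [e1, e2]
    · have hj : ¬ ((Fin.last M : Fin (M + 1)) : ℕ) < M := by simp
      have e1 : (cfgM M y p n a I R).cl (Fin.last M) = c1 := if_neg hj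
      have e2 : (cfgM M y p n a I R).k (Fin.last M) = a := by
        show kM M y p n R.card a _ = _
        unfold kM
        rw [if_neg hj]
      rw [e1, e2]
  have hRp : (((cfgM M y p n a I R).Rp : ℕ) : ZMod 8) = (c0 : ZMod 8) ^ R.card := by
    unfold Cfg.Rp
    push_cast
    rw [Finset.prod_congr rfl (g := fun _ => (c0 : ZMod 8)), Finset.prod_const]
    · rfl
    · intro q hq
      exact hcast q _ (hR q hq)
  have hc : (cfgM M y p n a I R).c = c0 := rfl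
  rw [Nat.cast_mul, Nat.cast_mul, hQ, hRp, hc]
  ring

omit P in
/-- the squarefree kernel of `8 kp n - τ` -/
theorem kernelM {τ m : ℕ} (hτ : τ % 2 = 1) (hm : τ < 8 * m) (hns : ¬ IsSquare (8 * m - τ)) :
    ∃ δ s : ℕ, δ * s ^ 2 = 8 * m - τ ∧ AdmL δ ∧ 1 ≤ s := by
  obtain ⟨a, b, hab, hsq⟩ := Nat.sq_mul_squarefree (8 * m - τ)
  refine ⟨a, b, by rw [mul_comm]; exact hab, ⟨?_, hsq, ?_⟩, ?_⟩
  · by_contra hcon
    have h1 : 2 ∣ a := by omega
    have h2 : 2 ∣ b ^ 2 * a := Dvd.dvd.mul_left h1 _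
    omega
  · rintro rfl
    apply hns
    exact ⟨b, by rw [← hab]; ring⟩
  · rcases Nat.eq_zero_or_pos b with h | h
    · subst h
      simp at hab
      omega
    · exact h

open Classical in
/-- the counting step -/
theorem stepM (tt τ : ℕ) (hτ : τ % 2 = 1)
    (h1 : TupStmt) {M : ℕ} (g : Cfg M) (hok : g.Ok) (y : ℕ) (hτI : τ ≤ 2 ^ g.I)
    (b' ρ m : ℕ) (hm : Prm.kp * m + τ = E g.r) (hb : 8 * 2 ^ b' ∣ E g.r)
    (hco : ∀ t ∈ g.Tup, coeff (g.N t) (Db ^ m) = 1)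
    (hex : ∀ N, coeff N (Db ^ m) = 1 →
      ∃ n u : ℕ, Odd (mp tt n) ∧ 8 * (Prm.kp * n) + E g.r * u ^ 2 = Prm.kp * N + τ)
    (hns : ∀ t ∈ g.Tup, ∀ n u, 8 * (Prm.kp * n) + E g.r * u ^ 2 = Prm.kp * g.N t + τ →
      τ < 8 * (Prm.kp * n) → ¬ IsSquare (8 * (Prm.kp * n) - τ))
    (Bd : ℝ) (hBd : 0 ≤ Bd)
    (hB : ∀ δ s : ℕ, AdmL δ → ¬ Bad g.I y δ → 1 ≤ s → δ * s ^ 2 ≤ 3 * 2 ^ g.I →
      (((g.Tup ×ˢ range (2 ^ g.I + 1)).filter
        (fun x => Prm.kp * g.N x.1 = δ * s ^ 2 + E g.r * x.2 ^ 2)).card : ℝ) ≤ Bd)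
    (hlost : ((g.Tup.filter (fun t => (∃ δ : ℕ, AdmL δ ∧ Bad g.I y δ ∧
      Rep g.r δ (g.N t)) ∨ ∃ e : ℕ, e ≤ τ ∧ ∃ u : ℕ,
        Prm.kp * g.N t + e = E g.r * u ^ 2)).card : ℝ) ≤
        ((g.Tup.filter (fun t => g.N t % (8 * 2 ^ b') = (8 * ρ + m) % (8 * 2 ^ b'))).card : ℝ) / 2) :
    ((g.Tup.filter (fun t => g.N t % (8 * 2 ^ b') = (8 * ρ + m) % (8 * 2 ^ b'))).card : ℝ) / 2 ≤
      (oddAPT tt b' ρ (2 ^ g.I) : ℝ) * Bd := by
  have hkp : 0 < Prm.kp := kp_pos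
  have hkp3 : Prm.kp ≤ 3 := kp_le
  have key : ∀ t ∈ g.Tup, ∃ n u : ℕ, Odd (mp tt n) ∧
      8 * (Prm.kp * n) + E g.r * u ^ 2 = Prm.kp * g.N t + τ ∧ g.N t ≤ 2 ^ g.I := by
    intro t ht
    obtain ⟨s, hs1, hs2, hs3, hs4, -, -, -, hs8⟩ := h1 M g hok t ht
    obtain ⟨n, u, hn, hu⟩ := hex _ (hco t ht)
    exact ⟨n, u, hn, hu, hs8⟩
  choose! n u hodd heq hN using key
  have h4r : 64 ≤ E g.r := by
    calc 64 = 4 ^ 3 := by norm_num
      _ ≤ 4 ^ g.r := Nat.pow_le_pow_right (by norm_num) hok.hr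
      _ ≤ E g.r := four_le_E _
  have hkN : ∀ t ∈ g.Tup, Prm.kp * g.N t ≤ 3 * 2 ^ g.I := fun t ht =>
    Nat.mul_le_mul hkp3 (hN t ht)
  have hu : ∀ t ∈ g.Tup, u t ≤ 2 ^ g.I := by
    intro t ht
    have e1 := heq t ht
    have e2 := hkN t ht
    have e3 : 64 * (u t) ^ 2 ≤ E g.r * (u t) ^ 2 := Nat.mul_le_mul_right _ h4r
    have e4 : u t ≤ (u t) ^ 2 := Nat.le_self_pow (by norm_num) _
    omega
  have hn : ∀ t ∈ g.Tup, n t ≤ 2 ^ g.I := by
    intro t ht
    have e1 := heq t ht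
    have e2 := hkN t ht
    have e6 : n t ≤ Prm.kp * n t := Nat.le_mul_of_pos_left _ hkp
    omega
  -- the class of `n`
  have hclass : ∀ t ∈ g.Tup, g.N t % (8 * 2 ^ b') = (8 * ρ + m) % (8 * 2 ^ b') →
      n t % 2 ^ b' = ρ % 2 ^ b' := by
    intro t ht hNt
    have e1 := heq t ht
    have h1 : g.N t ≡ 8 * ρ + m [MOD 8 * 2 ^ b'] := hNt
    have h2 : E g.r * (u t) ^ 2 ≡ 0 [MOD 8 * 2 ^ b'] := by
      rw [Nat.modEq_zero_iff_dvd]
      exact Dvd.dvd.mul_right hb _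
    have h2' : E g.r ≡ 0 [MOD 8 * 2 ^ b'] := by
      rw [Nat.modEq_zero_iff_dvd]
      exact hb
    have h3 : 8 * (Prm.kp * n t) ≡ 8 * (Prm.kp * ρ) [MOD 8 * 2 ^ b'] := by
      calc 8 * (Prm.kp * n t) ≡ 8 * (Prm.kp * n t) + E g.r * (u t) ^ 2 [MOD 8 * 2 ^ b'] := by
            simpa using (h2.symm.add_left (8 * (Prm.kp * n t)))
        _ = Prm.kp * g.N t + τ := e1
        _ ≡ Prm.kp * (8 * ρ + m) + τ [MOD 8 * 2 ^ b'] := (h1.mul_left Prm.kp).add_right τ
        _ = 8 * (Prm.kp * ρ) + E g.r := by rw [← hm]; ring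
        _ ≡ 8 * (Prm.kp * ρ) + 0 [MOD 8 * 2 ^ b'] := h2'.add_left _
        _ = 8 * (Prm.kp * ρ) := by ring
    have h5 : Prm.kp * n t ≡ Prm.kp * ρ [MOD 2 ^ b'] := Nat.ModEq.mul_left_cancel' (by norm_num) h3
    exact Nat.ModEq.cancel_left_of_coprime (by
      show Nat.gcd (2 ^ b') Prm.kp = 1
      apply Nat.Coprime.pow_left
      rw [Nat.coprime_two_left]
      exact Nat.odd_iff.2 kp_odd) h5
  set T' := g.Tup.filter (fun t => g.N t % (8 * 2 ^ b') = (8 * ρ + m) % (8 * 2 ^ b')) with hT'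
  set PP : (Σ _ : Fin M → Finset ℕ, ℕ) → Prop := fun t => (∃ δ : ℕ, AdmL δ ∧ Bad g.I y δ ∧
      Rep g.r δ (g.N t)) ∨ ∃ e : ℕ, e ≤ τ ∧ ∃ u : ℕ, Prm.kp * g.N t + e = E g.r * u ^ 2 with hP
  have hsum : (T'.filter PP).card + (T'.filter (fun t => ¬ PP t)).card = T'.card :=
    Finset.card_filter_add_card_filter_not PP
  have hTle : ((T'.filter PP).card : ℝ) ≤ ((g.Tup.filter PP).card : ℝ) := by
    exact_mod_cast Finset.card_le_card (Finset.filter_subset_filter _ (Finset.filter_subset _ _))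
  set Good := T'.filter (fun t => ¬ PP t) with hGood
  have hgood : (T'.card : ℝ) / 2 ≤ (Good.card : ℝ) := by
    have : ((T'.filter PP).card : ℝ) + (Good.card : ℝ) = (T'.card : ℝ) := by
      exact_mod_cast hsum
    linarith
  refine hgood.trans ?_
  rw [Finset.card_eq_sum_card_image n Good]
  push_cast
  have himg : Good.image n ⊆
      (range (2 ^ g.I + 1)).filter (fun n => n % 2 ^ b' = ρ % 2 ^ b' ∧
        Odd (mp tt n)) := by
    intro b'' hb'
    obtain ⟨t, ht, rfl⟩ := Finset.mem_image.1 hb'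
    have ht0 := (Finset.mem_filter.1 ht).1
    obtain ⟨ht', hcl⟩ := Finset.mem_filter.1 ht0
    rw [Finset.mem_filter, Finset.mem_range]
    exact ⟨Nat.lt_succ_of_le (hn t ht'), hclass t ht' hcl, hodd t ht'⟩
  have hcardimg : ((Good.image n).card : ℝ) ≤ (oddAPT tt b' ρ (2 ^ g.I) : ℝ) := by
    have := Finset.card_le_card himg
    unfold oddAPT
    exact_mod_cast this
  have hfib : ∀ b ∈ Good.image n, ((Good.filter (fun t => n t = b)).card : ℝ) ≤ Bd := by
    intro b hb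
    obtain ⟨t, ht, htb⟩ := Finset.mem_image.1 hb
    obtain ⟨ht0, hnp⟩ := Finset.mem_filter.1 ht
    have ht' := (Finset.mem_filter.1 ht0).1
    simp only [hP, not_or, not_exists, not_and] at hnp
    obtain ⟨hnp1, hnp2⟩ := hnp
    have hb1 : τ < 8 * (Prm.kp * b) := by
      by_contra hcon
      have e1 := heq t ht'
      rw [htb] at e1
      exact hnp2 (τ - 8 * (Prm.kp * b)) (by omega) (u t) (by omega)
    have e1 := heq t ht'
    have e2 := hkN t ht'
    rw [htb] at e1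
    obtain ⟨δ, s, hδs, hadm, hs⟩ := kernelM hτ hb1 (hns t ht' b (u t) e1 hb1)
    have hrep : Prm.kp * g.N t = δ * s ^ 2 + E g.r * (u t) ^ 2 := by
      rw [hδs]; omega
    have hnb : ¬ Bad g.I y δ := fun hbad => hnp1 δ hadm hbad ⟨s, u t, hrep⟩
    have hle : δ * s ^ 2 ≤ 3 * 2 ^ g.I := by
      have e6 : 0 ≤ E g.r * (u t) ^ 2 := Nat.zero_le _
      omega
    refine le_trans ?_ (hB δ s hadm hnb hs hle)
    have : (Good.filter (fun t => n t = b)).card ≤
        ((g.Tup ×ˢ range (2 ^ g.I + 1)).filter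
          (fun x => Prm.kp * g.N x.1 = δ * s ^ 2 + E g.r * x.2 ^ 2)).card := by
      refine Finset.card_le_card_of_injOn (fun t => (t, u t)) ?_ ?_
      · intro t' ht2
        simp only [Finset.coe_filter, Set.mem_ofPred_eq] at ht2
        obtain ⟨ht3, ht4⟩ := ht2
        have ht5 := (Finset.mem_filter.1 (Finset.mem_filter.1 ht3).1).1
        have e7 := heq t' ht5
        rw [ht4] at e7
        simp only [Finset.coe_filter, Set.mem_ofPred_eq, Finset.mem_product, Finset.mem_range]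
        refine ⟨⟨ht5, Nat.lt_succ_of_le (hu t' ht5)⟩, ?_⟩
        rw [hδs]; omega
      · intro a _ b _ hab
        exact (Prod.mk.inj hab).1
    exact_mod_cast this
  calc ∑ b ∈ Good.image n, ((Good.filter (fun t => n t = b)).card : ℝ)
      ≤ ∑ b ∈ Good.image n, Bd := Finset.sum_le_sum hfib
    _ = ((Good.image n).card : ℝ) * Bd := by rw [Finset.sum_const, nsmul_eq_mul]
    _ ≤ (oddAPT tt b' ρ (2 ^ g.I) : ℝ) * Bd := mul_le_mul_of_nonneg_right hcardimg hBd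

end Pool.Agent.H13.MO
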