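import Pool.Agent.H13.MO.Main1

set_option autoImplicit false

/-!
# Odd values of the number of `t`-multipartitions in progressions modulo powers of two:
the main theorem in terms of the parameter `y`
-/

namespace Pool.Agent.H13.MO

open PowerSeries Pool.Agent.H397R2.PP Finset
open Pool.Agent.H307R2.OP (PB PCStmt badCount bt4 sv es pc rr kap sp Pr2)
open Pool.Agent.H307R2.OP.MAINaux
open Pool.Agent.H413R3.Part (mp)
open Pool.Agent.H413R3.OddT (sp_two_mul_add ocT kkT oddAPT)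

variable [P : Prm]

theorem J_one {q : ℕ} (hc : q % 8 = c1) : J q 1 = -1 := by
  have ho : Odd q := by
    rw [Nat.odd_iff]
    rcases c1_35 with h | h <;> omega
  unfold J
  rcases P.hb with hb | hb
  · have e1 : c1 = 3 := by unfold c1; rw [if_pos hb]
    rw [hb]
    simp only [pow_zero, one_mul, Nat.cast_one]
    rw [jacobiSym.at_neg_one ho, ZMod.χ₄_nat_three_mod_four (by omega)]
    norm_num
  · have e1 : c1 = 5 := by unfold c1; rw [if_neg (by omega)]
    rw [hb]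
    simp only [pow_one, mul_one, Nat.cast_ofNat]
    rw [jacobiSym.at_neg_two ho, ZMod.χ₈'_nat_eq_if_mod_eight, if_neg (by omega),
      if_neg (by omega)]
    norm_num

theorem notSq {r N q : ℕ} (hq : q.Prime) (h5 : 5 ≤ q) (hc : q % 8 = c1) (hqN : q ∣ N)
    (hq2 : ¬ q ^ 2 ∣ N) {x u τ : ℕ} (h : 8 * (Prm.kp * x) + E r * u ^ 2 = Prm.kp * N + τ)
    (hx : τ < 8 * (Prm.kp * x)) : ¬ IsSquare (8 * (Prm.kp * x) - τ) := by
  rintro ⟨s, hs⟩
  apply qr.kill r 1 N q hq h5 (J_one hc) hqN hq2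
  refine ⟨s, u, ?_⟩
  have e : 1 * s ^ 2 = s * s := by ring
  rw [e, ← hs]
  omega

theorem sum_k {M y p n a I : ℕ} {R : Finset ℕ} : ∑ j, (cfgM M y p n a I R).k j =
    ∑ j : Fin M, kkT M y p n R.card j + a := by
  rw [Fin.sum_univ_castSucc]
  congr 1
  · refine Finset.sum_congr rfl fun j _ => ?_
    have hj : ((Fin.castSucc j : Fin (M + 1)) : ℕ) < M := by simp
    show kM M y p n R.card a _ = _
    unfold kM
    rw [if_pos hj]
    rfl
  · have hj : ¬ ((Fin.last M : Fin (M + 1)) : ℕ) < M := by simp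
    show kM M y p n R.card a _ = _
    unfold kM
    rw [if_neg hj]

theorem sum_k3 {M y p n a I : ℕ} {R : Finset ℕ} (hR : ∀ q ∈ R, q % 8 = c0) :
    (((cfgM M y p n a I R).R.filter (fun q => q % 8 = 3)).card +
      (if (cfgM M y p n a I R).c = 3 then 1 else 0) +
      ∑ j, (if (cfgM M y p n a I R).cl j = 3 then (cfgM M y p n a I R).k j else 0)) =
      if P.b = 0 then a else ∑ j : Fin M, kkT M y p n R.card j + R.card + 1 := by
  have hRR : (cfgM M y p n a I R).R = R := rfl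
  have hcc : (cfgM M y p n a I R).c = c0 := rfl
  have hj1 : ∀ j : Fin M, (cfgM M y p n a I R).cl (Fin.castSucc j) = c0 := fun j => by
    have hj : ((Fin.castSucc j : Fin (M + 1)) : ℕ) < M := by simp
    exact if_pos hj
  have hj2 : (cfgM M y p n a I R).cl (Fin.last M) = c1 := by
    have hj : ¬ ((Fin.last M : Fin (M + 1)) : ℕ) < M := by simp
    exact if_neg hj
  have hk1 : ∀ j : Fin M, (cfgM M y p n a I R).k (Fin.castSucc j) = kkT M y p n R.card j :=
    fun j => by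
      have hj : ((Fin.castSucc j : Fin (M + 1)) : ℕ) < M := by simp
      show kM M y p n R.card a _ = _
      unfold kM
      rw [if_pos hj]
      rfl
  have hk2 : (cfgM M y p n a I R).k (Fin.last M) = a := by
    have hj : ¬ ((Fin.last M : Fin (M + 1)) : ℕ) < M := by simp
    show kM M y p n R.card a _ = _
    unfold kM
    rw [if_neg hj]
  rw [Fin.sum_univ_castSucc, hRR, hcc, hj2, hk2]
  rw [Finset.sum_congr rfl (fun j _ => by rw [hj1 j, hk1 j])]
  rcases P.hb with hb | hb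
  · have e0 : c0 = 5 := by unfold c0; rw [if_pos hb]
    have e1 : c1 = 3 := by unfold c1; rw [if_pos hb]
    rw [e0] at hR
    rw [if_pos hb, e0, e1]
    have h0 : R.filter (fun q => q % 8 = 3) = ∅ := by
      rw [Finset.filter_eq_empty_iff]
      intro q hq h
      have := hR q hq
      omega
    rw [h0]
    simp
  · have e0 : c0 = 3 := by unfold c0; rw [if_neg (by omega)]
    have e1 : c1 = 5 := by unfold c1; rw [if_neg (by omega)]
    rw [e0] at hR
    rw [if_neg (show ¬ P.b = 0 by omega), e0, e1]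
    have h0 : R.filter (fun q => q % 8 = 3) = R := by
      rw [Finset.filter_eq_self]
      exact hR
    rw [h0]
    simp
    omega

/-- the main theorem in terms of the parameter `y` -/
theorem mainM (tt τ k0 p n A0 : ℕ) (av : ℕ → ℕ) (hτ : τ % 2 = 1) (hav : ∀ r, av r ≤ 2 ^ r + A0)
    (hmk : ∀ r, k0 ≤ r → Prm.kp * mexp (2 ^ (r + P.b - 1) + p - n) (av r) + τ = E r)
    (hex : ∀ r, k0 ≤ r → ∀ N, coeff N (Db ^ mexp (2 ^ (r + P.b - 1) + p - n) (av r)) = 1 →
      ∃ n' u : ℕ, Odd (mp tt n') ∧ 8 * (Prm.kp * n') + E r * u ^ 2 = Prm.kp * N + τ)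
    (hns : (∀ x, τ < 8 * (Prm.kp * x) → ¬ IsSquare (8 * (Prm.kp * x) - τ)) ∨
      ∀ r, k0 ≤ r → 1 ≤ av r) :
    ∀ M : ℕ, 2 ≤ M → ∃ y0 : ℕ, ∀ y : ℕ, y0 ≤ y → ∀ I : ℕ,
    y ^ (2 * M + 4) ≤ I → I ≤ 2 * y ^ (2 * M + 4) → ∀ b' ρ : ℕ, 2 ^ b' ≤ y ^ (4 * M - 3) →
    Real.sqrt (2 ^ I) * (y : ℝ) ^ (2 * M - 3 : ℤ) / 2 ^ b' ≤ (oddAPT tt b' ρ (2 ^ I) : ℝ) := by
  intro M hM2
  have hM : 1 ≤ M := by omega
  obtain ⟨d0, hd0, I1, h2'⟩ := tupLowAP
  obtain ⟨C, hC, I2, h3'⟩ := good_main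
  obtain ⟨y4, h4'⟩ := parM pc2 M p n 3 hM2
  obtain ⟨y5, h5'⟩ := rChoiceM strong_main killPrime M hM
  obtain ⟨y6, h6'⟩ := badTotalM qr tup tupLarge_main tupSmall_main badSum_main
    badNum_main (strongBad pc2) pc2 τ p n 3 M hM2 d0 hd0
  obtain ⟨y7, h7'⟩ := poly_exp M
  have hs3 : (0:ℝ) < Real.sqrt 3 := Real.sqrt_pos.2 (by norm_num)
  obtain ⟨y8, h8'⟩ := log_small M (d0 / (2 * (8 * 2 ^ (M + 1) * (C * 2 ^ 3) * Real.exp (M + 1) *
    Real.sqrt 3))) (by positivity)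
  refine ⟨y4 + y5 + y6 + y7 + y8 + I1 + I2 + 20 + τ + p + n + A0 + 4 * 2 ^ k0,
    fun y hy I hI1 hI2 b' ρ hb => ?_⟩
  have hpk : 1 ≤ 2 ^ k0 := Nat.one_le_two_pow
  have hy20 : 20 ≤ y := by omega
  have hyI : y ≤ y ^ (2 * M + 4) := Nat.le_self_pow (by omega) _
  have hb1 : P.b ≤ 1 := by rcases P.hb with h | h <;> omega
  obtain ⟨R, hRC⟩ := h5' y (by omega) I hI1 hI2
  obtain ⟨a, hadef⟩ : ∃ a, a = av (rr M y - P.b) := ⟨_, rfl⟩
  have hyM : y ≤ y ^ (2 * M - 1) := Nat.le_self_pow (by omega) _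
  -- the size of `2 ^ rr`
  have hrr1 : 2 ^ (rr M y - 1) ≤ y ^ (2 * M - 1) ∧ y ^ (2 * M - 1) < 2 ^ (rr M y) := by
    obtain ⟨-, -, hr1, hr2, -⟩ := h4' y (by omega) I hI1 hI2 R 0 hRC.card hRC.pr hRC.le
      (Nat.zero_le _)
    exact ⟨hr1, hr2⟩
  obtain ⟨hr1, hr2⟩ := hrr1
  have hk0r : k0 + 1 ≤ rr M y := by
    have e1 : 2 ^ (k0 + 1) < 2 ^ (rr M y) := by
      calc 2 ^ (k0 + 1) ≤ y := by rw [pow_succ]; omega
        _ ≤ y ^ (2 * M - 1) := hyM
        _ < _ := hr2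
    exact ((Nat.pow_lt_pow_iff_right (by norm_num)).1 e1).le
  have h2rr : 2 ^ (rr M y) = 2 * 2 ^ (rr M y - 1) := by
    rw [← pow_succ', Nat.sub_add_cancel (by omega)]
  have ha3 : a ≤ 3 * y ^ (2 * M - 1) := by
    have e1 : 2 ^ (rr M y - P.b) ≤ 2 ^ (rr M y) := Nat.pow_le_pow_right (by norm_num) (by omega)
    have e2 := hav (rr M y - P.b)
    omega
  obtain ⟨hok, hcard, -, -, hk, hS, hκ, h2k, hprod, hW⟩ :=
    h4' y (by omega) I hI1 hI2 R a hRC.card hRC.pr hRC.le (by omega)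
  have hWpos : 0 < (cfgM M y p n a I R).W := lt_of_lt_of_le (by positivity) hW
  have hIpow : I ≤ 2 ^ y := hI2.trans (h7' y (by omega))
  have hL : Nat.log 2 I ≤ y := by
    have := Nat.log_mono_right (b := 2) hIpow
    rwa [Nat.log_pow (by norm_num)] at this
  have hIbig : 4000 * y * (Nat.log 2 I + 1) ≤ I := by
    have e1 : 4000 * y * (Nat.log 2 I + 1) ≤ 4000 * y * (2 * y) :=
      Nat.mul_le_mul_left _ (by omega)
    have e2 : y ^ 6 ≤ y ^ (2 * M + 4) := Nat.pow_le_pow_right (by omega) (by omega)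
    have e3 : 20 ^ 4 ≤ y ^ 4 := Nat.pow_le_pow_left hy20 4
    have e4 : 8000 * y ^ 2 ≤ y ^ 6 := by
      calc 8000 * y ^ 2 ≤ y ^ 4 * y ^ 2 := Nat.mul_le_mul_right _ (by omega)
        _ = y ^ 6 := by ring
    calc 4000 * y * (Nat.log 2 I + 1) ≤ 4000 * y * (2 * y) := e1
      _ = 8000 * y ^ 2 := by ring
      _ ≤ I := by omega
  have hksum : ∑ j, (cfgM M y p n a I R).k j + (cfgM M y p n a I R).R.card ≤ I := by
    have e1 : 6 * y ^ (2 * M - 1) ≤ y ^ (2 * M + 4) := by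
      calc 6 * y ^ (2 * M - 1) ≤ y * y ^ (2 * M - 1) := Nat.mul_le_mul_right _ (by omega)
        _ = y ^ (2 * M) := by rw [← pow_succ']; congr 1; omega
        _ ≤ y ^ (2 * M + 4) := Nat.pow_le_pow_right (by omega) (by omega)
    have e2 : (cfgM M y p n a I R).R.card = R.card := rfl
    rw [e2, sum_k]
    omega
  -- the modulus
  have hmod : 8 * 2 ^ b' ∣ E (rr M y - P.b) := by
    have e1 : 8 * 2 ^ b' = 2 ^ (b' + 3) := by rw [pow_add]; ring
    have e2 : E (rr M y - P.b) = 2 ^ (P.b + 2 * (rr M y - P.b)) := by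
      unfold E
      rw [pow_add, pow_mul]; norm_num
    rw [e1, e2]
    apply pow_dvd_pow
    have e3 : 2 ^ (b' + 4) < 2 ^ (2 * rr M y) := by
      calc 2 ^ (b' + 4) = 16 * 2 ^ b' := by rw [pow_add]; ring
        _ ≤ y * y ^ (4 * M - 3) := Nat.mul_le_mul (by omega) hb
        _ = y ^ (2 * M - 1) * y ^ (2 * M - 1) := by
            rw [← pow_add, ← pow_succ']
            congr 1
            omega
        _ < 2 ^ (rr M y) * 2 ^ (rr M y) := Nat.mul_lt_mul'' hr2 hr2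
        _ = 2 ^ (2 * rr M y) := by rw [two_mul, pow_add]
    have e4 := ((Nat.pow_lt_pow_iff_right (by norm_num : 1 < 2)).1 e3)
    omega
  have hkr : k0 ≤ rr M y - P.b := by omega
  have hrb : rr M y - P.b + P.b - 1 = rr M y - 1 := by omega
  obtain ⟨X, hXdef⟩ : ∃ X, X = ∑ j : Fin M, kkT M y p n R.card j + R.card + 1 := ⟨_, rfl⟩
  have hX : 2 ^ (rr M y - P.b + P.b - 1) + p - n = X := by
    rw [hrb]
    omega
  obtain ⟨m, hmdef⟩ : ∃ m, m = mexp X a := ⟨_, rfl⟩
  have hm : Prm.kp * m + τ = E (rr M y - P.b) := by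
    have := hmk (rr M y - P.b) hkr
    rw [hX, ← hadef] at this
    rw [hmdef]
    exact this
  have hexm : ∀ N, coeff N (Db ^ m) = 1 → ∃ n' u : ℕ, Odd (mp tt n') ∧
      8 * (Prm.kp * n') + E (rr M y - P.b) * u ^ 2 = Prm.kp * N + τ := by
    have := hex (rr M y - P.b) hkr
    rw [hX, ← hadef] at this
    rw [hmdef]
    exact this
  have hmodd : m % 2 = 1 := by
    rw [hmdef]
    unfold mexp
    split_ifs <;> omega
  have hb32 : 32 * 2 ^ b' ≤ I ^ 2 := by
    calc 32 * 2 ^ b' ≤ y ^ 2 * y ^ (4 * M - 3) := by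
          apply Nat.mul_le_mul _ hb
          nlinarith
      _ = y ^ (4 * M - 1) := by rw [← pow_add]; congr 1; omega
      _ ≤ y ^ ((2 * M + 4) * 2) := Nat.pow_le_pow_right (by omega) (by omega)
      _ = (y ^ (2 * M + 4)) ^ 2 := by rw [pow_mul]
      _ ≤ I ^ 2 := Nat.pow_le_pow_left hI1 2
  have hTlow := h2' (M + 1) (cfgM M y p n a I R) hok (show I1 ≤ I by omega) h2k b' (8 * ρ + m) hb32
    (by omega) (fun A hA => by
      have e1 := compatM (fun q hq => (hRC.pr q hq).2.2) A hA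
      rw [← hXdef, ← mexp_mod, ← hmdef, ZMod.natCast_eq_natCast_iff] at e1
      have e2 : ((cfgM M y p n a I R).Rp * (cfgM M y p n a I R).Q A * (cfgM M y p n a I R).c) % 8 =
        m % 8 := e1
      rw [e2]
      omega)
  have hbR : (2 : ℝ) ^ b' ≤ (y : ℝ) ^ (4 * M - 3) := by exact_mod_cast hb
  have hyR : (0:ℝ) < y := by exact_mod_cast (by omega : 0 < y)
  have hIR : (0:ℝ) < I := by
    have : 0 < I := by
      have : 0 < y ^ (2 * M + 4) := by positivity
      omega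
    exact_mod_cast this
  have hRp : (0:ℝ) < ((cfgM M y p n a I R).Rp : ℝ) := by
    have : 0 < (cfgM M y p n a I R).Rp := Finset.prod_pos (fun q hq => (hRC.pr q hq).1.pos)
    exact_mod_cast this
  have hlost := h6' y (by omega) I hI1 hI2 R a ha3 hRC
  classical
  have hlost' : (((cfgM M y p n a I R).Tup.filter (fun t => (∃ δ : ℕ, AdmL δ ∧
      Bad (cfgM M y p n a I R).I y δ ∧ Rep (cfgM M y p n a I R).r δ ((cfgM M y p n a I R).N t)) ∨
      ∃ e : ℕ, e ≤ τ ∧ ∃ u : ℕ, Prm.kp * (cfgM M y p n a I R).N t + e =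
        E (cfgM M y p n a I R).r * u ^ 2)).card : ℝ) ≤
      (((cfgM M y p n a I R).Tup.filter (fun t => (cfgM M y p n a I R).N t % (8 * 2 ^ b') =
        (8 * ρ + m) % (8 * 2 ^ b'))).card : ℝ) / 2 := by
    have e1 : d0 / (y : ℝ) ^ (4 * M - 3) * (2 ^ I / ((cfgM M y p n a I R).Rp * I)) *
        ((cfgM M y p n a I R).W / 2 ^ (M + 1)) * (3 / 8) ≤
        d0 / 2 ^ b' * (2 ^ I / ((cfgM M y p n a I R).Rp * I)) *
        ((cfgM M y p n a I R).W / 2 ^ (M + 1)) / 2 := by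
      have e2 : d0 / (y : ℝ) ^ (4 * M - 3) ≤ d0 / 2 ^ b' :=
        div_le_div_of_nonneg_left hd0.le (by positivity) hbR
      have e3 : 0 ≤ (2 : ℝ) ^ I / ((cfgM M y p n a I R).Rp * I) *
          ((cfgM M y p n a I R).W / 2 ^ (M + 1)) := by
        positivity
      have e4 := mul_le_mul_of_nonneg_right e2 e3
      have e5 : 0 ≤ d0 / (y : ℝ) ^ (4 * M - 3) *
          ((2 : ℝ) ^ I / ((cfgM M y p n a I R).Rp * I) *
            ((cfgM M y p n a I R).W / 2 ^ (M + 1))) := by positivity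
      nlinarith
    have e6 : d0 / 2 ^ b' * (2 ^ I / ((cfgM M y p n a I R).Rp * I)) *
        ((cfgM M y p n a I R).W / 2 ^ (M + 1)) / 2 ≤
        (((cfgM M y p n a I R).Tup.filter (fun t => (cfgM M y p n a I R).N t % (8 * 2 ^ b') =
        (8 * ρ + m) % (8 * 2 ^ b'))).card : ℝ) / 2 := by
      apply div_le_div_of_nonneg_right _ (by norm_num)
      exact hTlow
    refine le_trans (le_trans (le_of_eq ?_) hlost) (e1.trans e6)
    congr
  have hcoef : ∀ t ∈ (cfgM M y p n a I R).Tup, coeff ((cfgM M y p n a I R).N t) (Db ^ m) = 1 := by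
    intro t ht
    obtain ⟨s, hs1, hs2, hs3, hs4, -, -, -, -⟩ := tup _ _ hok t ht
    have e1 := coefM X a s (fun q hq => ⟨(hs1 q hq).1, (hs1 q hq).2.2⟩) (by
      have e2 : (cfgM M y p n a I R).R.card = R.card := rfl
      rw [hs3, sum_k, e2]
      omega) (by
      rw [hs4, sum_k3 (fun q hq => (hRC.pr q hq).2.2), ← hXdef])
    rw [hs2, ← hmdef] at e1
    exact e1
  have hnsq : ∀ t ∈ (cfgM M y p n a I R).Tup, ∀ n' u,
      8 * (Prm.kp * n') + E (cfgM M y p n a I R).r * u ^ 2 =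
        Prm.kp * (cfgM M y p n a I R).N t + τ →
      τ < 8 * (Prm.kp * n') → ¬ IsSquare (8 * (Prm.kp * n') - τ) := by
    intro t ht n' u h1 h2
    rcases hns with hns | hns
    · exact hns n' h2
    · have ha1 : 1 ≤ a := by rw [hadef]; exact hns _ hkr
      obtain ⟨s, hs1, -, -, -, -, hs6, hs7, -⟩ := tup _ _ hok t ht
      have ht1 := (Finset.mem_sigma.1 ht).1
      unfold Cfg.Fam at ht1
      rw [Fintype.mem_piFinset] at ht1
      obtain ⟨hA1, hA2⟩ := Finset.mem_powersetCard.mp (ht1 (Fin.last M))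
      have hk2 : (cfgM M y p n a I R).k (Fin.last M) = a := by
        have hj : ¬ ((Fin.last M : Fin (M + 1)) : ℕ) < M := by simp
        show kM M y p n R.card a _ = _
        unfold kM
        rw [if_neg hj]
      have hj2 : (cfgM M y p n a I R).cl (Fin.last M) = c1 := by
        have hj : ¬ ((Fin.last M : Fin (M + 1)) : ℕ) < M := by simp
        exact if_neg hj
      have hne : (t.1 (Fin.last M)).Nonempty := by
        rw [← Finset.card_pos, hA2, hk2]
        exact ha1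
      obtain ⟨q, hq⟩ := hne
      have hqB := hA1 hq
      unfold Cfg.Blk PB at hqB
      rw [Finset.mem_sdiff, Finset.mem_filter, Finset.mem_Ioc, hj2] at hqB
      have hqs := hs6 _ hq
      exact notSq (hs1 q hqs).1 (hs1 q hqs).2.1 hqB.1.2.2 (hs7 q hqs).1 (hs7 q hqs).2 h1 h2
  have hA := stepM tt τ hτ tup (cfgM M y p n a I R) hok y
    (by
      show τ ≤ 2 ^ I
      have : I < 2 ^ I := Nat.lt_two_pow_self
      omega) b' ρ m hm hmod hcoef hexm hnsq
    (C * 2 ^ (cfgM M y p n a I R).R.card * ((cfgM M y p n a I R).U / (cfgM M y p n a I R).Rp) *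
      (∏ j, (((cfgM M y p n a I R).S j + 1 / (I : ℝ) ^ 2 +
        (cfgM M y p n a I R).R.card / 2 ^ ((cfgM M y p n a I R).κ j)) ^ (cfgM M y p n a I R).k j /
        (((cfgM M y p n a I R).k j).factorial : ℝ))) * (y * (Nat.log 2 I + 1) / I))
    (by
      have hSnn : ∀ j, 0 ≤ (cfgM M y p n a I R).S j := fun j => by
        unfold Cfg.S
        exact Finset.sum_nonneg (fun q _ => by positivity)
      have hU : 0 ≤ (cfgM M y p n a I R).U := by unfold Cfg.U; positivity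
      have hp : 0 ≤ (∏ j, (((cfgM M y p n a I R).S j + 1 / (I : ℝ) ^ 2 +
        (cfgM M y p n a I R).R.card / 2 ^ ((cfgM M y p n a I R).κ j)) ^ (cfgM M y p n a I R).k j /
        (((cfgM M y p n a I R).k j).factorial : ℝ))) := by
        refine Finset.prod_nonneg (fun j _ => ?_)
        have := hSnn j
        positivity
      positivity)
    (fun δ s h1 h2 h3 h4 => by
      have h0 := h3' (M + 1) (cfgM M y p n a I R) hok (show I2 ≤ I by omega) y (by omega)
        hIpow hIbig hκ hksum δ s h1 h2 h3 h4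
      refine le_trans (le_of_eq ?_) h0
      congr)
    (by
      refine le_trans (le_of_eq ?_) hlost'
      congr)
  have hSnn' : ∀ j, 0 ≤ (cfgM M y p n a I R).S j := fun j => by
    unfold Cfg.S
    exact Finset.sum_nonneg (fun q _ => by positivity)
  have hUnn' : 0 ≤ (cfgM M y p n a I R).U := by unfold Cfg.U; positivity
  have hpnn' : 0 ≤ (∏ j, (((cfgM M y p n a I R).S j + 1 / (I : ℝ) ^ 2 +
      (cfgM M y p n a I R).R.card /
        2 ^ ((cfgM M y p n a I R).κ j)) ^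
        (cfgM M y p n a I R).k j /
      (((cfgM M y p n a I R).k j).factorial : ℝ))) := by
    refine Finset.prod_nonneg (fun j _ => ?_)
    have := hSnn' j
    positivity
  have hC2 : C * 2 ^ (cfgM M y p n a I R).R.card ≤
      (C * 2 ^ 3) * 1 := by
    rw [mul_one]
    apply mul_le_mul_of_nonneg_left _ hC.le
    exact pow_le_pow_right₀ (by norm_num) hRC.card
  have hB := stepB (d0 / 2 ^ b') (C * 2 ^ 3) I ((cfgM M y p n a I R).Rp) ((cfgM M y p n a I R).U)
    (Real.exp (M + 1))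
    ((cfgM M y p n a I R).W) y (Nat.log 2 I + 1) 1
    (((cfgM M y p n a I R).Tup.filter (fun t => (cfgM M y p n a I R).N t % (8 * 2 ^ b') =
        (8 * ρ + m) % (8 * 2 ^ b'))).card) (oddAPT tt b' ρ (2 ^ I))
    (∏ j, (((cfgM M y p n a I R).S j + 1 / (I : ℝ) ^ 2 +
        (cfgM M y p n a I R).R.card / 2 ^ ((cfgM M y p n a I R).κ j)) ^ (cfgM M y p n a I R).k j /
        (((cfgM M y p n a I R).k j).factorial : ℝ))) (2 ^ (M + 1)) (Real.sqrt 3)
    (Real.sqrt (2 ^ I))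
    (2 ^ (rr M y - P.b)) (by positivity) (by positivity) hIR hRp (Real.exp_pos _) hWpos hyR
    (by positivity)
    (by norm_num)
    (by norm_num) (by positivity) hprod (by positivity) (by positivity) hs3 (by positivity)
    (by
      unfold Cfg.U
      rw [Real.sqrt_mul (by norm_num)]
      rfl)
    (by
      rw [Real.sq_sqrt (by positivity)]
      exact hTlow)
    (by
      refine le_trans (le_trans (le_of_eq ?_) hA) ?_
      · congr
      · apply mul_le_mul_of_nonneg_left _ (by positivity)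
        gcongr)
  refine le_trans ?_ hB
  have h8 := h8' y (by omega) I hI2
  push_cast at h8
  have hr2' : (y:ℝ) ^ (2 * M - 1) ≤ 2 * 2 ^ (rr M y - P.b) := by
    have e1 : y ^ (2 * M - 1) ≤ 2 * 2 ^ (rr M y - P.b) := by
      have e2 : 2 ^ (rr M y) ≤ 2 ^ (rr M y - P.b + 1) :=
        Nat.pow_le_pow_right (by norm_num) (by omega)
      rw [pow_succ] at e2
      omega
    exact_mod_cast e1
  have hzp : (y : ℝ) ^ (2 * M - 3 : ℤ) = (y:ℝ) ^ (2 * M - 1) / (y:ℝ) ^ 2 := by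
    have e1 : (2 * M - 3 : ℤ) = ((2 * M - 1 : ℕ) : ℤ) - ((2 : ℕ) : ℤ) := by
      have : 1 ≤ 2 * M := by omega
      push_cast [this]
      ring
    rw [e1, zpow_sub₀ hyR.ne', zpow_natCast, zpow_natCast]
  rw [hzp]
  have hsI : 0 < Real.sqrt (2 ^ I) := Real.sqrt_pos.2 (by positivity)
  have hLpos : (0:ℝ) < (Nat.log 2 I : ℝ) + 1 := by positivity
  have hexp : 0 < Real.exp ((M : ℝ) + 1) := Real.exp_pos _
  have h2b : (0 : ℝ) < 2 ^ b' := by positivity
  rw [div_mul_eq_mul_div, le_div_iff₀ (by positivity)] at h8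
  have hsplit : d0 / 2 ^ b' * Real.sqrt (2 ^ I) * 2 ^ (rr M y - P.b) /
      (8 * 2 ^ (M + 1) * (C * 2 ^ 3) * Real.exp (M + 1) * Real.sqrt 3 * y *
        ((Nat.log 2 I : ℝ) + 1)) =
      (d0 * Real.sqrt (2 ^ I) * 2 ^ (rr M y - P.b) /
      (8 * 2 ^ (M + 1) * (C * 2 ^ 3) * Real.exp (M + 1) * Real.sqrt 3 * y *
        ((Nat.log 2 I : ℝ) + 1))) / 2 ^ b' := by
    field_simp
  rw [hsplit]
  apply div_le_div_of_nonneg_right _ h2b.le
  rw [← mul_div_assoc, div_le_div_iff₀ (by positivity) (by positivity)]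
  calc Real.sqrt (2 ^ I) * (y:ℝ) ^ (2 * M - 1) *
        (8 * 2 ^ (M + 1) * (C * 2 ^ 3) * Real.exp (M + 1) * Real.sqrt 3 * y *
          ((Nat.log 2 I : ℝ) + 1))
      ≤ Real.sqrt (2 ^ I) * (2 * 2 ^ (rr M y - P.b)) *
        (8 * 2 ^ (M + 1) * (C * 2 ^ 3) * Real.exp (M + 1) * Real.sqrt 3 * y *
          ((Nat.log 2 I : ℝ) + 1)) := by
        apply mul_le_mul_of_nonneg_right _ (by positivity)
        exact mul_le_mul_of_nonneg_left hr2' hsI.le
    _ = Real.sqrt (2 ^ I) * 2 ^ (rr M y - P.b) * y *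
        (((Nat.log 2 I : ℝ) + 1) * (2 * (8 * 2 ^ (M + 1) * (C * 2 ^ 3) * Real.exp (M + 1) *
          Real.sqrt 3))) := by ring
    _ ≤ Real.sqrt (2 ^ I) * 2 ^ (rr M y - P.b) * y * (d0 * y) := by
        apply mul_le_mul_of_nonneg_left h8 (by positivity)
    _ = d0 * Real.sqrt (2 ^ I) * 2 ^ (rr M y - P.b) * (y:ℝ) ^ 2 := by ring

end Pool.Agent.H13.MO
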